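import Pool.Agent.Lib.MP_452a87_nt.K.BxF
import Pool.Agent.Lib.MP_452a87_nt.L.LDb
import Pool.Agent.Lib.MP_452a87_nt.X.Cvb
import Pool.Agent.Lib.MP_452a87_nt.L.LPg
import Pool.Agent.Lib.MP_452a87_nt.X.LIC
import Pool.Agent.Lib.MP_452a87_nt.X.LI
import Pool.Agent.Lib.MP_452a87_nt.X.Spa
import Pool.Agent.Lib.MP_452a87_nt.X.Pts
import Pool.Agent.Lib.MP_452a87_nt.X.Swz
import Pool.Agent.Lib.MP_452a87_nt.X.Lag
import Pool.Agent.Lib.MP_452a87_nt.L.LX1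
import Pool.Agent.Lib.MP_452a87_nt.X.Lip
import Pool.Agent.Lib.MP_452a87_nt.X.GrA
import Pool.Agent.Lib.MP_452a87_nt.X.GrB
import Pool.Agent.Lib.MP_452a87_nt.X.Gro
import Pool.Agent.Lib.MP_452a87_nt.X.Sml
import Pool.Agent.Lib.MP_452a87_nt.X.Cof
import Pool.Agent.Lib.MP_452a87_nt.X.NumX
import Pool.Agent.Lib.MP_452a87_nt.X.Cvi
import Pool.Agent.Lib.MP_452a87_nt.L.LEv
import Pool.Agent.Lib.MP_452a87_nt.L.LX2
import Pool.Agent.Lib.MP_452a87_nt.K.L1s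
import Pool.Agent.Lib.MP_452a87_nt.L.LDf
import Pool.Agent.Lib.MP_452a87_nt.L.LAf
import Pool.Agent.Lib.MP_452a87_nt.L.LSy
import Pool.Agent.Lib.MP_452a87_nt.A.TrI
import Pool.Agent.Lib.MP_452a87_nt.A.TrU
import Pool.Agent.Lib.MP_452a87_nt.A.A1v
import Pool.Agent.Lib.MP_452a87_nt.A.P1
import Pool.Agent.Lib.MP_452a87_nt.A.Clr
import Pool.Agent.Lib.MP_452a87_nt.L.LHp
import Pool.Agent.Lib.MP_452a87_nt.L.LId
import Pool.Agent.Lib.MP_452a87_nt.A.Gau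
import Pool.Agent.Lib.MP_452a87_nt.A.Gnx
import Pool.Agent.Lib.MP_452a87_nt.L.LGp
import Pool.Agent.Lib.MP_452a87_nt.L.LVl
import Pool.Agent.Lib.MP_452a87_nt.L.LRe
import Pool.Agent.Lib.MP_452a87_nt.A.Hom
import Pool.Agent.Lib.MP_452a87_nt.A.Ext
import Pool.Agent.Lib.MP_452a87_nt.L.LG2
import Pool.Agent.Lib.MP_452a87_nt.L.LG1
import Pool.Agent.Lib.MP_452a87_nt.L.LG
import Pool.Agent.Lib.MP_452a87_nt.L.LLf
import Pool.Agent.Lib.MP_452a87_nt.L.LDn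
import Pool.Agent.Lib.MP_452a87_nt.L.LCf
import Pool.Agent.Lib.MP_452a87_nt.L.LRb
import Pool.Agent.Lib.MP_452a87_nt.L.LKy
import Pool.Agent.Lib.MP_452a87_nt.L.LI1
import Pool.Agent.Lib.MP_452a87_nt.L.LMu
import Pool.Agent.Lib.MP_452a87_nt.L.LSe
import Pool.Agent.Lib.MP_452a87_nt.L.LHy
import Pool.Agent.Lib.MP_452a87_nt.A.TrE
import Pool.Agent.Lib.MP_452a87_nt.A.A2
import Pool.Agent.Lib.MP_452a87_nt.L.LFc
import Pool.Agent.Lib.MP_452a87_nt.L.LDs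
import Pool.Agent.Lib.MP_452a87_nt.L.LNr
import Pool.Agent.Lib.MP_452a87_nt.L.LFe
import Pool.Agent.Lib.MP_452a87_nt.L.LSt
import Pool.Agent.Lib.MP_452a87_nt.L.LTL
import Pool.Agent.Lib.MP_452a87_nt.E.ECb
import Pool.Agent.Lib.MP_452a87_nt.E.EPr
import Pool.Agent.Lib.MP_452a87_nt.E.ESv
import Pool.Agent.Lib.MP_452a87_nt.E.EOn
import Pool.Agent.Lib.MP_452a87_nt.E.EIt
import Pool.Agent.Lib.MP_452a87_nt.D.Ci2
import Pool.Agent.Lib.MP_452a87_nt.E.ENt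
import Pool.Agent.Lib.MP_452a87_nt.E.EGa
import Pool.Agent.Lib.MP_452a87_nt.E.EGb
import Pool.Agent.Lib.MP_452a87_nt.E.EPw
import Pool.Agent.Lib.MP_452a87_nt.E.EPs
import Pool.Agent.Lib.MP_452a87_nt.D.Sdd
import Pool.Agent.Lib.MP_452a87_nt.D.FB
import Pool.Agent.Lib.MP_452a87_nt.D.FR
import Pool.Agent.Lib.MP_452a87_nt.D.FC
import Pool.Agent.Lib.MP_452a87_nt.D.FD
import Pool.Agent.Lib.MP_452a87_nt.D.FE
import Pool.Agent.Lib.MP_452a87_nt.D.FF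
import Pool.Agent.Lib.MP_452a87_nt.D.FG
import Pool.Agent.Lib.MP_452a87_nt.E.EFp
import Pool.Agent.Lib.MP_452a87_nt.E.ESq
import Pool.Agent.Lib.MP_452a87_nt.E.EFn

/-!
# Assembly
-/

set_option autoImplicit false

namespace Pool.Agent.SMQ.AllE

open Pool.Agent.SMQ

theorem aBxF : S_BxF := pBxF
theorem aLDb : S_LDb := pLDb aBxF
theorem aCvb : S_Cvb := pCvb
theorem aLPg : S_LPg := pLPg aLDb aCvb aBxF
theorem aLIC : S_LIC := pLIC
theorem aLI : S_LI := pLI aLIC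
theorem aSpa : S_Spa := pSpa aLI
theorem aPts : S_Pts := pPts aLI aSpa
theorem aSwz : S_Swz := pSwz
theorem aLag : S_Lag := pLag
theorem aLX1 : S_LX1 := pLX1 aPts aSwz aLag
theorem aLip : S_Lip := pLip
theorem aGrA : S_GrA := pGrA
theorem aGrB : S_GrB := pGrB
theorem aGro : S_Gro := pGro aGrA aGrB
theorem aSml : S_Sml := pSml aSwz aGro aLag
theorem aCof : S_Cof := pCof
theorem aNumX : S_NumX := pNumX
theorem aCvi : S_Cvi := pCvi
theorem aLEv : S_LEv := pLEv aCvi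
theorem aLX2 : S_LX2 := pLX2 aPts aCvb aLip aSml aCof aNumX aLEv
theorem aL1s : S_L1s := pL1s
theorem aLDf : S_LDf := pLDf aLip aL1s
theorem aLAf : S_LAf := pLAf aLPg aLX1 aLX2 aLEv aCvb aLip aL1s aLDf
theorem aLSy : S_LSy := pLSy
theorem aTrI : S_TrI := pTrI
theorem aTrU : S_TrU := pTrU
theorem aA1v : S_A1v := pA1v aTrI aTrU
theorem aP1 : S_P1 := pP1 aA1v aTrI
theorem aClr : S_Clr := pClr
theorem aLHp : S_LHp := pLHp aLSy aA1v aP1 aClr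
theorem aLId : S_LId := pLId
theorem aGau : S_Gau := pGau
theorem aGnx : S_Gnx := pGnx
theorem aLGp : S_LGp := pLGp aLHp aLId aGau aP1 aGnx
theorem aLVl : S_LVl := pLVl
theorem aLRe : S_LRe := pLRe aLVl
theorem aHom : S_Hom := pHom
theorem aExt : S_Ext := pExt aHom
theorem aLG2 : S_LG2 := pLG2 aLGp aLRe aExt aP1 aGnx
theorem aLG1 : S_LG1 := pLG1
theorem aLG : S_LG := pLG aLG1
theorem aLLf : S_LLf := pLLf aLG
theorem aLDn : S_LDn := pLDn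
theorem aLCf : S_LCf := pLCf
theorem aLRb : S_LRb := pLRb aLLf aLDn aLCf aLDf
theorem aLKy : S_LKy := pLKy aLLf aLDn aLDf
theorem aLI1 : S_LI1 := pLI1 aLCf
theorem aLMu : S_LMu := pLMu aLG aLI1
theorem aLSe : S_LSe := pLSe aLG aLI1 aLMu
theorem aLHy : S_LHy := pLHy aGau aGnx
theorem aTrE : S_TrE := pTrE
theorem aA2 : S_A2 := pA2 aTrI
theorem aLFc : S_LFc := pLFc aLHy aLId aTrE aTrU aA2
theorem aLDs : S_LDs := pLDs aLG2 aLI1 aLLf
theorem aLNr : S_LNr := pLNr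
theorem aLFe : S_LFe := pLFe aLId aTrU aGnx
theorem aLSt : S_LSt := pLSt aLAf aLG2 aLRb aLKy aLSe aLFc aLDs aLNr aLFe
theorem aLTL : S_LTL := pLTL aLSt
theorem aECb : S_ECb := pECb aLTL aTrE aTrU
theorem aEPr : S_EPr := pEPr
theorem aESv : S_ESv := pESv
theorem aEOn : S_EOn := pEOn aEPr aESv
theorem aEIt : S_EIt := pEIt aEOn
theorem aCi2 : S_Ci2 := pCi2
theorem aENt : S_ENt := pENt aECb aEIt aCi2
theorem aEGa : S_EGa := pEGa
theorem aEGb : S_EGb := pEGb aEGa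
theorem aEPw : S_EPw := pEPw aECb aEGb aCi2
theorem aEPs : S_EPs := pEPs aEPw aCi2
theorem aSdd : S_Sdd := pSdd
theorem aFB : S_FB := pFB aLIC aSdd
theorem aFR : S_FR := pFR aFB
theorem aFC : S_FC := pFC aLIC aFB
theorem aFD : S_FD := pFD aLIC aFB aFC aSdd
theorem aFE : S_FE := pFE aFB aSdd
theorem aFF : S_FF := pFF
theorem aFG : S_FG := pFG aLIC aFB aTrE aTrI
theorem aEFp : S_EFp := pEFp aEPs aFR aFD aFE aFF aFG aFB
theorem aESq : S_ESq := pESq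
theorem aEFn : S_EFn := pEFn aENt aESq aFB aFG

end Pool.Agent.SMQ.AllE
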