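import Pool.Agent.Lib.MP_452a87_nt.D.HJk
import Pool.Agent.Lib.MP_452a87_nt.G.GCu
import Pool.Agent.Lib.MP_452a87_nt.K.BxF
import Pool.Agent.Lib.MP_452a87_nt.L.LDb
import Pool.Agent.Lib.MP_452a87_nt.X.Cvb
import Pool.Agent.Lib.MP_452a87_nt.L.LPg
import Pool.Agent.Lib.MP_452a87_nt.X.LIC
import Pool.Agent.Lib.MP_452a87_nt.X.LI
import Pool.Agent.Lib.MP_452a87_nt.X.Spa
import Pool.Agent.Lib.MP_452a87_nt.X.Pts
import Pool.Agent.Lib.MP_452a87_nt.X.Swz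
import Pool.Agent.Lib.MP_452a87_nt.X.Lag
import Pool.Agent.Lib.MP_452a87_nt.L.LX1
import Pool.Agent.Lib.MP_452a87_nt.X.Lip
import Pool.Agent.Lib.MP_452a87_nt.X.GrA
import Pool.Agent.Lib.MP_452a87_nt.X.GrB
import Pool.Agent.Lib.MP_452a87_nt.X.Gro
import Pool.Agent.Lib.MP_452a87_nt.X.Sml
import Pool.Agent.Lib.MP_452a87_nt.X.Cof
import Pool.Agent.Lib.MP_452a87_nt.X.NumX
import Pool.Agent.Lib.MP_452a87_nt.X.Cvi
import Pool.Agent.Lib.MP_452a87_nt.L.LEv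
import Pool.Agent.Lib.MP_452a87_nt.L.LX2
import Pool.Agent.Lib.MP_452a87_nt.K.L1s
import Pool.Agent.Lib.MP_452a87_nt.L.LDf
import Pool.Agent.Lib.MP_452a87_nt.L.LAf
import Pool.Agent.Lib.MP_452a87_nt.L.LSy
import Pool.Agent.Lib.MP_452a87_nt.A.TrI
import Pool.Agent.Lib.MP_452a87_nt.A.TrU
import Pool.Agent.Lib.MP_452a87_nt.A.A1v
import Pool.Agent.Lib.MP_452a87_nt.A.P1
import Pool.Agent.Lib.MP_452a87_nt.A.Clr
import Pool.Agent.Lib.MP_452a87_nt.L.LHp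
import Pool.Agent.Lib.MP_452a87_nt.L.LId
import Pool.Agent.Lib.MP_452a87_nt.A.Gau
import Pool.Agent.Lib.MP_452a87_nt.A.Gnx
import Pool.Agent.Lib.MP_452a87_nt.L.LGp
import Pool.Agent.Lib.MP_452a87_nt.L.LVl
import Pool.Agent.Lib.MP_452a87_nt.L.LRe
import Pool.Agent.Lib.MP_452a87_nt.A.Hom
import Pool.Agent.Lib.MP_452a87_nt.A.Ext
import Pool.Agent.Lib.MP_452a87_nt.L.LG2
import Pool.Agent.Lib.MP_452a87_nt.L.LG1
import Pool.Agent.Lib.MP_452a87_nt.L.LG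
import Pool.Agent.Lib.MP_452a87_nt.L.LLf
import Pool.Agent.Lib.MP_452a87_nt.L.LDn
import Pool.Agent.Lib.MP_452a87_nt.L.LCf
import Pool.Agent.Lib.MP_452a87_nt.L.LRb
import Pool.Agent.Lib.MP_452a87_nt.L.LKy
import Pool.Agent.Lib.MP_452a87_nt.L.LI1
import Pool.Agent.Lib.MP_452a87_nt.L.LMu
import Pool.Agent.Lib.MP_452a87_nt.L.LSe
import Pool.Agent.Lib.MP_452a87_nt.L.LHy
import Pool.Agent.Lib.MP_452a87_nt.A.TrE
import Pool.Agent.Lib.MP_452a87_nt.A.A2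
import Pool.Agent.Lib.MP_452a87_nt.L.LFc
import Pool.Agent.Lib.MP_452a87_nt.L.LDs
import Pool.Agent.Lib.MP_452a87_nt.L.LNr
import Pool.Agent.Lib.MP_452a87_nt.L.LFe
import Pool.Agent.Lib.MP_452a87_nt.L.LSt
import Pool.Agent.Lib.MP_452a87_nt.L.LTL
import Pool.Agent.Lib.MP_452a87_nt.E.ECb
import Pool.Agent.Lib.MP_452a87_nt.D.Ci2
import Pool.Agent.Lib.MP_452a87_nt.G.GFb
import Pool.Agent.Lib.MP_452a87_nt.G.GTl
import Pool.Agent.Lib.MP_452a87_nt.G.GAv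
import Pool.Agent.Lib.MP_452a87_nt.G.GDp
import Pool.Agent.Lib.MP_452a87_nt.D.Sdd
import Pool.Agent.Lib.MP_452a87_nt.D.FB
import Pool.Agent.Lib.MP_452a87_nt.G.GKd
import Pool.Agent.Lib.MP_452a87_nt.G.GRt
import Pool.Agent.Lib.MP_452a87_nt.D.FG
import Pool.Agent.Lib.MP_452a87_nt.G.GBk
import Pool.Agent.Lib.MP_452a87_nt.D.FR
import Pool.Agent.Lib.MP_452a87_nt.G.GMf
import Pool.Agent.Lib.MP_452a87_nt.G.GNf
import Pool.Agent.Lib.MP_452a87_nt.G.GD0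
import Pool.Agent.Lib.MP_452a87_nt.G.GDq
import Pool.Agent.Lib.MP_452a87_nt.G.GDt
import Pool.Agent.Lib.MP_452a87_nt.G.GDl
import Pool.Agent.Lib.MP_452a87_nt.G.GDr
import Pool.Agent.Lib.MP_452a87_nt.G.GDu
import Pool.Agent.Lib.MP_452a87_nt.G.GDv
import Pool.Agent.Lib.MP_452a87_nt.G.GFn

/-!
# Assembly
-/

set_option autoImplicit false

namespace Pool.Agent.SMQ.AllG

open Pool.Agent.SMQ

theorem aHJk : S_HJk := pHJk
theorem aGCu : S_GCu := pGCu aHJk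
theorem aBxF : S_BxF := pBxF
theorem aLDb : S_LDb := pLDb aBxF
theorem aCvb : S_Cvb := pCvb
theorem aLPg : S_LPg := pLPg aLDb aCvb aBxF
theorem aLIC : S_LIC := pLIC
theorem aLI : S_LI := pLI aLIC
theorem aSpa : S_Spa := pSpa aLI
theorem aPts : S_Pts := pPts aLI aSpa
theorem aSwz : S_Swz := pSwz
theorem aLag : S_Lag := pLag
theorem aLX1 : S_LX1 := pLX1 aPts aSwz aLag
theorem aLip : S_Lip := pLip
theorem aGrA : S_GrA := pGrA
theorem aGrB : S_GrB := pGrB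
theorem aGro : S_Gro := pGro aGrA aGrB
theorem aSml : S_Sml := pSml aSwz aGro aLag
theorem aCof : S_Cof := pCof
theorem aNumX : S_NumX := pNumX
theorem aCvi : S_Cvi := pCvi
theorem aLEv : S_LEv := pLEv aCvi
theorem aLX2 : S_LX2 := pLX2 aPts aCvb aLip aSml aCof aNumX aLEv
theorem aL1s : S_L1s := pL1s
theorem aLDf : S_LDf := pLDf aLip aL1s
theorem aLAf : S_LAf := pLAf aLPg aLX1 aLX2 aLEv aCvb aLip aL1s aLDf
theorem aLSy : S_LSy := pLSy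
theorem aTrI : S_TrI := pTrI
theorem aTrU : S_TrU := pTrU
theorem aA1v : S_A1v := pA1v aTrI aTrU
theorem aP1 : S_P1 := pP1 aA1v aTrI
theorem aClr : S_Clr := pClr
theorem aLHp : S_LHp := pLHp aLSy aA1v aP1 aClr
theorem aLId : S_LId := pLId
theorem aGau : S_Gau := pGau
theorem aGnx : S_Gnx := pGnx
theorem aLGp : S_LGp := pLGp aLHp aLId aGau aP1 aGnx
theorem aLVl : S_LVl := pLVl
theorem aLRe : S_LRe := pLRe aLVl
theorem aHom : S_Hom := pHom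
theorem aExt : S_Ext := pExt aHom
theorem aLG2 : S_LG2 := pLG2 aLGp aLRe aExt aP1 aGnx
theorem aLG1 : S_LG1 := pLG1
theorem aLG : S_LG := pLG aLG1
theorem aLLf : S_LLf := pLLf aLG
theorem aLDn : S_LDn := pLDn
theorem aLCf : S_LCf := pLCf
theorem aLRb : S_LRb := pLRb aLLf aLDn aLCf aLDf
theorem aLKy : S_LKy := pLKy aLLf aLDn aLDf
theorem aLI1 : S_LI1 := pLI1 aLCf
theorem aLMu : S_LMu := pLMu aLG aLI1
theorem aLSe : S_LSe := pLSe aLG aLI1 aLMu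
theorem aLHy : S_LHy := pLHy aGau aGnx
theorem aTrE : S_TrE := pTrE
theorem aA2 : S_A2 := pA2 aTrI
theorem aLFc : S_LFc := pLFc aLHy aLId aTrE aTrU aA2
theorem aLDs : S_LDs := pLDs aLG2 aLI1 aLLf
theorem aLNr : S_LNr := pLNr
theorem aLFe : S_LFe := pLFe aLId aTrU aGnx
theorem aLSt : S_LSt := pLSt aLAf aLG2 aLRb aLKy aLSe aLFc aLDs aLNr aLFe
theorem aLTL : S_LTL := pLTL aLSt
theorem aECb : S_ECb := pECb aLTL aTrE aTrU
theorem aCi2 : S_Ci2 := pCi2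
theorem aGFb : S_GFb := pGFb aGCu aECb aCi2
theorem aGTl : S_GTl := pGTl
theorem aGAv : S_GAv := pGAv aGFb aGTl
theorem aGDp : S_GDp := pGDp
theorem aSdd : S_Sdd := pSdd
theorem aFB : S_FB := pFB aLIC aSdd
theorem aGKd : S_GKd := pGKd aFB
theorem aGRt : S_GRt := pGRt
theorem aFG : S_FG := pFG aLIC aFB aTrE aTrI
theorem aGBk : S_GBk := pGBk aGRt aFG
theorem aFR : S_FR := pFR aFB
theorem aGMf : S_GMf := pGMf aFR
theorem aGNf : S_GNf := pGNf aGRt aFB aSdd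
theorem aGD0 : S_GD0 := pGD0
theorem aGDq : S_GDq := pGDq aGD0
theorem aGDt : S_GDt := pGDt
theorem aGDl : S_GDl := pGDl aGDq aGDt
theorem aGDr : S_GDr := pGDr
theorem aGDu : S_GDu := pGDu aGDr
theorem aGDv : S_GDv := pGDv aGDu
theorem aGFn : S_GFn := pGFn aGAv aGDp aGKd aGBk aGMf aGNf aGDl aGDv aGTl

end Pool.Agent.SMQ.AllG
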