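import Mathlib

/-!
# Schneider's conjecture for multiquadratic fields: definitions

Points over `ℤ`: a point is a map `x : ι → Ω` into a field of characteristic zero. `Spc x x'`: `x'` is a specialization of `x`
(every polynomial over `ℤ` vanishing at `x` vanishes at `x'`). `Tr x r`: the transcendence degree of `ℚ(x)` is `r`.
`Kc x a B`: the number of values at `x` of polynomials of total degree `≤ a` with coefficients in `[0, 2 ^ B)`.
`PP x r s`: `Kc x a B ≤ 2 ^ (s (a ^ r B + a ^ (r + 1)))` for all `a, B ≥ 1`.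
`Sz f d`: total degree `≤ d`, coefficients `≤ 2 ^ d` in absolute value. `l1 f`: sum of the absolute values of the coefficients.
-/

set_option autoImplicit false

namespace Pool.Agent.SMQ

open MvPolynomial

/-- `x'` is a specialization of `x` over `ℤ`. -/
def Spc {ι Ω Ω' : Type} [Field Ω] [Field Ω'] (x : ι → Ω) (x' : ι → Ω') : Prop :=
  ∀ P : MvPolynomial ι ℤ, aeval x P = 0 → aeval x' P = 0

/-- The transcendence degree of `ℚ(x)` over `ℚ` is `r`. -/
def Tr {ι Ω : Type} [Field Ω] [CharZero Ω] (x : ι → Ω) (r : ℕ) : Prop :=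
  ∃ b : Fin r → ι, AlgebraicIndependent ℚ (x ∘ b) ∧
    ∀ i, IsAlgebraic (IntermediateField.adjoin ℚ (Set.range (x ∘ b))) (x i)

/-- Polynomials of total degree at most `a` with coefficients in `[0, 2 ^ B)`. -/
def Bx (ι : Type) (a B : ℕ) : Set (MvPolynomial ι ℤ) :=
  {P | P.totalDegree ≤ a ∧ ∀ m, 0 ≤ P.coeff m ∧ P.coeff m < 2 ^ B}

/-- The number of values at `x` of the polynomials of the box. -/
noncomputable def Kc {ι Ω : Type} [Field Ω] (x : ι → Ω) (a B : ℕ) : ℕ :=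
  Set.ncard ((fun P : MvPolynomial ι ℤ => aeval x P) '' Bx ι a B)

/-- Growth property with exponent `r` and constant `s`. -/
def PP {ι Ω : Type} [Field Ω] (x : ι → Ω) (r s : ℕ) : Prop :=
  ∀ a B : ℕ, 1 ≤ a → 1 ≤ B → Kc x a B ≤ 2 ^ (s * (a ^ r * B + a ^ (r + 1)))

/-- Size at most `d`. -/
def Sz {ι : Type} (f : MvPolynomial ι ℤ) (d : ℕ) : Prop :=
  f.totalDegree ≤ d ∧ ∀ m, |f.coeff m| ≤ 2 ^ d

/-- Sum of the absolute values of the coefficients. -/
def l1 {ι : Type} (f : MvPolynomial ι ℤ) : ℕ := ∑ m ∈ f.support, (f.coeff m).natAbs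

/-- `psi u x i = ∑ j, u (i, j) * x j`. -/
def psi {Ω ι : Type} [Field Ω] [Fintype ι] {ρ : ℕ} (u : Fin ρ × ι → Ω) (x : ι → Ω) (i : Fin ρ) : Ω :=
  ∑ j, u (i, j) * x j

/-- The value of the extra variable `none` is `z`. -/
def ev {β Ω : Type} (z : Ω) (x : β → Ω) : Option β → Ω := fun o => o.elim z x

@[simp] lemma ev_none {β Ω : Type} (z : Ω) (x : β → Ω) : ev z x none = z := rfl
@[simp] lemma ev_some {β Ω : Type} (z : Ω) (x : β → Ω) (b : β) : ev z x (some b) = x b := rfl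

/-- `u` is algebraically independent over `ℚ(ξ)`. -/
def GenOver {ι τ : Type} (u : τ → ℂ) (ξ : ι → ℂ) : Prop :=
  AlgebraicIndependent (IntermediateField.adjoin ℚ (Set.range ξ)) u

/-- Add the row `0`. -/
def full {ι Ω : Type} {ρ : ℕ} (u0 : ι → Ω) (u' : Fin ρ × ι → Ω) : Fin (ρ + 1) × ι → Ω :=
  fun p => Fin.cons (α := fun _ => Ω) (u0 p.2) (fun i => u' (i, p.2)) p.1

/-- The rows `1, …, ρ`. -/
def lower {ι Ω : Type} {ρ : ℕ} (u : Fin (ρ + 1) × ι → Ω) : Fin ρ × ι → Ω := fun p => u (p.1.succ, p.2)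

@[simp] lemma full_zero {ι Ω : Type} {ρ : ℕ} (u0 : ι → Ω) (u' : Fin ρ × ι → Ω) (j : ι) :
    full u0 u' (0, j) = u0 j := rfl

@[simp] lemma full_succ {ι Ω : Type} {ρ : ℕ} (u0 : ι → Ω) (u' : Fin ρ × ι → Ω) (i : Fin ρ) (j : ι) :
    full u0 u' (i.succ, j) = u' (i, j) := rfl

@[simp] lemma lower_full {ι Ω : Type} {ρ : ℕ} (u0 : ι → Ω) (u' : Fin ρ × ι → Ω) :
    lower (full u0 u') = u' := rfl

lemma full_lower {ι Ω : Type} {ρ : ℕ} (u : Fin (ρ + 1) × ι → Ω) :
    full (fun j => u (0, j)) (lower u) = u := by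
  funext p
  obtain ⟨i, j⟩ := p
  refine Fin.cases ?_ (fun i => ?_) i <;> rfl

/-- The index sets: `BU ι r` the variables `U_(i,j)` and `T_i`. -/
abbrev BU (ι : Type) (r : ℕ) : Type := (Fin r × ι) ⊕ Fin r

/-- The index set with `T_0` removed. -/
abbrev BV (ι : Type) (ρ : ℕ) : Type := (Fin (ρ + 1) × ι) ⊕ Fin ρ

/-- Equivalence of index sets separating `T_0`. -/
def sepIdx (ι : Type) (ρ : ℕ) : BU ι (ρ + 1) ≃ Option (BV ι ρ) where
  toFun := Sum.elim (fun p => some (Sum.inl p)) (Fin.cases none (fun i => some (Sum.inr i)))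
  invFun := fun o => o.elim (Sum.inr 0) (Sum.elim Sum.inl (fun i => Sum.inr i.succ))
  left_inv := by
    rintro (p | i)
    · rfl
    · refine Fin.cases ?_ (fun i => ?_) i <;> rfl
  right_inv := by
    rintro (_ | (p | i))
    · rfl
    · rfl
    · rfl

@[simp] lemma sepIdx_inl (ι : Type) (ρ : ℕ) (p : Fin (ρ + 1) × ι) :
    sepIdx ι ρ (Sum.inl p) = some (Sum.inl p) := rfl
@[simp] lemma sepIdx_zero (ι : Type) (ρ : ℕ) : sepIdx ι ρ (Sum.inr 0) = none := rfl
@[simp] lemma sepIdx_succ (ι : Type) (ρ : ℕ) (i : Fin ρ) :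
    sepIdx ι ρ (Sum.inr i.succ) = some (Sum.inr i) := rfl

/-- A polynomial in `U, T` as a polynomial in `T_0`. -/
noncomputable def sep (ι : Type) (ρ : ℕ) :
    MvPolynomial (BU ι (ρ + 1)) ℤ ≃ₐ[ℤ] Polynomial (MvPolynomial (BV ι ρ) ℤ) :=
  (renameEquiv ℤ (sepIdx ι ρ)).trans (optionEquivLeft ℤ (BV ι ρ))

/-- Evaluation through `sep`. -/
lemma eval_sep {ι Ω : Type} [Field Ω] {ρ : ℕ} (u : Fin (ρ + 1) × ι → Ω) (t : Fin (ρ + 1) → Ω)
    (P : MvPolynomial (BU ι (ρ + 1)) ℤ) :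
    Polynomial.eval₂ (aeval (R := ℤ) (Sum.elim u (fun i : Fin ρ => t i.succ))).toRingHom (t 0) (sep ι ρ P) =
      aeval (Sum.elim u t) P := by
  induction P using MvPolynomial.induction_on with
  | C a =>
    have h : sep ι ρ (C a) = Polynomial.C (C a) := by simp [sep]
    rw [h, Polynomial.eval₂_C]
    simp
  | add p q hp hq => simp only [map_add, Polynomial.eval₂_add, hp, hq]
  | mul_X p i hp =>
    rw [map_mul, Polynomial.eval₂_mul, hp, map_mul]
    congr 1
    rcases i with (p | i)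
    · simp [sep]
    · refine Fin.cases ?_ (fun i => ?_) i
      · simp [sep]
      · simp [sep]

/-- A polynomial in one distinguished variable `none`: evaluation through `optionEquivLeft`. -/
lemma eval_opt {β Ω : Type} [Field Ω] (x : β → Ω) (z : Ω) (P : MvPolynomial (Option β) ℤ) :
    Polynomial.eval₂ (aeval (R := ℤ) x).toRingHom z (optionEquivLeft ℤ β P) = aeval (ev z x) P := by
  induction P using MvPolynomial.induction_on with
  | C a =>
    rw [optionEquivLeft_C, Polynomial.eval₂_C]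
    simp
  | add p q hp hq => simp only [map_add, Polynomial.eval₂_add, hp, hq]
  | mul_X p i hp =>
    rw [map_mul, Polynomial.eval₂_mul, hp, map_mul]
    congr 1
    cases i <;> simp

/-- `e_0`: the extra variable is replaced by `0`. -/
noncomputable def e0 {β : Type} (E : MvPolynomial (Option β) ℤ) : MvPolynomial β ℤ :=
  aeval (ev (0 : MvPolynomial β ℤ) (fun b => (X b : MvPolynomial β ℤ))) E

lemma aeval_e0 {β Ω : Type} [Field Ω] (x : β → Ω) (E : MvPolynomial (Option β) ℤ) :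
    aeval x (e0 E) = aeval (ev 0 x) E := by
  unfold e0
  induction E using MvPolynomial.induction_on with
  | C a => simp
  | add p q hp hq => simp only [map_add, hp, hq]
  | mul_X p i hp =>
    rw [map_mul, map_mul, hp, map_mul]
    congr 1
    cases i <;> simp

lemma Spc.refl {ι Ω : Type} [Field Ω] (x : ι → Ω) : Spc x x := fun _ h => h

lemma Spc.trans {ι Ω Ω' Ω'' : Type} [Field Ω] [Field Ω'] [Field Ω''] {x : ι → Ω} {x' : ι → Ω'}
    {x'' : ι → Ω''} (h : Spc x x') (h' : Spc x' x'') : Spc x x'' := fun P hP => h' P (h P hP)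

lemma Spc.comp {ι κ Ω Ω' : Type} [Field Ω] [Field Ω'] {x : ι → Ω} {x' : ι → Ω'}
    (h : Spc x x') (e : κ → ι) : Spc (x ∘ e) (x' ∘ e) := by
  intro P hP
  have := h (rename e P) (by rw [aeval_rename]; exact hP)
  rwa [aeval_rename] at this

/-! ## The numbers -/

/-- `mu a U = ∏ l ∈ U, √(a l)`. -/
noncomputable def mu {κ : Type} (a : κ → ℕ) (U : Finset κ) : ℝ := ∏ l ∈ U, Real.sqrt (a l)

/-- No product over a nonempty set is a square (in particular all `a l` are positive). -/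
def Ind {κ : Type} (a : κ → ℕ) : Prop := ∀ X : Finset κ, X.Nonempty → ¬ IsSquare (∏ l ∈ X, a l)

/-- `th a L U = exp (mu a U * L)`. -/
noncomputable def th {κ : Type} (a : κ → ℕ) (L : ℂ) (U : Finset κ) : ℂ := Complex.exp ((mu a U : ℂ) * L)

/-- `rho r X = ∏ l ∈ X, r l`. -/
def rho {κ : Type} (r : κ → ℂ) (X : Finset κ) : ℂ := ∏ l ∈ X, r l

/-- `ths r L X = exp (rho r X * L)`. -/
noncomputable def ths {κ : Type} (r : κ → ℂ) (L : ℂ) (X : Finset κ) : ℂ := Complex.exp (rho r X * L)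

/-- `r l` is a square root of the integer `a l`, and no product over a nonempty set is a square. -/
def Rts {κ : Type} (r : κ → ℂ) (a : κ → ℤ) : Prop :=
  (∀ l, r l ^ 2 = (a l : ℂ)) ∧ ∀ X : Finset κ, X.Nonempty → ¬ IsSquare (∏ l ∈ X, a l)

/-- The sum over `A` (symmetric difference) of the sets `x i`: the `l` which are in an odd number of the `x i`, `i ∈ A`. -/
def sd {j : ℕ} {κ : Type} [Fintype κ] [DecidableEq κ] (A : Finset (Fin j)) (x : Fin j → Finset κ) : Finset κ :=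
  Finset.univ.filter (fun l => Odd (A.filter (fun i => l ∈ x i)).card)

/-- The product of the coordinates: `(∑ lam U m_U) (∑ s V m_V) = ∑ cv a lam s W m_W`. -/
def cv {m : ℕ} (a : Fin m → ℕ) (lam s : Finset (Fin m) → ℕ) (W : Finset (Fin m)) : ℕ :=
  ∑ U, ∑ V, if symmDiff U V = W then (∏ l ∈ U ∩ V, a l) * lam U * s V else 0

/-- The auxiliary polynomials. -/
noncomputable def fs {m : ℕ} (a : Fin m → ℕ) (N : ℕ) (p : (Finset (Fin m) → Fin N) → ℤ)
    (s : Finset (Fin m) → ℕ) : MvPolynomial (Finset (Fin m)) ℤ :=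
  ∑ lam : Finset (Fin m) → Fin N, C (p lam) * ∏ W, X W ^ cv a (fun U => (lam U : ℕ)) s W

end Pool.Agent.SMQ
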