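import Pool.Agent.Lib.MP_452a87_nt.SpecN
import Pool.Agent.Lib.MP_9f2731_nt.GP.Dhj.All

/-!
# Part D: the density theorem (idea of the lead)

For `r l ^ 2 = a l ∈ ℤ` without square products (`Rts r a`) and `L ≠ 0`: for almost all `j`-tuples `x` of subsets of `Fin m` the
`2 ^ j - 1` numbers `ths r L (sd A x)`, `A` nonempty, are algebraically independent; hence almost all subfields of degree `2 ^ j` of
every multiquadratic field of large degree satisfy the statement of Schneider for every generator.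

The task `X` is to write `D/X.lean` with `theorem pX (h1 : S_..) ... : S_X`; statements used are hypotheses.
`sd A x = {l | l is in an odd number of the x i, i ∈ A}`.
-/

set_option autoImplicit false

namespace Pool.Agent.SMQ

open MvPolynomial

/-- The tuple `x` is bad. -/
def BadT {m : ℕ} (r : Fin m → ℂ) (L : ℂ) {j : ℕ} (x : Fin j → Finset (Fin m)) : Prop :=
  ¬ AlgebraicIndependent ℚ (fun A : {A : Finset (Fin j) // A.Nonempty} => ths r L (sd A.1 x))

/-- (HJk, 40 lines) Density Hales-Jewett in all dimensions, from the library `GP/Dhj` (`pBse : BseStmt` = `HJ 0 ∧ HJ 1`, `pMul : MulStmt`, `pIte`, see `GP/Dhj/All.lean`, where `dhjAll` is assembled in the same way).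
PROOF. `HJ k` by induction on `k`: `k = 0, 1` from `pBse`; for `k ≥ 1`, `HJ k` gives by `pIte aInc` the case `(k+1, 1)` of `MH` for all `δ`, and `pMul` gives `HJ (k+1)`. (Copy the lines of `dhjAll` for `aInc`.) -/
def S_HJk : Prop := ∀ k : ℕ, Pool.Agent.Lib.MP_9f2731_nt.GP.Dhj.HJ k

/-- (HJt, 120 lines, uses HJk) Density Hales-Jewett for tuples of sets.
PROOF. Identify `x : Fin j → Finset (Fin m)` with `y : Fin m → Finset (Fin j)`, `i ∈ y l ↔ l ∈ x i`, and `Finset (Fin j)` with `Fin (2^j)` (an equivalence `e`). HJk for the alphabet `Fin (2^j)`, dimension `k`, density `δ`: `n =: m0`, `ι = Fin m`. The predicate `A y := (the tuple of y) ∈ 𝒜` has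
`pr A = ncard 𝒜 / 2^(jm) ≥ δ` (`mn`, `pr` of `Dhj/Base.lean`: the number of functions `Fin m → Fin (2^j)` is `2^(jm)`). So there is a word `w : Fin m → Fin (2^j) ⊕ Fin k`, all wildcards occur. `D t = {l | w l = inr t}` (nonempty, disjoint), `a i = {l | w l = inl c, i ∈ e c}`. For `W : Fin j → Finset (Fin k)` take the letters
`v t = e⁻¹ {i | t ∈ W i}`; the point `sub w v` corresponds to the tuple `a i ∪ (W i).biUnion D`. -/
def S_HJt : Prop :=
  ∀ (j k : ℕ) (δ : ℝ), 0 < δ → ∃ m0 : ℕ, ∀ m : ℕ, m0 ≤ m → ∀ 𝒜 : Set (Fin j → Finset (Fin m)),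
    δ * 2 ^ (j * m) ≤ (𝒜.ncard : ℝ) →
    ∃ (D : Fin k → Finset (Fin m)) (a : Fin j → Finset (Fin m)), (∀ t, (D t).Nonempty) ∧
      (∀ t t', t ≠ t' → Disjoint (D t) (D t')) ∧ (∀ i t, Disjoint (a i) (D t)) ∧
      ∀ W : Fin j → Finset (Fin k), (fun i => a i ∪ (W i).biUnion D) ∈ 𝒜

/-- (Ci2, 100 lines) Circuits of a family of numbers indexed by the nonempty subsets of `Fin j`.
PROOF. The family over all nonempty subsets is dependent; choose a set `C` of nonempty subsets of minimal cardinality such that the family `fun A : C => v A` is algebraically dependent. `C` is not empty. For `A0 ∈ C` the family over `C.erase A0` is algebraically independent by minimality, and with `A0` added it is dependent, so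
`v A0` is algebraic over `ℚ(v '' (C.erase A0))` (adding a transcendental element to an independent family keeps independence: `AlgebraicIndependent.option_iff`/`algebraicIndependent_..insert` or `sumElim`-type lemmas; work with families indexed by `C.erase A0` and `Option`). -/
def S_Ci2 : Prop :=
  ∀ (j : ℕ) (v : Finset (Fin j) → ℂ),
    ¬ AlgebraicIndependent ℚ (fun A : {A : Finset (Fin j) // A.Nonempty} => v A.1) →
    ∃ C : Finset (Finset (Fin j)), C.Nonempty ∧ (∀ A ∈ C, A.Nonempty) ∧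
      ∀ A0 ∈ C, IsAlgebraic (IntermediateField.adjoin ℚ (v '' ((C.erase A0 : Finset (Finset (Fin j))) : Set (Finset (Fin j))))) (v A0)

/-- (Sdd, 60 lines) Elementary rules for `sd`.
PROOF. (1) For disjoint `a i`, `D t`: a point `l ∈ D t` is in `a i ∪ (W i).biUnion D` iff `t ∈ W i` (`l` is in no `a i` and in no other `D t'`); a point in no `D t` is in it iff `l ∈ a i`. So the sum over `A` is `sd A a ∪ (sd A W).biUnion D`. (2), (3): parity. -/
def S_Sdd : Prop :=
  (∀ (j k m : ℕ) (D : Fin k → Finset (Fin m)) (a : Fin j → Finset (Fin m)) (W : Fin j → Finset (Fin k)) (A : Finset (Fin j)),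
    (∀ t t', t ≠ t' → Disjoint (D t) (D t')) → (∀ i t, Disjoint (a i) (D t)) →
    sd A (fun i => a i ∪ (W i).biUnion D) = sd A a ∪ (sd A W).biUnion D ∧ ∀ t, Disjoint (sd A a) (D t)) ∧
  (∀ (j m : ℕ) (x : Fin j → Finset (Fin m)) (A A' : Finset (Fin j)),
    sd (symmDiff A A') x = symmDiff (sd A x) (sd A' x)) ∧
  (∀ (j j' m : ℕ) (x : Fin j → Finset (Fin m)) (B : Fin j' → Finset (Fin j)) (A : Finset (Fin j')),
    sd A (fun i => sd (B i) x) = sd (sd A B) x) ∧
  (∀ (j m : ℕ) (x : Fin j → Finset (Fin m)) (i : Fin j), sd {i} x = x i)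

/-- (Clo, 200 lines) The closure induction. `cl` is any closure operator on sets of pairs.
PROOF. Let `S` be the set of all `(A, w)` with `A ∈ C` and `w.card + 1 < C.card`. COUNT: there are at most `2^j` sets `A` and `C.card ≤ 2^j`; the number of `w ⊆ Fin k` with at most `q = 2^j` elements is at most `(k+1)^q` (an element of the image of `Fin q → Option (Fin k)`).
CLAIM: `(A0, w) ∈ cl S` for all `A0 ∈ C`, by strong induction on `w.card`. If `w.card + 1 < C.card` then `(A0, w) ∈ S`. Otherwise `(C.erase A0).card ≤ w.card`, so there is an injective map `A ↦ t_A` from `C.erase A0` to `w`. Let `i0 ∈ A0`. For `t : Fin k` define `v t ⊆ Fin j`: `∅` if `t ∉ w`; for `t = t_A`: `{i}` with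
`i ∈ A0 \\ A` if there is one; otherwise `A0 ⊂ A` (as `A ≠ A0`) and `v t = {i, i'}`, `i ∈ A0`, `i' ∈ A \\ A0`; for other `t ∈ w`: `{i0}`. Then `(A0 ∩ v t).card = 1` for `t ∈ w`, and `(A ∩ v (t_A)).card` is `0` or `2`. Let `W i = {t | i ∈ v t}`, so `sd A W = {t | (A ∩ v t).card odd}` (the `i ∈ A` with `t ∈ W i` are the elements of `A ∩ v t`).
Hence `sd A0 W = w`, and for `A ∈ C.erase A0`: `sd A W ⊆ w.erase t_A`, so `(sd A W).card < w.card` and `(A, sd A W) ∈ cl S` by induction. By hypothesis `(A0, w) = (A0, sd A0 W) ∈ cl {(A, sd A W) | A ∈ C.erase A0} ⊆ cl (cl S) ⊆ cl S`. -/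
def S_Clo : Prop :=
  ∀ (j k : ℕ) (cl : Set (Finset (Fin j) × Finset (Fin k)) → Set (Finset (Fin j) × Finset (Fin k))),
    (∀ S, S ⊆ cl S) → (∀ S S', S ⊆ S' → cl S ⊆ cl S') → (∀ S, cl (cl S) ⊆ cl S) →
    ∀ C : Finset (Finset (Fin j)), (∀ A ∈ C, A.Nonempty) →
    (∀ W : Fin j → Finset (Fin k), ∀ A0 ∈ C, (A0, sd A0 W) ∈ cl {q | ∃ A ∈ C.erase A0, q = (A, sd A W)}) →
    ∃ S : Finset (Finset (Fin j) × Finset (Fin k)), S.card ≤ 2 ^ j * (k + 1) ^ (2 ^ j) ∧
      ∀ A ∈ C, ∀ w : Finset (Fin k), (A, w) ∈ cl (S : Set (Finset (Fin j) × Finset (Fin k)))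

/-- (Pos, 150 lines) Merging blocks of negative square.
PROOF. `c t = ∏ l ∈ D t, a l ≠ 0` for `t : Fin (2k)`. For `i : Fin k` let `D' i = D (2i)` if `c (2i) > 0`, otherwise `D (2i+1)` if `c (2i+1) > 0`, otherwise `D (2i) ∪ D (2i+1)`; `T i ⊆ {2i, 2i+1}` nonempty with `D' i = (T i).biUnion D`. Then `c' i = ∏ l ∈ D' i, a l > 0`; `b i = c' i` as a natural number. The `D' i` are
disjoint and nonempty, so a product of the `b i` over a nonempty `X` is the product of the `a l` over a nonempty set: `Ind b` (a natural number that is a square gives a square integer). For `X ⊆ Fin k`, `Y = X.biUnion D'`: `(mu b X)^2 = ∏_(i∈X) b i = (rho r Y)^2` (in `ℂ`), so `rho r Y = ± mu b X`. -/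
def S_Pos : Prop :=
  ∀ (m k : ℕ) (r : Fin m → ℂ) (a : Fin m → ℤ) (D : Fin (2 * k) → Finset (Fin m)), Rts r a → (∀ t, (D t).Nonempty) →
    (∀ t t', t ≠ t' → Disjoint (D t) (D t')) →
    ∃ (T : Fin k → Finset (Fin (2 * k))) (b : Fin k → ℕ), Ind b ∧
      ∀ X : Finset (Fin k), rho r ((X.biUnion T).biUnion D) = (mu b X : ℂ) ∨
        rho r ((X.biUnion T).biUnion D) = -(mu b X : ℂ)

/-- (NumD, 40 lines) PROOF. Exponential against polynomial growth (`tendsto`; or `2^k ≥ k^(e+1)` for large `k`). -/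
def S_NumD : Prop := ∀ j : ℕ, ∃ k : ℕ, 4 * (2 ^ j * (2 * k + 1) ^ (2 ^ j) + 2) ^ 2 ≤ 2 ^ k

/-- (DenC, 200 lines, uses LTD, TrE, TrU, Clo, Pos, Sdd) A full cube of tuples with the same circuit is impossible.
PROOF. `x_W i = a i ∪ (W i).biUnion D` for `W : Fin j → Finset (Fin (2k))`. For `A : Finset (Fin j)` and `w : Finset (Fin (2k))` put `g (A, w) = ths r L (sd A a ∪ w.biUnion D)`. By Sdd `ths r L (sd A (x_W)) = g (A, sd A W)`. `cl S = {q | IsAlgebraic (IntermediateField.adjoin ℚ (g '' S)) (g q)}` is a closure operator. The hypothesis gives that of Clo, so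
there is `S`, `S.card ≤ s := 2^j (2k+1)^(2^j)`, with all `g (A, w)`, `A ∈ C`, algebraic over `ℚ(g '' S)`. Fix `A ∈ C`, `L' = rho r (sd A a) * L ≠ 0` (all `r l ≠ 0`). Pos: `T, b`. For `X ⊆ Fin k`: with `w = X.biUnion T`, `rho r (sd A a ∪ w.biUnion D) = rho r (sd A a) * rho r (w.biUnion D)` (disjoint), so
`g (A, w) = exp(± mu b X * L') = (th b L' X)^(±1)`, so `th b L' X` is algebraic over `ℚ(g '' S)`. `Tr (th b L') t` (TrE), `t ≤ S.card ≤ s` (TrU with `κ = S`). LTD: `2^k < 4 (t+2)^2 ≤ 4 (s+2)^2 ≤ 2^k`, contradiction. -/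
def S_DenC : Prop :=
  ∀ (j k m : ℕ) (r : Fin m → ℂ) (a0 : Fin m → ℤ) (L : ℂ) (C : Finset (Finset (Fin j))) (D : Fin (2 * k) → Finset (Fin m))
    (a : Fin j → Finset (Fin m)), 4 * (2 ^ j * (2 * k + 1) ^ (2 ^ j) + 2) ^ 2 ≤ 2 ^ k → Rts r a0 → L ≠ 0 →
    C.Nonempty → (∀ A ∈ C, A.Nonempty) → (∀ t, (D t).Nonempty) → (∀ t t', t ≠ t' → Disjoint (D t) (D t')) →
    (∀ i t, Disjoint (a i) (D t)) →
    ∃ W : Fin j → Finset (Fin (2 * k)), ∃ A0 ∈ C,
      ¬ IsAlgebraic (IntermediateField.adjoin ℚ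
        ((fun A => ths r L (sd A (fun i => a i ∪ (W i).biUnion D))) '' ((C.erase A0 : Finset (Finset (Fin j))) : Set (Finset (Fin j)))))
        (ths r L (sd A0 (fun i => a i ∪ (W i).biUnion D)))

/-- (Den, 120 lines, uses HJt, Ci2, NumD, DenC) THE DENSITY THEOREM.
PROOF. `k` from NumD; `δ' = δ / 2^(2^j)`; `m0` from HJt for `(j, 2k, δ')`. Suppose more than `δ 2^(jm)` tuples are bad. Each bad `x` has a circuit `C` (Ci2 with `v A = ths r L (sd A x)`), one of at most `2^(2^j)` sets; by pigeonhole some `C` belongs to a set `𝒜` of at least `δ' 2^(jm)` tuples (those bad `x` for which `C` has the properties in Ci2).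
HJt: `D, a` with all tuples in `𝒜`, contradiction to DenC. -/
def S_Den : Prop :=
  ∀ (j : ℕ) (δ : ℝ), 0 < δ → ∃ m0 : ℕ, ∀ m : ℕ, m0 ≤ m → ∀ (r : Fin m → ℂ) (a : Fin m → ℤ) (L : ℂ), Rts r a → L ≠ 0 →
    (Set.ncard {x : Fin j → Finset (Fin m) | BadT r L x} : ℝ) ≤ δ * 2 ^ (j * m)

/-! ### Fields -/

/-- The field of a family of sets. -/
noncomputable def KX {m : ℕ} {κ : Type} (r : Fin m → ℂ) (x : κ → Finset (Fin m)) : IntermediateField ℚ ℂ :=
  IntermediateField.adjoin ℚ (Set.range fun i => rho r (x i))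

/-- Linear independence over the field with two elements. -/
def Fre {j m : ℕ} (x : Fin j → Finset (Fin m)) : Prop := ∀ A : Finset (Fin j), A.Nonempty → sd A x ≠ ∅

/-- (FR, 200 lines) Generators of a multiquadratic field.
PROOF. `F = ℚ(S)` is finite dimensional, so generated by a finite subset of `S`: take a finite subset `S'` of `S` with `[ℚ(S') : ℚ]` maximal; then `S ⊆ ℚ(S')`. Let `{r_1, …, r_k} ⊆ S` be a generating subset of minimal cardinality `k`. `[F : ℚ] ≤ 2^k`, so `m ≤ k`. No product of the `r_i` over a nonempty `X` is rational: all `r_i ≠ 0` by minimality, and if the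
product is rational then for `i ∈ X` `r_i` is in the field of the others, contradiction to minimality. Multiplying `r_i` by the denominator of `r_i^2`: `r_i^2 = a_i ∈ ℤ`. The product of the `a_i` over nonempty `X` is not a square (otherwise the product of the `r_i` is `±` its root). So `Rts r a` (for `k` elements); by LIC the `2^k` numbers `rho r U` are linearly independent
in `F`, so `2^k ≤ 2^m`, `k = m`. -/
def S_FR : Prop :=
  ∀ (m : ℕ) (S : Set ℂ), (∀ x ∈ S, ∃ q : ℚ, x ^ 2 = (q : ℂ)) → Module.finrank ℚ (IntermediateField.adjoin ℚ S) = 2 ^ m →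
    ∃ (r : Fin m → ℂ) (a : Fin m → ℤ), Rts r a ∧ IntermediateField.adjoin ℚ S = IntermediateField.adjoin ℚ (Set.range r)

/-- (FB, 150 lines, uses LIC, Sdd) The field of a tuple.
PROOF. The `ℚ`-span `V` of the numbers `rho r (sd A x)`, `A ⊆ κ = Fin j`, contains `1 = rho r (sd ∅ x)` and `rho r (x i)` (`sd {i} x = x i`) and is closed under multiplication: `rho r X * rho r Y = (∏ l ∈ X ∩ Y, a l) * rho r (symmDiff X Y)` and Sdd (2). It is finite dimensional, so a field: `KX r x = V` (as sets). (1) If `rho r X ∈ KX r x` then by LIC `X = sd A x` for some `A`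
(otherwise `rho r X` would be independent of them); the converse is clear. (2) The dimension is the number of different sets `sd A x` (LIC), and `A ↦ sd A x` is injective iff `Fre x` (Sdd (2)); it is at most `2^j`, with equality iff injective. -/
def S_FB : Prop :=
  ∀ (j m : ℕ) (r : Fin m → ℂ) (a : Fin m → ℤ) (x : Fin j → Finset (Fin m)), Rts r a →
    (∀ X : Finset (Fin m), rho r X ∈ KX r x ↔ ∃ A : Finset (Fin j), X = sd A x) ∧
    (Module.finrank ℚ (KX r x) = 2 ^ j ↔ Fre x) ∧
    (∀ z ∈ KX r x, ∃ c : Finset (Fin j) → ℚ, z = ∑ A, (c A : ℂ) * rho r (sd A x))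

/-- (FC, 200 lines, uses LIC, FB) Every subfield is generated by the `rho r X` which it contains.
PROOF. `F = ℚ(range r)` is the splitting field over `ℚ` of `∏ (X^2 - a_l)` (or: generated by the roots of separable polynomials that split in `F`), so Galois; `F` is spanned by the `rho r X` (FB for `x l = {l}`; `sd A x = A`). Let `K ≤ F`, regard it as an intermediate field of `F/ℚ` (`IntermediateField.restrict`); `K` is the fixed field of `H = Gal(F/K)`
(`IsGalois.fixedField_fixingSubgroup`). For `σ ∈ Gal(F/ℚ)`: `(σ (rho r X))^2 = (rho r X)^2`, so `σ (rho r X) = ε rho r X`, `ε = ±1`. Let `z = ∑ c_X rho r X ∈ K`. For `σ ∈ H`: `σ z = z`, and by LIC `ε_X = 1` for all `X` with `c_X ≠ 0`. So these `rho r X` are fixed by `H`, hence in `K`. -/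
def S_FC : Prop :=
  ∀ (m : ℕ) (r : Fin m → ℂ) (a : Fin m → ℤ), Rts r a → ∀ K : IntermediateField ℚ ℂ, K ≤ IntermediateField.adjoin ℚ (Set.range r) →
    ∀ z ∈ K, ∃ c : Finset (Fin m) → ℚ, z = ∑ X, (c X : ℂ) * rho r X ∧ ∀ X, c X ≠ 0 → rho r X ∈ K

/-- (FD, 200 lines, uses LIC, FB, FC, Sdd) Every subfield of degree `2^j` is the field of a free tuple.
PROOF. `G = {X | rho r X ∈ K}` contains `∅` and is closed under symmetric difference (`rho r (symmDiff X Y) = rho r X rho r Y / (integer ≠ 0)`). By FC `K` is spanned by the `rho r X`, `X ∈ G`, and by LIC `G` has `2^j` elements. Choose a free tuple `x : Fin e → Finset (Fin m)` with all `x i ∈ G` with `e` maximal (`2^e ≤ 2^j` since `A ↦ sd A x` is injective into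
`G`). Every `X ∈ G` is some `sd A x`: otherwise the tuple with `X` added is free (`Fin.snoc`/`Fin.cons`: `sd` of a set containing the new index is `symmDiff X (sd A x) ≠ ∅`). So `2^e = 2^j`, `e = j`, and `K = KX r x` (both are spanned by the `rho r X`, `X ∈ G`). -/
def S_FD : Prop :=
  ∀ (m j : ℕ) (r : Fin m → ℂ) (a : Fin m → ℤ), Rts r a → ∀ K : IntermediateField ℚ ℂ, K ≤ IntermediateField.adjoin ℚ (Set.range r) →
    Module.finrank ℚ K = 2 ^ j → ∃ x : Fin j → Finset (Fin m), Fre x ∧ K = KX r x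

/-- (FE, 150 lines, uses FB, Sdd) The number of tuples of a field does not depend on the field.
PROOF. Let `N = ` the number of `B : Fin j → Finset (Fin j)` with `Fre B` (`Fin j` for `Fin m`); `N ≥ 1` (`B i = {i}`: `sd A B = A`). Let `x0` be free. The map `B ↦ (fun i => sd (B i) x0)` is a bijection from the free `B` to the set of all `x` with `KX r x = KX r x0`: it is injective (`Fre x0` and Sdd (2): `sd · x0` is injective). If `B` is free then
`x = (sd (B i) x0)` is free (`sd A x = sd (sd A B) x0`, Sdd (3)) and `KX r x ≤ KX r x0`, both of degree `2^j` (FB), so equal. Conversely if `KX r x = KX r x0` then `rho r (x i) ∈ KX r x0`, so `x i = sd (B i) x0` (FB) and `x` is free by the degree (FB), so `B` is free (`sd A B = ∅` implies `sd A x = sd ∅ x0 = ∅`). -/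
def S_FE : Prop :=
  ∀ j : ℕ, ∃ N : ℕ, 1 ≤ N ∧ ∀ (m : ℕ) (r : Fin m → ℂ) (a : Fin m → ℤ), Rts r a → ∀ x0 : Fin j → Finset (Fin m), Fre x0 →
    Set.ncard {x : Fin j → Finset (Fin m) | KX r x = KX r x0} = N

/-- (FF, 100 lines) Most tuples are free.
PROOF. If `x` is not free there is `A` nonempty with `sd A x = ∅`; let `i0 ∈ A`. Then `x i0 = sd (A.erase i0) x` is determined by the other `x i`: at most `2^((j-1) m)` such `x`. There are at most `2^j` sets `A`. So at most `2^j 2^((j-1)m) ≤ 2^(jm) / 2` tuples are not free, as `m ≥ j + 1` (`j ≥ 1` if there is a nonempty `A`). -/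
def S_FF : Prop :=
  ∀ (j m : ℕ), j + 1 ≤ m → (2 : ℝ) ^ (j * m) ≤ 2 * (Set.ncard {x : Fin j → Finset (Fin m) | Fre x} : ℝ)

/-- (FG, 200 lines, uses LIC, FB, TrE, TrI) From a good free tuple to all generators.
PROOF. Let `K = KX r x`, `d = 2^j = [K : ℚ]` (FB), `ℚ(β) = K`, so `1, β, …, β^(d-1)` is a basis of `K` over `ℚ`. For `A` nonempty `rho r (sd A x) = ∑_(i<d) c_i β^i` with `c_i ∈ ℚ`; let `N ≥ 1` be a common denominator: `(ths r L (sd A x))^N = ∏_i exp(β^i L)^(N c_i)` with integers `N c_i`. As `exp L` (the factor `i = 0`) is algebraic,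
`ths r L (sd A x)` is algebraic over `ℚ(z)`, `z_i = exp(β^(i+1) L)`, `i < d - 1`. The `d - 1` numbers `ths r L (sd A x)` (`A` nonempty) are algebraically independent. `Tr z e` (TrE), the basis `b : Fin e → Fin (d-1)` is injective, so `e ≤ d - 1`, and by TrI `d - 1 ≤ e`. So `b` is bijective and `z` is algebraically independent. -/
def S_FG : Prop :=
  ∀ (j m : ℕ) (r : Fin m → ℂ) (a : Fin m → ℤ) (L : ℂ) (x : Fin j → Finset (Fin m)), Rts r a → IsAlgebraic ℚ (Complex.exp L) →
    Fre x → ¬ BadT r L x → ∀ β : ℂ, IntermediateField.adjoin ℚ {β} = KX r x →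
    AlgebraicIndependent ℚ (fun i : Fin (2 ^ j - 1) => Complex.exp (β ^ ((i : ℕ) + 1) * L))

/-- `K` fails for `L`: some generator `β` of `K` has dependent powers `e^(β L), …, e^(β^(d-1) L)`. -/
def BadK (d : ℕ) (L : ℂ) (K : IntermediateField ℚ ℂ) : Prop :=
  ∃ β : ℂ, IntermediateField.adjoin ℚ {β} = K ∧
    ¬ AlgebraicIndependent ℚ (fun i : Fin (d - 1) => Complex.exp (β ^ ((i : ℕ) + 1) * L))

/-- (FinD, 200 lines, uses Den, FR, FD, FE, FF, FG) THE FINAL THEOREM.
PROOF. `N` from FE; `δ = ε / 2`; `m0` from Den, also `m0 ≥ j + 1`. FR: `r, a`. Let `𝒦` be the set of all `K ≤ F` of degree `2^j` and `𝒦'` the bad ones among them. Both are finite: by FD `K = KX r x` with `x` free. For `K ∈ 𝒦` the set `Tup K = {x | KX r x = K}` has exactly `N` elements (FD, FE), all of them free (FB by the degree; or take the free ones); for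
different `K` they are disjoint. Every free `x` is in `Tup K` for `K = KX r x ∈ 𝒦` (degree `2^j` by FB, `K ≤ F`). So `N |𝒦| ≥ #free ≥ 2^(jm)/2` (FF). If `K ∈ 𝒦'` then every free `x ∈ Tup K` is bad (FG), so `N |𝒦'| ≤ #bad ≤ δ 2^(jm) ≤ 2 δ N |𝒦| = ε N |𝒦|` (Den). Divide by `N`. -/
def S_FinD : Prop :=
  ∀ (j : ℕ) (ε : ℝ), 0 < ε → ∃ m0 : ℕ, ∀ m : ℕ, m0 ≤ m → ∀ S : Set ℂ, (∀ x ∈ S, ∃ q : ℚ, x ^ 2 = (q : ℂ)) →
    Module.finrank ℚ (IntermediateField.adjoin ℚ S) = 2 ^ m → ∀ L : ℂ, L ≠ 0 → IsAlgebraic ℚ (Complex.exp L) →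
    ({K : IntermediateField ℚ ℂ | K ≤ IntermediateField.adjoin ℚ S ∧ Module.finrank ℚ K = 2 ^ j}.Finite) ∧
    (Set.ncard {K : IntermediateField ℚ ℂ | K ≤ IntermediateField.adjoin ℚ S ∧ Module.finrank ℚ K = 2 ^ j ∧ BadK (2 ^ j) L K} : ℝ) ≤
      ε * Set.ncard {K : IntermediateField ℚ ℂ | K ≤ IntermediateField.adjoin ℚ S ∧ Module.finrank ℚ K = 2 ^ j}

end Pool.Agent.SMQ
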