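import Pool.Agent.Lib.MP_452a87_nt.SpecL
import Pool.Agent.Lib.MP_452a87_nt.SpecD

/-!
# Part E: power saving and natural density (uses linear LTD, `S_LTL`)

The task `X` is to write `E/X.lean` with `theorem pX (h1 : S_..) ... : S_X`; statements used are hypotheses, so all modules are independent.

Idea. `k = j + 4`. If all `2^(jk)` tuples `a_W i = c_i ∏_(l ∈ W i) b_(i,l)` (up to squares; `W i ⊆ Fin k`, the `b_(i,l)` independent modulo squares) had the same circuit `C`, let `A0 ∈ C`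
be of maximal cardinality `q` and freeze `W i = ∅` for `i ∉ A0`: the `2^(qk)` values at `A0` are algebraic over at most `2^j 2^(k(q-1))` values, which contradicts linear LTD (ECb). Such CUBES
exist in every dense set of tuples: in `F_2^m` by Cauchy-Schwarz (EGa, EGb; power saving), and in the box `[1, X]^j` with `b = q q'`, `q, q'` primes of almost equal size (EOn, EIt; natural density).
-/

set_option autoImplicit false

namespace Pool.Agent.SMQ

open MvPolynomial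

/-- `exp (lam A * √(∏ i ∈ A, a i))`. -/
noncomputable def vn {j : ℕ} (lam : Finset (Fin j) → ℂ) (a : Fin j → ℕ) (A : Finset (Fin j)) : ℂ :=
  Complex.exp (lam A * ((Real.sqrt ((∏ i ∈ A, a i : ℕ) : ℝ) : ℝ) : ℂ))

/-- `C` is a circuit type for the family `v`: every member is algebraic over the others. -/
def Crc {j : ℕ} (C : Finset (Finset (Fin j))) (v : Finset (Fin j) → ℂ) : Prop :=
  C.Nonempty ∧ (∀ A ∈ C, A.Nonempty) ∧
    ∀ A0 ∈ C, IsAlgebraic (IntermediateField.adjoin ℚ (v '' ((C.erase A0 : Finset (Finset (Fin j))) : Set (Finset (Fin j))))) (v A0)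

/-- The tuple `a` of natural numbers is bad for the multipliers `lam`. -/
def BadN {j : ℕ} (lam : Finset (Fin j) → ℂ) (a : Fin j → ℕ) : Prop :=
  ¬ AlgebraicIndependent ℚ (fun A : {A : Finset (Fin j) // A.Nonempty} => vn lam a A.1)

/-- The tuple `x` of sets is bad for the multipliers `lam` (positive integers `a l`). -/
def BadV {m j : ℕ} (a : Fin m → ℕ) (lam : Finset (Fin j) → ℂ) (x : Fin j → Finset (Fin m)) : Prop :=
  ¬ AlgebraicIndependent ℚ (fun A : {A : Finset (Fin j) // A.Nonempty} => Complex.exp (lam A.1 * ((mu a (sd A.1 x) : ℝ) : ℂ)))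

/-- (ECb, 250 lines, uses LTL, TrE, TrU) THE CUBE THEOREM.
PROOF. Suppose all are algebraic. `k = j + 4`. Let `A0 ∈ C` be of maximal cardinality `q ≥ 1`; for `A ∈ C.erase A0` the set `A ∩ A0` is a proper subset of `A0`, so it has at most `q - 1` elements. Let `ε : Fin (q * k) ≃ {i // i ∈ A0} × Fin k` and `b' p = b (ε p).1 (ε p).2`; `Ind b'` (a product over a nonempty set of distinct pairs).
`L' = lam A0 * √(∏_(i ∈ A0) c i) ≠ 0`. For `X : Finset (Fin (q k))` let `W i = {l | (i, l) ∈ ε X}` for `i ∈ A0`, `W i = ∅` for `i ∉ A0`. From `aW W i s^2 = c i (∏_(l ∈ W i) b i l) s'^2` we get `√(∏_(i∈A) aW W i) S = √(∏_(i ∈ A) c i ∏_(i∈A) ∏_(l ∈ W i) b i l) S'` with natural numbers `S, S' > 0` (products of the `s`, `s'`), so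
`(vn lam (aW W) A)^S = y^(S')` with `y = y(A, X') := exp (lam A √(∏_(i∈A) c i ∏_((i,l) ∈ X') b i l))`, `X' = ` the pairs `(i, l)` with `i ∈ A`, `l ∈ W i`. So `vn lam (aW W) A` and `y(A, X')` are algebraic over the field generated by the other. For `A = A0`: `y(A0, X) = th b' L' X`. For `A ∈ C.erase A0`: `X'` is a subset of
`(A ∩ A0) × Fin k`. So all `th b' L' X` are algebraic over `ℚ(y(A, X') : A ∈ C.erase A0, X' ⊆ (A ∩ A0) × Fin k)`, a family with at most `2^j 2^(k(q-1))` members. `Tr (th b' L') t` (TrE), TrU: `t ≤ 2^(j + k(q-1))`. LTL: `2^(qk) ≤ 6 (t + 1) ≤ 12 · 2^(j + k(q-1)) < 2^(j + 4 + k(q-1)) = 2^(qk)`, contradiction. -/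
def S_ECb : Prop :=
  ∀ (j : ℕ) (c : Fin j → ℕ) (b : Fin j → Fin (j + 4) → ℕ) (lam : Finset (Fin j) → ℂ) (C : Finset (Finset (Fin j)))
    (aW : (Fin j → Finset (Fin (j + 4))) → Fin j → ℕ), (∀ i, 0 < c i) → Ind (fun p : Fin j × Fin (j + 4) => b p.1 p.2) → (∀ A, lam A ≠ 0) →
    (∀ W i, ∃ s s' : ℕ, 0 < s ∧ 0 < s' ∧ aW W i * s ^ 2 = c i * (∏ l ∈ W i, b i l) * s' ^ 2) →
    ∃ W, ¬ Crc C (vn lam (aW W))

/-- (EGa, 150 lines) Cauchy-Schwarz (Gowers) for cubes in `V^j`.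
PROOF. `n = card V ≥ 1`. Induction on `card τ`, for all `f` (rename: `τ = Fin M` or `Option τ'`; `Fintype.induction_empty_option`). `τ` empty: equality. Step for `Option τ'` with `d none = i`: for `w0 : V` let `f_(w0) a = f a * f (a + Pi.single i w0)`. The subsets of `Option τ'` are pairs (`S' ⊆ τ'`, contains `none` or not), so the inner product is
`∏_(S') f_(w0)(a + ∑_(s ∈ S') ..)`. So the right side is the average over `w0` of the right side for `f_(w0), τ'`, which is at least `(average of f_(w0))^(2^(card τ'))` by induction, and the average over `w0` of these powers is at least the power of the average (`inner_le_nnorm_mul_nnorm`-free: `Real.pow_arith_mean_le_arith_mean_pow`).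
The average over `w0` and `a` of `f a f (a + single i w0)` is, for fixed `a_l`, `l ≠ i`, the square of the average over `a_i` (substitute `a_i + w0`), and by Cauchy-Schwarz at least the square of the average of `f`. Then `(x^2)^(2^(card τ')) = x^(2^(card τ' + 1))`. -/
def S_EGa : Prop :=
  ∀ (V : Type) [Fintype V] [DecidableEq V] [AddCommGroup V] (j : ℕ) (τ : Type) [Fintype τ] [DecidableEq τ] (d : τ → Fin j)
    (f : (Fin j → V) → ℝ), (∀ a, 0 ≤ f a) →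
    ((∑ a, f a) / (Fintype.card V : ℝ) ^ j) ^ (2 ^ Fintype.card τ) ≤
      (∑ a : Fin j → V, ∑ w : τ → V, ∏ S : Finset τ, f (a + ∑ s ∈ S, Pi.single (d s) (w s))) /
        (Fintype.card V : ℝ) ^ (j + Fintype.card τ)

/-- (EGb, 200 lines, uses EGa) Independent cubes in dense sets of tuples of sets.
PROOF. `n = 2^m`. Identify `Finset (Fin m)` with `V = Fin m → ZMod 2` (indicator functions, `symmDiff` becomes `+`). EGa with `τ = Fin j × Fin k`, `d = Prod.fst`, `f` = the indicator of `𝒜`: the number of `(c, w)` with the whole cube in `𝒜` (all `S ⊆ Fin j × Fin k`; `S` corresponds to `W i = {l | (i, l) ∈ S}`) is at least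
`(𝒜.ncard/n^j)^(2^(jk)) n^(j + jk) > 2^(jk) n^(j + jk - 1)`. For a nonempty `X ⊆ Fin j × Fin k` the number of `w` with `∑_(p∈X) w p = 0` is `n^(jk-1)`. So at most `2^(jk) n^(jk-1) n^j` pairs `(c, w)` have `w` dependent. Hence there is a pair with the cube in `𝒜` and `w` independent. -/
def S_EGb : Prop :=
  ∀ (j k m : ℕ) (𝒜 : Set (Fin j → Finset (Fin m))),
    (2 : ℝ) ^ (j * k) / 2 ^ m < ((𝒜.ncard : ℝ) / 2 ^ (j * m)) ^ (2 ^ (j * k)) →
    ∃ (c : Fin j → Finset (Fin m)) (w : Fin j → Fin k → Finset (Fin m)),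
      (∀ X : Finset (Fin j × Fin k), X.Nonempty → ∃ l : Fin m, Odd (X.filter (fun p => l ∈ w p.1 p.2)).card) ∧
      ∀ W : Fin j → Finset (Fin k), (fun i => symmDiff (c i) (sd (W i) (w i))) ∈ 𝒜

/-- (EPw, 250 lines, uses ECb, EGb, Ci2) POWER SAVING for positive integers.
PROOF. `k = j + 4`, `β = (2^(jk)/2^m)^(1/2^(jk))`. Each bad `x` has a circuit `C` (Ci2), one of at most `2^(2^j)` sets; if there are more than `2^(2^j) β 2^(jm)` bad tuples then for some `C` the set `𝒜` of the `x` with `Crc C (v_x)`, `v_x A = exp (lam A mu a (sd A x))`, has more than `β 2^(jm)` elements. EGb: `c, w`, `x_W i = symmDiff (c i) (sd (W i) (w i)) `.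
Let `c' i = ∏_(l ∈ c i) a l`, `b i l = ∏_(l' ∈ w i l) a l'`, `aW W i = ∏_(l ∈ x_W i) a l` (all `a l > 0`). `Ind b`: the product over `X` of the `b` is `∏_l (a l)^(number of p ∈ X with l ∈ w p)` = (a positive square) times the product of the `a l` over the nonempty set of the `l` with odd exponent; not a square. In the same way
`c' i ∏_(l∈W i) b i l = aW W i s^2` for some `s > 0`. Also `∏_(i∈A) aW W i = (∏_(l ∈ sd A x_W) a l) N_A^2`, `N_A > 0`, so `vn lam (aW W) A = (v_(x_W) A)^(N_A)`. `Crc C (v_(x_W))` implies `Crc C (vn lam (aW W))` (a power of an algebraic element is algebraic, and `v A` is algebraic over `ℚ(v A ^ N)`, `N > 0`). Contradiction to ECb. -/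
def S_EPw : Prop :=
  ∀ (j m : ℕ) (a : Fin m → ℕ) (lam : Finset (Fin j) → ℂ), Ind a → (∀ A, lam A ≠ 0) →
    (Set.ncard {x : Fin j → Finset (Fin m) | BadV a lam x} : ℝ) ≤
      2 ^ (2 ^ j) * ((2 : ℝ) ^ (j * (j + 4)) / 2 ^ m) ^ (1 / (2 : ℝ) ^ (j * (j + 4))) * 2 ^ (j * m)

/-- (EPs, 250 lines, uses EPw, Sdd) POWER SAVING for arbitrary integers.
PROOF. `k = j + 4`. All `a l ≠ 0`. If all `a l > 0`: `rho r X = ± mu |a| X`, so `ths r L X = exp(± L mu X)`; `BadT r L x ↔ BadV |a| (fun _ => L) x` (replacing members of a family by their inverses does not change algebraic independence: each is algebraic over the other). Use EPw. Otherwise let `a l0 < 0`. For `l ≠ l0` let `T l = {l}` if `a l > 0` and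
`T l = {l, l0}` if `a l < 0`, `a' l = ∏_(l'∈T l) a l' > 0`, for the `m - 1` indices `l ≠ l0` (reindex by `Fin (m-1)`). `Ind a'`: the sets `T l` are independent (symmetric differences of a nonempty collection of them are not empty). Every `x : Finset (Fin m)` is uniquely `symmDiff (sum of the T l, l ∈ y) ({l0} or ∅)` with `y ⊆ {l ≠ l0}`. So a tuple `x` corresponds to
a pair (`y : Fin j → Finset (Fin (m-1))`, `E ⊆ Fin j`), and `sd A x` corresponds to `(sd A y, parity of (A ∩ E).card)`. `rho r (sd A x) = ρ_A · q` where `ρ_A = ± mu a' (sd A y) (r l0)^(0 or 1)` and `q` is a nonzero rational number (`rho r X * rho r Y = integer * rho r (symmDiff X Y)`). With `lam_E A = L (r l0)^((A ∩ E).card % 2) ≠ 0`: `ths r L (sd A x)` and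
`exp(lam_E A mu a' (sd A y))` are algebraic over each other, so `BadT r L x ↔ BadV a' lam_E y`. EPw for each of the `2^j` sets `E`: at most `2^j 2^(2^j) (2^(jk)/2^(m-1))^(1/2^(jk)) 2^(j(m-1))` bad tuples, which is at most the bound (`2^(1/2^(jk)) ≤ 2`). -/
def S_EPs : Prop :=
  ∀ (j m : ℕ) (r : Fin m → ℂ) (a : Fin m → ℤ) (L : ℂ), Rts r a → L ≠ 0 →
    (Set.ncard {x : Fin j → Finset (Fin m) | BadT r L x} : ℝ) ≤
      2 * 2 ^ (2 ^ j) * ((2 : ℝ) ^ (j * (j + 4)) / 2 ^ m) ^ (1 / (2 : ℝ) ^ (j * (j + 4))) * 2 ^ (j * m)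

/-- (EFp, 200 lines, uses EPs, FR, FD, FE, FF, FG, FB) POWER SAVING FOR SUBFIELDS.
PROOF. As FinD in `SpecD.lean`. `k = j + 4`, `γ = 1/2^(jk)`. `N` from FE. FR: `r, a`. `𝒦` = the set of all `K ≤ F` of degree `2^j`, `𝒦'` the bad ones; finite. For `m ≥ j + 1`: `N |𝒦| ≥ 2^(jm)/2` (FF), `N |𝒦'| ≤ #bad tuples ≤ 2 · 2^(2^j) (2^(jk)/2^m)^γ 2^(jm)` (EPs), so `|𝒦'| ≤ 4 · 2^(2^j) (2^(jk)/2^m)^γ |𝒦| ≤ 4 · 2^(2^j) · 2 · 2^(-γ m) |𝒦|`
(`(2^(jk))^γ = 2^(jk/2^(jk)) ≤ 2`). For `m ≤ j`: `2^(-γ m) ≥ 1/2` and `|𝒦'| ≤ |𝒦|`. The constant `2^(2^j + 3)` works. -/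
def S_EFp : Prop :=
  ∀ (j m : ℕ) (S : Set ℂ), (∀ x ∈ S, ∃ q : ℚ, x ^ 2 = (q : ℂ)) →
    Module.finrank ℚ (IntermediateField.adjoin ℚ S) = 2 ^ m → ∀ L : ℂ, L ≠ 0 → IsAlgebraic ℚ (Complex.exp L) →
    ({K : IntermediateField ℚ ℂ | K ≤ IntermediateField.adjoin ℚ S ∧ Module.finrank ℚ K = 2 ^ j}.Finite) ∧
    (Set.ncard {K : IntermediateField ℚ ℂ | K ≤ IntermediateField.adjoin ℚ S ∧ Module.finrank ℚ K = 2 ^ j ∧ BadK (2 ^ j) L K} : ℝ) ≤
      2 ^ (2 ^ j + 3) * (2 : ℝ) ^ (-((m : ℝ) / 2 ^ (j * (j + 4)))) *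
        Set.ncard {K : IntermediateField ℚ ℂ | K ≤ IntermediateField.adjoin ℚ S ∧ Module.finrank ℚ K = 2 ^ j}

/-! ### Natural density -/

/-- (EPr, 200 lines) Clusters of primes.
PROOF. `I_i = [(1+η)^i, (1+η)^(i+1))`, `P_i` = the primes `> Y0` in `I_i` (finite). `∑_(i) ∑_(q∈P_i) 1/q` diverges (`Nat.Primes.not_summable_one_div`). The sum over the `i` with fewer than `K0` elements in `P_i` is at most `∑_i K0 (1+η)^(-i) < ∞`. So the sum over the `i` with at least `K0` elements diverges. For each `i`: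
`∑_(q∈P_i) 1/q ≤ (η (1+η)^i + 1)/(1+η)^i ≤ 2` (number of integers in `I_i`). Take the rich `i` one after the other until the sum is at least `σ0`; then it is at most `σ0 + 2`. `z = (1+η)^i ≥ 1`. -/
def S_EPr : Prop :=
  ∀ (η σ0 : ℝ) (K0 Y0 : ℕ), 0 < η → η ≤ 1 → 0 ≤ σ0 → ∃ (r : ℕ) (z : Fin r → ℝ) (P : Fin r → Finset ℕ),
    (∀ i, 1 ≤ z i ∧ K0 ≤ (P i).card ∧ ∀ q ∈ P i, q.Prime ∧ Y0 < q ∧ z i ≤ q ∧ (q : ℝ) ≤ (1 + η) * z i) ∧
    (∀ i i', i ≠ i' → Disjoint (P i) (P i')) ∧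
    σ0 ≤ ∑ i, ∑ q ∈ P i, (1 : ℝ) / q ∧ ∑ i, ∑ q ∈ P i, (1 : ℝ) / q ≤ σ0 + 2

/-- (ESv, 80 lines) Integers without prime factors in `Ps`.
PROOF. `Q = ∏ q`. In every interval of length `Q` there are `φ(Q)` integers coprime to `Q` (`Nat.filter_coprime_Ico_eq_totient`), so at most `(X/Q + 1) φ(Q) ≤ X φ(Q)/Q + Q` in `[1, X]`, `φ(Q)/Q = ∏ (1 - 1/q) ≤ exp(-∑ 1/q)` (`Real.add_one_le_exp`). -/
def S_ESv : Prop :=
  ∀ (Ps : Finset ℕ), (∀ q ∈ Ps, q.Prime) → ∀ X : ℕ,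
    (((Finset.Icc 1 X).filter (fun n => ∀ q ∈ Ps, ¬ q ∣ n)).card : ℝ) ≤
      X * Real.exp (-∑ q ∈ Ps, (1 : ℝ) / q) + ((∏ q ∈ Ps, q : ℕ) : ℝ)

/-- (EOn, 250 lines, uses EPr, ESv) ONE STEP. The set `B` is given as a predicate on `ℕ × Ω`.
PROOF. `σ0 = log (4/δ) > 0`, `β = δ/(8(σ0+2))`, `η = β/2`, `K0 = ⌈2/β^2⌉ + 1`. EPr: `r, z, P`; `𝒫 = ⋃ P_i`, `σ = ∑ 1/q ∈ [σ0, σ0+2]`, `Q = ∏_(q∈𝒫) q`, `Y` = a natural number `≥ 8 z_i + 8` for all `i` and `≥` all `q ∈ 𝒫`. `δ' = β^2/2`. Let `X ≥ X1` (`X1 ≥ 4Q/δ`, `≥ Y`, `≥ 2 z_i/β`). For `q ∈ 𝒫` let `N_q` = the number of `(n, ω)`, `1 ≤ n`, `q n ≤ X`,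
`B (q n) ω`. By ESv the number of `(n, ω)` in `B`, `n ≤ X`, such that some `q ∈ 𝒫` divides `n` is at least `δ X |Ω| - (X δ/4 + Q)|Ω| ≥ (δ/2) X |Ω|`, and it is at most `∑_(q∈𝒫) N_q`. With `σ_i = ∑_(q∈P_i) 1/q`, `∑ σ_i = σ > 0`, there is `i` with `∑_(q ∈ P_i) N_q ≥ (δ/2) X |Ω| σ_i/σ ≥ (δ/(2(σ0+2))) X |Ω| |P_i|/(2 z_i)` (`q ≤ 2 z_i`) `= 2β X |Ω| |P_i|/z_i`.
Let `M = ⌊X/((1+η) z_i)⌋`: `q M ≤ X` for all `q ∈ P_i`, `M ≤ X/z_i`, `M ≥ X/(4 z_i) ≥ X/Y`, `M ≥ 1`. The `n` with `M < n ≤ X/q` are at most `X/z_i - X/((1+η)z_i) + 1 ≤ η X/z_i + 1 ≤ β X/z_i` in number (`X ≥ 2 z_i/β`). So `∑_(q∈P_i) #{(n, ω) : 1 ≤ n ≤ M, B (q n) ω} ≥ β X |Ω| |P_i|/z_i ≥ β M |Ω| |P_i|`. Let `c(n, ω)` = the number of `q ∈ P_i` with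
`B (q n) ω`: `∑ c ≥ β |P_i| M |Ω|`, so by Cauchy-Schwarz `∑ c^2 ≥ β^2 |P_i|^2 M |Ω|`. `∑ c^2 = ∑_(q,q') #{(n,ω) : B (q n) ω ∧ B (q' n) ω}`, the diagonal contributes at most `|P_i| M |Ω| ≤ (β^2/2) |P_i|^2 M |Ω|`. So some pair `q ≠ q'` has at least `(β^2/2) M |Ω|`. -/
def S_EOn : Prop :=
  ∀ (δ : ℝ) (Y0 : ℕ), 0 < δ → δ ≤ 1 → ∃ (Y X1 : ℕ) (δ' : ℝ), 1 ≤ Y ∧ 0 < δ' ∧ δ' ≤ 1 ∧ ∀ X : ℕ, X1 ≤ X →
    ∀ (Ω : Type) [Fintype Ω] (B : ℕ → Ω → Prop),
    δ * X * Fintype.card Ω ≤ (Set.ncard {p : ℕ × Ω | 1 ≤ p.1 ∧ p.1 ≤ X ∧ B p.1 p.2} : ℝ) →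
    0 < Fintype.card Ω →
    ∃ q q' M : ℕ, q.Prime ∧ q'.Prime ∧ q ≠ q' ∧ Y0 < q ∧ Y0 < q' ∧ q ≤ Y ∧ q' ≤ Y ∧ X ≤ Y * M ∧ q * M ≤ X ∧ q' * M ≤ X ∧
      δ' * M * Fintype.card Ω ≤ (Set.ncard {p : ℕ × Ω | 1 ≤ p.1 ∧ p.1 ≤ M ∧ B (q * p.1) p.2 ∧ B (q' * p.1) p.2} : ℝ)

/-- (EIt, 250 lines, uses EOn) CUBES OF PRIMES in dense sets of the box.
PROOF. GENERAL CLAIM by induction on the list `D` of elements of `Fin j` (directions), for all `δ, Y0`: there is `X0` such that for all `X : Fin j → ℕ` with all `X i ≥ X0` and all predicates `B` on `Fin j → ℕ` with at least `δ ∏ X i` points `a`, `1 ≤ a i ≤ X i`, in `B`, there are `c : Fin j → ℕ`, `c i ≥ 1`, and for every position `s` of the list two primes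
`q_s, q'_s > Y0`, all `2 |D|` primes distinct, such that for all sets `S` of positions the point `i ↦ c i ∏_(s : D_s = i) (q'_s if s ∈ S, q_s otherwise)` is in `B`. Empty list: a point of `B` (`X0 = 1`, the number of points is positive). `D = i0 :: D'`: `Y, X1, δ'` from EOn for `(δ, Y0)`; `X0'` from the claim for `(D', δ', max Y Y0)`; `X0 = max (X1, Y X0', 1)`.
Given `X, B`: EOn with `Ω = ` the functions `(i : {i // i ≠ i0}) → Fin (X i)` (or `Π i ≠ i0, Icc 1 (X i)`), coordinate `n = a i0`: `q, q', M`, `M ≥ X i0 / Y ≥ X0'`. `X' = ` `X` with `X i0` replaced by `M`, `B' a = B (a with a i0 replaced by q a i0) ∧ B (.. q' a i0)`: at least `δ' ∏ X' i` points. The claim for `D'`: `c` and primes `> Y ≥ q, q'`. With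
`q_0 = q`, `q'_0 = q'` this proves the claim for `D`. Apply it to the list which contains each `i : Fin j` exactly `k` times (`List.flatMap`/`List.ofFn` of `Prod.fst` over `Fin j × Fin k`), `Y0 = 1`, `X i = X`. (`j = 0` or `k = 0` are trivial.) -/
def S_EIt : Prop :=
  ∀ (j k : ℕ) (δ : ℝ), 0 < δ → δ ≤ 1 → ∃ X0 : ℕ, ∀ X : ℕ, X0 ≤ X → ∀ B : (Fin j → ℕ) → Prop,
    δ * (X : ℝ) ^ j ≤ (Set.ncard {a : Fin j → ℕ | (∀ i, 1 ≤ a i ∧ a i ≤ X) ∧ B a} : ℝ) →
    ∃ (c : Fin j → ℕ) (q : Bool → Fin j → Fin k → ℕ), (∀ i, 1 ≤ c i) ∧ (∀ s i l, (q s i l).Prime) ∧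
      Function.Injective (fun p : Bool × Fin j × Fin k => q p.1 p.2.1 p.2.2) ∧
      ∀ W : Fin j → Finset (Fin k), B (fun i => c i * ∏ l, q (decide (l ∈ W i)) i l)

/-- (ENt, 150 lines, uses ECb, EIt, Ci2) NATURAL DENSITY of good tuples, with arbitrary multipliers.
PROOF. `k = j + 4`, `δ = ε/2^(2^j)` (we may assume `ε ≤ 1`). `X0` from EIt. Suppose more than `ε X^j` tuples in the box are bad. Each has a circuit (Ci2), so some `C` belongs to at least `δ X^j` of them: `B a = Crc C (vn lam a)`. EIt: `c, q`. Let `c' i = c i ∏_l q false i l`, `b i l = q false i l * q true i l`,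
`aW W i = c i ∏_l q (decide (l ∈ W i)) i l`. `aW W i (∏_(l∈W i) q false i l)^2 = c' i ∏_(l ∈ W i) b i l`. `Ind b`: a product of distinct primes over a nonempty set is not a square. So ECb gives `W` with `¬ Crc C (vn lam (aW W))`, contradiction. -/
def S_ENt : Prop :=
  ∀ (j : ℕ) (ε : ℝ), 0 < ε → ∃ X0 : ℕ, ∀ X : ℕ, X0 ≤ X → ∀ lam : Finset (Fin j) → ℂ, (∀ A, lam A ≠ 0) →
    (Set.ncard {a : Fin j → ℕ | (∀ i, 1 ≤ a i ∧ a i ≤ X) ∧ BadN lam a} : ℝ) ≤ ε * (X : ℝ) ^ j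

/-- (ESq, 150 lines) Most tuples are independent modulo squares.
PROOF. For `c ≥ 1` the number of `n ∈ [1, X]` with `c n` a square is at most `√X`: write `c = s t^2` with `s` squarefree (`Nat.sq_mul_squarefree`); `c n` is a square iff `s n` is, then `s ∣ n` and `n = s u^2`, `u ≤ √X`. If `a` is a tuple in the box and `∏_(i∈A) a i` is a square for some nonempty `A`, `i0 ∈ A`, then `a i0` is one of at most `√X` numbers for
given other coordinates (with `c = ∏_(i ∈ A, i ≠ i0) a i`). So there are at most `2^j j X^(j-1) √X ≤ ε X^j` such tuples for large `X`. -/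
def S_ESq : Prop :=
  ∀ (j : ℕ) (ε : ℝ), 0 < ε → ∃ X0 : ℕ, ∀ X : ℕ, X0 ≤ X →
    (Set.ncard {a : Fin j → ℕ | (∀ i, 1 ≤ a i ∧ a i ≤ X) ∧ ∃ A : Finset (Fin j), A.Nonempty ∧ IsSquare (∏ i ∈ A, a i)} : ℝ) ≤
      ε * (X : ℝ) ^ j

/-- The square root of `a` (`s = false`) or of `-a` (`s = true`). -/
noncomputable def rt (s : Bool) (a : ℕ) : ℂ := (if s then Complex.I else 1) * ((Real.sqrt (a : ℝ) : ℝ) : ℂ)

/-- The field `ℚ(√(±a 1), …, √(±a j))`. -/
noncomputable def Ks {j : ℕ} (s : Fin j → Bool) (a : Fin j → ℕ) : IntermediateField ℚ ℂ :=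
  IntermediateField.adjoin ℚ (Set.range fun i => rt (s i) (a i))

/-- (EFn, 200 lines, uses ENt, ESq, FB, FG, Sdd) NATURAL DENSITY FOR FIELDS.
PROOF. `ε' = ε/(2^j + 1)`. Let `a` be in the box and not one of the tuples of ESq, and `s : Fin j → Bool`. `r i = rt (s i) (a i)`, `r i ^ 2 = a0 i := ± a i`. `Rts r a0`: if `∏_(i∈A) a0 i` is a square in `ℤ` (nonzero, so positive) then it equals `∏_(i∈A) a i`, which is not a square in `ℕ`. Let `x i = {i}`, `sd A x = A`, `Fre x`, `KX r x = Ks s a`; FB: the degree is `2^j`.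
`lam A = L ∏_(i∈A) (if s i then I else 1) ≠ 0`; `ths r L (sd A x) = exp (L ∏_(i∈A) r i) = vn lam a A` (`√` of a product of naturals is the product of the `√`). So `BadT r L x ↔ BadN lam a`. If `¬ BadN lam a` then FG gives the statement for all `β`. The exceptional set is contained in the set of ESq and the `2^j` sets of ENt (for the `lam` of the different `s`). -/
def S_EFn : Prop :=
  ∀ (j : ℕ) (ε : ℝ), 0 < ε → ∃ X0 : ℕ, ∀ X : ℕ, X0 ≤ X → ∀ L : ℂ, L ≠ 0 → IsAlgebraic ℚ (Complex.exp L) →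
    (Set.ncard {a : Fin j → ℕ | (∀ i, 1 ≤ a i ∧ a i ≤ X) ∧
      ¬ ∀ s : Fin j → Bool, Module.finrank ℚ (Ks s a) = 2 ^ j ∧ ¬ BadK (2 ^ j) L (Ks s a)} : ℝ) ≤ ε * (X : ℝ) ^ j

end Pool.Agent.SMQ
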