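import Pool.Agent.Lib.MP_452a87_nt.SpecK

/-!
# Part A: algebra (specializations, generic Noether normalisation, the algebraic proposition)

The task `X` is to write `A/X.lean` with `theorem pX (h1 : S_..) ... : S_X`; statements used are hypotheses.

Variables: `BU ι r = (Fin r × ι) ⊕ Fin r` (the `U_(i,j)` and the `T_i`), `Option (BU ι r)`: one more variable `Z` (`none`). For `u : Fin r × ι → Ω`,
`t : Fin r → Ω`, `z : Ω` the value is `aeval (ev z (Sum.elim u t))`. `e0 E` is `E` with `Z = 0`.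
`sep ι ρ` makes `T_0` the variable of a univariate polynomial (see `eval_sep`).
-/

set_option autoImplicit false

namespace Pool.Agent.SMQ

open MvPolynomial

/-- (TrE, 50 lines; statement `S_TrE` in `SpecR.lean`) PROOF. A maximal algebraically independent subfamily of the coordinates (`ι` finite), e.g. `exists_isTranscendenceBasis_subset`, or: choose a subset `s` of `ι` of maximal
cardinality with `fun i : s => x i` algebraically independent (the empty one is), `Fin r ≃ s`; by maximality every other `x i` is algebraic over `ℚ(x '' s)` (adding a transcendental element keeps independence). -/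
def S_TrEhelp : Prop := True

/-- (TrU, 80 lines; statement `S_TrU` in `SpecR.lean`) PROOF. `x ∘ b` is algebraically independent over `ℚ` and its `r` members are algebraic over `ℚ(range z)`. Let `E` be the algebraic closure of `ℚ(range z)` in `Ω` (intermediate field): its transcendence degree is
`≤ card κ` (`trdeg_le_cardinalMk`), and an algebraically independent family in `E` has at most `trdeg` members (`AlgebraicIndependent.lift_cardinalMk_le_trdeg`). -/
def S_TrUhelp : Prop := True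

/-- (TrI, 80 lines) An algebraically independent family in the algebraic closure of `ℚ(x)` has at most `r` members; if it has `r` members then `x` is algebraic over it.
PROOF. As TrU: `x` is algebraic over `ℚ(x ∘ b)`, so `z` is algebraic over `ℚ(x ∘ b)`, `trdeg ≤ r`. If `e = r` then `z` is a transcendence basis of the algebraic closure (`isTranscendenceBasis_of_lift_trdeg_le_of_finite` or similar), so the `x i` are algebraic over `ℚ(z)`. -/
def S_TrI : Prop :=
  ∀ (ι Ω : Type) [Field Ω] [CharZero Ω] (x : ι → Ω) (r e : ℕ) (z : Fin e → Ω), Tr x r → AlgebraicIndependent ℚ z →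
    (∀ i, IsAlgebraic (IntermediateField.adjoin ℚ (Set.range x)) (z i)) →
    e ≤ r ∧ (e = r → ∀ i, IsAlgebraic (IntermediateField.adjoin ℚ (Set.range z)) (x i))

/-- (A2, 120 lines, uses TrI) A proper specialization drops the transcendence degree.
PROOF. Let `b' : Fin r' → ι` be a transcendence basis for `x'`. Then `x ∘ b'` is algebraically independent over `ℚ`: a relation over `ℚ`, cleared to `ℤ`, for `x ∘ b'` specializes to `x' ∘ b'` (`Spc.comp`). So `r' ≤ r` (TrI). Suppose `r' = r`. Then `w = aeval x P ≠ 0` is algebraic over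
`ℚ(x ∘ b')` (TrI): there is a relation `∑_(i ≤ k) q_i(x ∘ b') w^i = 0` with `q_i ∈ ℤ[Y_1, …, Y_r]`, not all `q_i(x ∘ b')` zero; dividing by a power of `w ≠ 0`, `q_0(x ∘ b') ≠ 0`, so `q_0 ≠ 0`. The polynomial
`∑ q_i(X ∘ b') P^i` over `ℤ` vanishes at `x`, so at `x'`, where `P(x') = 0`: `q_0(x' ∘ b') = 0`, contradiction to the independence of `x' ∘ b'`. -/
def S_A2 : Prop :=
  ∀ (ι Ω Ω' : Type) [Finite ι] [Field Ω] [CharZero Ω] [Field Ω'] [CharZero Ω'] (x : ι → Ω) (x' : ι → Ω') (r r' : ℕ)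
    (P : MvPolynomial ι ℤ), Spc x x' → Tr x r → Tr x' r' → aeval x P ≠ 0 → aeval x' P = 0 → r' < r

/-- (A1v, 250 lines, uses TrI, TrU) GENERIC NOETHER NORMALISATION, integrality.
PROOF. Let `k = ℚ(range u)`, `R = k[ψ_1, …, ψ_ρ]`, `ψ_i = psi u x i`. Suppose some `x j` is not integral over `R`. By `iInf_valuationSubring_superset` (Mathlib, `RingTheory/Valuation/LocalSubring`) there is a valuation subring `V` of `Ω` containing
`R` (so `k ⊆ V` and all `ψ_i ∈ V`) with some `x j ∉ V`. Choose `j0` with maximal valuation among the `x j`: `x j / x j0 ∈ V` for all `j`, `x j0 ∉ V` (`V.valuation`, `Finset.exists_max_image`). So `1/x j0` is in the maximal ideal `𝔪` of `V`. Let bars denote residues mod `𝔪` (residue field `𝔽`,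
of characteristic zero as `ℚ ⊆ V`), `η j` = the residue of `x j / x j0`, `η j0 = 1`.
(a) If `z_1, …, z_e` are among the `x j / x j0` and their residues are algebraically independent over `ℚ`, then `z_1, …, z_e, 1/x j0` are algebraically independent over `ℚ`: let `P(z, 1/x j0) = 0`, `P = ∑ P_i(Z) T^i ≠ 0`, dividing by a power of `1/x j0 ≠ 0` we may assume `P_0 ≠ 0`;
mod `𝔪`: `P_0(residues) = 0`, contradiction. They are in `ℚ(x)`, so `e + 1 ≤ ρ` (TrI, `∃ r ≤ ρ, Tr x r`). Hence the transcendence degree of `ℚ(η)` is `≤ ρ - 1` (a transcendence basis among the `η j`), `ρ ≥ 1`.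
(b) `ψ_i / x j0 = ∑_j u(i,j) x j/x j0 ∈ 𝔪`, so `∑_j ū(i,j) η j = 0`, i.e. `ū(i,j0) = - ∑_(j ≠ j0) ū(i,j) η j` for all `i`. The residue map is injective on the field `k`, so the `ρ n` elements `ū(i,j)` are algebraically independent over `ℚ`. But they are all in
`ℚ(ū(i,j) (j ≠ j0), η)`, of transcendence degree `≤ ρ(n-1) + ρ - 1 < ρ n`, contradiction (TrU/TrI or `trdeg` lemmas). -/
def S_A1v : Prop :=
  ∀ (ι Ω : Type) [Fintype ι] [DecidableEq ι] [Field Ω] [CharZero Ω] (ρ : ℕ) (x : ι → Ω) (u : Fin ρ × ι → Ω),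
    AlgebraicIndependent ℚ u → (∃ r ≤ ρ, Tr x r) →
    ∀ j, IsIntegral (Algebra.adjoin (IntermediateField.adjoin ℚ (Set.range u)) (Set.range (psi u x))) (x j)

/-- (Clr, 150 lines) Clearing denominators: from integrality over `ℚ(u)[ψ]` to a relation over `ℤ[U, T]`.
PROOF. Let `k = ℚ(range u)`. `y` is a root of a monic polynomial of degree `N` over `k[ψ]`; each coefficient is a polynomial in `ψ` (`Algebra.adjoin_range_eq_range_aeval`) with coefficients in `k`; every element of `k` is a quotient `a(u)/l(u)`, `a, l ∈ ℤ[U]`, `l(u) ≠ 0`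
(`IntermediateField.mem_adjoin_range_iff`, clear rational coefficients); a common denominator `l(u) ≠ 0` for all of them, multiply by it. We get `g_i ∈ ℤ[U, T]`, `i < N`, with `l(u) y^N + ∑_(i<N) g_i(u, ψ) y^i = 0`. Put `P = C (rename Sum.inl l) X^N + ∑ C (g_i) X^i`; `l ≠ 0`. -/
def S_Clr : Prop :=
  ∀ (Ω : Type) [Field Ω] [CharZero Ω] (τ : Type) (ρ : ℕ) (u : τ → Ω) (ψ : Fin ρ → Ω) (y : Ω),
    IsIntegral (Algebra.adjoin (IntermediateField.adjoin ℚ (Set.range u)) (Set.range ψ)) y →
    ∃ (P : Polynomial (MvPolynomial (τ ⊕ Fin ρ) ℤ)) (l : MvPolynomial τ ℤ), P.leadingCoeff = rename Sum.inl l ∧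
      aeval u l ≠ 0 ∧ Polynomial.eval₂ (aeval (R := ℤ) (Sum.elim u ψ)).toRingHom y P = 0

/-- (Hom, 100 lines) Extension of homomorphisms along integral extensions.
PROOF. Let `𝔭 = ker φ`, a prime ideal of `A`. Lying over (`Ideal.exists_ideal_over_prime_of_isIntegral`): a prime `𝔮` of `B` with `𝔮 ∩ A = 𝔭` (the kernel of `A → B` is `0 ⊆ 𝔭`). `B/𝔮` is a domain integral over `A/𝔭 ⊆ F`. Let `K = Frac(A/𝔭) → F`, `L = Frac(B/𝔮)`,
algebraic over `K`; `F` is algebraically closed, so `K → F` extends to `L → F` (`IsAlgClosed.lift`). Compose `B → B/𝔮 → L → F`. -/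
def S_Hom : Prop :=
  ∀ (A B F : Type) [CommRing A] [CommRing B] [Algebra A B] [Field F] [IsAlgClosed F], Algebra.IsIntegral A B →
    Function.Injective (algebraMap A B) → ∀ φ : A →+* F, ∃ Φ : B →+* F, Φ.comp (algebraMap A B) = φ

/-- (Ext, 200 lines, uses Hom) Extension of specializations.
PROOF. Let `A = (aeval x).range ⊆ Ω` (subring), `φ : A → F`, `aeval x P ↦ aeval x' P` (well defined by `Spc x x'`). For each `j` let `P_j` be as given, `N_j` its degree, `c_j = aeval x (P_j.leadingCoeff)`, `c'_j = aeval x' (P_j.leadingCoeff) ≠ 0` (so `c_j ≠ 0`). `N_j ≥ 1` may be assumed (if `N_j = 0`: `c_j = 0`,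
impossible). `y_j = c_j z_j` is integral over `A` (multiply the equation by `c_j^(N_j - 1)`). `B = A[y_j : j] ⊆ Ω` is integral over `A`. Hom: `Φ : B → F` extending `φ`. Put `z'_j = Φ(y_j)/c'_j`. Let `P ∈ ℤ[X, Z]` with `P(x, z) = 0`. Let `N` be large and `c = ∏ c_j` over the finitely many `j`
in `P`: `c^N P(x, z) = Q(x, y)` for a polynomial `Q` over `ℤ` (homogenise: each `Z_j^e` becomes `y_j^e c_j^(N-e)`); precisely: there is one polynomial identity, valid in every field, `(∏ c_j)^N P(X, Z) = Q(X, (c_j Z_j)_j)` in `ℤ[X, Z]` where `c_j ∈ ℤ[X]` is the leading coefficient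
(show by induction on `P` that such `N, Q` exist). So `Q(x, y) = 0`, apply `Φ`: `Q(x', Φ y) = 0`, and the same identity at `(x', z')` gives `(∏ c'_j)^N P(x', z') = 0`. -/
def S_Ext : Prop :=
  ∀ (ι κ Ω F : Type) [Finite κ] [Field Ω] [Field F] [IsAlgClosed F] (x : ι → Ω) (x' : ι → F) (z : κ → Ω), Spc x x' →
    (∀ j : κ, ∃ P : Polynomial (MvPolynomial ι ℤ), aeval x' P.leadingCoeff ≠ 0 ∧
      Polynomial.eval₂ (aeval (R := ℤ) x).toRingHom (z j) P = 0) →
    ∃ z' : κ → F, Spc (Sum.elim x z) (Sum.elim x' z')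

/-- (Gau, 150 lines) Gauss' lemma: the kernel of a generic point of a hypersurface is principal.
PROOF. `R = MvPolynomial ι ℤ` is a UFD, `optionEquivLeft : MvPolynomial (Option ι) ℤ ≃ R[Z]` (`eval_opt`). `R → Ω`, `aeval x`, is injective (`AlgebraicIndependent ℚ x` implies over `ℤ`), so it extends to `K = FractionRing R → Ω`. `E' = optionEquivLeft E` is irreducible in `R[Z]`, and its degree is `≥ 1`: otherwise `E' = C e`,
`aeval x e = 0`, `e = 0`. So `E'` is primitive (an irreducible of positive degree in `R[Z]`; a common factor of the coefficients would be a unit) and irreducible in `K[Z]` (`Polynomial.IsPrimitive.irreducible_iff_irreducible_map_fraction_map`). `G' = optionEquivLeft G`: both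
`E'` and `G'` vanish at `z ∈ Ω`, so they are not coprime in `K[Z]`, so `E' ∣ G'` in `K[Z]`, and by Gauss in `R[Z]` (`G' = content · primitive part`, `Polynomial.IsPrimitive.dvd_of_fraction_map_dvd_fraction_map`; `NormalizedGCDMonoid` from the UFD structure). -/
def S_Gau : Prop :=
  ∀ (ι Ω : Type) [Field Ω] [CharZero Ω] (x : ι → Ω) (z : Ω) (E G : MvPolynomial (Option ι) ℤ), AlgebraicIndependent ℚ x →
    Irreducible E → aeval (ev z x) E = 0 → aeval (ev z x) G = 0 → E ∣ G

/-- (P1, 150 lines, uses A1v, TrI) `(u, ψ)` is algebraically independent.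
PROOF. Let `b : Fin r → ι` be a transcendence basis for `ξ`. `u` is algebraically independent over `ℚ(ξ)`, `ξ ∘ b` over `ℚ`, so `Sum.elim u (ξ ∘ b)` is algebraically independent over `ℚ` (`AlgebraicIndependent.sumElim..` transitivity lemmas), and `u` alone too. By A1v (with `ρ = r`) all `ξ j` are integral, so algebraic, over
`ℚ(u, ψ)`, `ψ = psi u ξ`. So `Sum.elim u (ξ ∘ b)`, with `r n + r` members (`n = card ι`), is algebraic over `ℚ(Sum.elim u ψ)`, also a family with `r n + r` members: its transcendence degree is `r n + r`, so `Sum.elim u ψ` is algebraically independent (Tr of the point `Sum.elim u ψ` is some `e ≤ rn + r`; by TrI `rn + r ≤ e`;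
a family of `e` members with transcendence degree `e` is independent: a basis `b' : Fin e → BU ι r` as in `Tr` is injective, so bijective). -/
def S_P1 : Prop :=
  ∀ (ι : Type) [Fintype ι] [DecidableEq ι] (r : ℕ) (ξ : ι → ℂ) (u : Fin r × ι → ℂ), Tr ξ r → GenOver u ξ →
    AlgebraicIndependent ℚ u ∧ AlgebraicIndependent ℚ (Sum.elim u (psi u ξ))

/-- (P4, 150 lines, uses P1, A1v, Clr, Gau, Ext, Gnx) Points over a zero of `e0 E`.
PROOF. Let `v : Fin r × ι → ℂ` be generic over `ξ` (Gnx), `x = Sum.elim v (psi v ξ)`, `w = aeval ξ f`. By P1 `x` is algebraically independent. `x1 = ev w x : Option (BU ι r) → ℂ`, `x1' = ev 0 (Sum.elim u T) : Option (BU ι r) → F`. `Spc x1 x1'`: if `aeval x1 G = 0` then `E ∣ G` (Gau, since `aeval x1 E = 0`), and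
`aeval x1' E = 0`. Each `ξ j` satisfies by A1v and Clr a relation over `ℤ[U, T]` with leading coefficient `rename Sum.inl l`, `l ≠ 0` (`aeval v l ≠ 0`); regarded over `MvPolynomial (Option (BU ι r)) ℤ` (`rename some`) the leading coefficient has the value `aeval u l ≠ 0` at `x1'`, since
`u` is algebraically independent over `ℚ`. Ext (`κ = ι`, `z = ξ`): `ξ' : ι → F` with `Spc (Sum.elim x1 ξ) (Sum.elim x1' ξ')`. Restrict to the variables of `ξ` (`Spc.comp Sum.inr`): `Spc ξ ξ'`. The polynomial `f(X) - Z` vanishes at `(x1, ξ)`, so `aeval ξ' f = 0`. The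
polynomials `T_i - ∑_j U_(i,j) X_j` vanish at `(x1, ξ)`, so `T i = psi u ξ' i`. -/
def S_P4 : Prop :=
  ∀ (ι F : Type) [Fintype ι] [DecidableEq ι] [Field F] [CharZero F] [IsAlgClosed F] (r : ℕ) (ξ : ι → ℂ) (f : MvPolynomial ι ℤ)
    (E : MvPolynomial (Option (BU ι r)) ℤ), Tr ξ r → Irreducible E →
    (∀ u : Fin r × ι → ℂ, aeval (ev (aeval ξ f) (Sum.elim u (psi u ξ))) E = 0) →
    ∀ (u : Fin r × ι → F) (T : Fin r → F), AlgebraicIndependent ℚ u → aeval (Sum.elim u T) (e0 E) = 0 →
    ∃ ξ' : ι → F, Spc ξ ξ' ∧ aeval ξ' f = 0 ∧ psi u ξ' = T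

/-- (Gnx, 100 lines) Existence of generic families near a given one.
PROOF. Let `K0 = ℚ(range ξ)`, a countable field (`ι` finite; or: `IntermediateField.adjoin ℚ` of a countable set is countable; cardinality `≤ ℵ₀`). Enumerate `τ` as `Fin e`; choose `u_1, u_2, …` one after the other: the algebraic closure of the countable field `K0(u_1, …, u_(i-1))` in `ℂ` is countable, and the disc of radius `ε` about
`v i` is uncountable (`Cardinal` of a ball is the continuum, or `Set.Countable.dense_compl`), so there is `u_i` in the disc, transcendental over that field. -/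
def S_Gnx : Prop :=
  ∀ (ι τ : Type) [Finite ι] [Finite τ] (ξ : ι → ℂ) (v : τ → ℂ) (ε : ℝ), 0 < ε →
    ∃ u : τ → ℂ, (∀ p, ‖u p - v p‖ < ε) ∧ GenOver u ξ

/-- (P5, 150 lines, uses P4, A2, A1v, Clr, TrE) The leading coefficient in `T_0` of the factors of `e0 E` is free of `T`.
PROOF. Let `w = aeval ξ f ≠ 0` and `r = ρ + 1`. Let `F` be the algebraic closure of the fraction field of the domain `MvPolynomial (BU ι (ρ+1)) ℤ ⧸ (π)` (`π` irreducible in a UFD, so prime), `(u, T)` the image of the variables. `F` has characteristic zero and `u` is algebraically independent over `ℚ`: a nonzero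
`l ∈ ℤ[U]` with `l(u) = 0` would be divisible by `π` (as `rename Sum.inl l`), and divisors in `ℤ[U,T]` of a nonzero polynomial free of `T` are free of `T` (degrees), so `π` would be in the range of `rename Sum.inl`, excluded (in particular no nonzero integer is divisible by `π`: characteristic zero). Since `π ∣ e0 E`:
`e0 E` vanishes at `(u, T)`. P4 with this `F`: `ξ' : ι → F`, `Spc ξ ξ'`, `aeval ξ' f = 0`, `psi u ξ' = T`. By A2 the transcendence degree of `ξ'` (TrE) is `≤ ρ`. A1v for `ξ'` and the rows `1, …, ρ` (`lower u`): every `ξ' j` is integral over `ℚ(lower u)[T_1, …, T_ρ]` (`psi (lower u) ξ' i = T i.succ`), so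
`T_0 = ∑ u(0,j) ξ' j` is integral over `ℚ(u)[T_1, …, T_ρ]`. Clr with all of `u`, `ψ i = T i.succ`, `y = T_0`: `P` over `MvPolynomial (BV ι ρ) ℤ` with leading coefficient `rename Sum.inl l`, `l ≠ 0`, with `P(u, T_1, …, T_ρ; T_0) = 0`. So `g = (sep ι ρ).symm P ∈ ℤ[U,T]` vanishes at `(u, T)` (`eval_sep`), so `π ∣ g`,
`sep π ∣ P` and the leading coefficient of `sep π` divides `rename Sum.inl l ≠ 0`; so it is free of `T`, i.e. in the range of `rename Sum.inl`. -/
def S_P5 : Prop :=
  ∀ (ι : Type) [Fintype ι] [DecidableEq ι] (ρ : ℕ) (ξ : ι → ℂ) (f : MvPolynomial ι ℤ) (E : MvPolynomial (Option (BU ι (ρ + 1))) ℤ)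
    (π : MvPolynomial (BU ι (ρ + 1)) ℤ), Tr ξ (ρ + 1) → aeval ξ f ≠ 0 → Irreducible E →
    (∀ u : Fin (ρ + 1) × ι → ℂ, aeval (ev (aeval ξ f) (Sum.elim u (psi u ξ))) E = 0) → Irreducible π → π ∣ e0 E →
    (∀ l : MvPolynomial (Fin (ρ + 1) × ι) ℤ, rename Sum.inl l ≠ π) →
    ∃ l : MvPolynomial (Fin (ρ + 1) × ι) ℤ, (sep ι ρ π).leadingCoeff = rename Sum.inl l

/-- (P6, 100 lines, uses P5) The leading coefficient of `e0 E`.
PROOF. `e0 E ≠ 0`: otherwise `Z ∣ E` (`E` vanishes for `Z = 0`: `optionEquivLeft E` has constant coefficient zero), `E = ± Z` up to a unit, and the value of `E` would be `± aeval ξ f ≠ 0`. Write `e0 E` as a product of irreducible elements (UFD induction, for all divisors `P ≠ 0` of `e0 E`: the leading coefficient of `sep P` is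
`rename Sum.inl l`): units are `± 1`; an irreducible factor is either `rename Sum.inl l` itself (then `sep` of it is the constant `C (rename Sum.inl l)`) or P5 applies; the leading coefficient is multiplicative. -/
def S_P6 : Prop :=
  ∀ (ι : Type) [Fintype ι] [DecidableEq ι] (ρ : ℕ) (ξ : ι → ℂ) (f : MvPolynomial ι ℤ) (E : MvPolynomial (Option (BU ι (ρ + 1))) ℤ),
    Tr ξ (ρ + 1) → aeval ξ f ≠ 0 → Irreducible E →
    (∀ u : Fin (ρ + 1) × ι → ℂ, aeval (ev (aeval ξ f) (Sum.elim u (psi u ξ))) E = 0) →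
    ∃ a : MvPolynomial (Fin (ρ + 1) × ι) ℤ, a ≠ 0 ∧ (sep ι ρ (e0 E)).leadingCoeff = rename Sum.inl a

/-- (P7, 250 lines, uses P4, P5, A1v, A2, Clr, Gau, Ext, TrE, TrI, Gnx) THE POINTS.
PROOF. `u` is algebraically independent over `ℚ(ξ)`, so over `ℚ`. `e0 E ≠ 0` (as in P6) is a product of irreducibles, one of which, `π`, vanishes at `(u, t)`. `π` is not of the form `rename Sum.inl l` (`l(u) ≠ 0` for `l ≠ 0`). By P5 the leading coefficient of `sep π` is `rename Sum.inl l`, `l ≠ 0`; its degree is `≥ 1` (otherwise `sep π` is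
a constant `C (rename Sum.inl l)`, `π = rename Sum.inl l`). Choose `T'_1, …, T'_ρ ∈ ℂ` algebraically independent over `ℚ(ξ, u)` (Gnx for `Sum.elim ξ u`), and `T'_0 ∈ ℂ` a root of `sep π` evaluated at `(u, T'_1, …, T'_ρ)` (degree `≥ 1` as `l(u) ≠ 0`). So `π(u, T') = 0`, `e0 E` vanishes at `(u, T')`. P4 with `F = ℂ`: `ξ'` with
`Spc ξ ξ'`, `aeval ξ' f = 0`, `psi u ξ' = T'`.
`Tr ξ' ρ`: let `Tr ξ' r'` (TrE). `r' < ρ + 1` by A2. The family `Sum.elim u (T'_1, …, T'_ρ)` is algebraically independent over `ℚ` with `(ρ+1) n + ρ` members and is algebraic over (in) `ℚ(u, ξ')`, whose transcendence degree is `≤ (ρ+1) n + r'`; so `ρ ≤ r'`.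
`Spc (Sum.elim u T') (Sum.elim u t)`: let `G(u, T') = 0`; rename by `sepIdx` to `Option (BV ι ρ)`: the point `x = Sum.elim u (T'_1..T'_ρ)` is algebraically independent, `z = T'_0`, and `π` (renamed) is irreducible with `π(x, z) = 0`; Gau: `π ∣ G`, so `G(u, t) = 0`.
`ξ' j` is integral over `ℚ(lower u)[T'_1, …, T'_ρ]` by A1v (rows `1..ρ`, `Tr ξ' ρ`); enlarge to `ℚ(u)[T'_1..T'_ρ]` and use Clr: a relation over `ℤ[U, T_1, …, T_ρ]`, so over `MvPolynomial (BU ι (ρ+1)) ℤ` (rename), with leading coefficient `rename Sum.inl l`, of value `l(u) ≠ 0` at `(u, t)`. Ext (`x = Sum.elim u T'`, `x' = Sum.elim u t`, `z = ξ'`):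
`ξ''` with `Spc (Sum.elim (Sum.elim u T') ξ') (Sum.elim (Sum.elim u t) ξ'')`. So `Spc ξ' ξ''`, and the relations `T_i = ∑_j U_(i,j) X_j` give `psi u ξ'' = t`. -/
def S_P7 : Prop :=
  ∀ (ι : Type) [Fintype ι] [DecidableEq ι] (ρ : ℕ) (ξ : ι → ℂ) (f : MvPolynomial ι ℤ) (E : MvPolynomial (Option (BU ι (ρ + 1))) ℤ),
    Tr ξ (ρ + 1) → aeval ξ f ≠ 0 → Irreducible E →
    (∀ u : Fin (ρ + 1) × ι → ℂ, aeval (ev (aeval ξ f) (Sum.elim u (psi u ξ))) E = 0) →
    ∀ (u : Fin (ρ + 1) × ι → ℂ) (t : Fin (ρ + 1) → ℂ), GenOver u ξ → aeval (ev 0 (Sum.elim u t)) E = 0 →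
    ∃ ξ' ξ'' : ι → ℂ, Spc ξ ξ' ∧ aeval ξ' f = 0 ∧ Tr ξ' ρ ∧ Spc ξ' ξ'' ∧ psi u ξ'' = t

/-- (Alg, 100 lines, uses P6) THE ALGEBRAIC PROPOSITION, first part: `e0 E` as a polynomial in `T_0`.
PROOF. `δ` = the degree of `sep (e0 E)`, `a` from P6. Total degrees: `totalDegree (e0 E) ≤ totalDegree E`; `natDegree (sep P) ≤ totalDegree P` and the coefficients of `sep P` have total degree `≤ totalDegree P` (`natDegree_optionEquivLeft`, `totalDegree_coeff_optionEquivLeft_le`, `totalDegree_renameEquiv`),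
`totalDegree (rename Sum.inl a) = totalDegree a` (injective). For `u, t'` let `q` be the image of `sep (e0 E)` in `ℂ[Z]` under `aeval (Sum.elim u t')`: `q.natDegree ≤ δ`, `q.coeff δ = aeval u a` and
`q.eval z = aeval (Sum.elim u (Fin.cons z t')) (e0 E)` (`eval_sep`), `= aeval (ev 0 (Sum.elim u (Fin.cons z t'))) E` (`aeval_e0`). -/
def S_Alg : Prop :=
  ∀ (ι : Type) [Fintype ι] [DecidableEq ι] (ρ : ℕ) (ξ : ι → ℂ) (f : MvPolynomial ι ℤ) (E : MvPolynomial (Option (BU ι (ρ + 1))) ℤ),
    Tr ξ (ρ + 1) → aeval ξ f ≠ 0 → Irreducible E →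
    (∀ u : Fin (ρ + 1) × ι → ℂ, aeval (ev (aeval ξ f) (Sum.elim u (psi u ξ))) E = 0) →
    ∃ (δ : ℕ) (a : MvPolynomial (Fin (ρ + 1) × ι) ℤ), a ≠ 0 ∧ δ ≤ E.totalDegree ∧ a.totalDegree ≤ E.totalDegree ∧
      ∀ (u : Fin (ρ + 1) × ι → ℂ) (t' : Fin ρ → ℂ), ∃ q : Polynomial ℂ, q.natDegree ≤ δ ∧ q.coeff δ = aeval u a ∧
        ∀ z : ℂ, q.eval z = aeval (ev 0 (Sum.elim u (Fin.cons z t' : Fin (ρ + 1) → ℂ))) E

end Pool.Agent.SMQ
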