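import Pool.Agent.Lib.MP_452a87_nt.SpecN

/-!
# Part F: fields

The task `X` is to write `F/X.lean` with `theorem pX (h1 : S_..) ... : S_X`; statements used are hypotheses.
-/

set_option autoImplicit false

namespace Pool.Agent.SMQ

open MvPolynomial

/-- (F1, 250 lines) Positive integers from a multiquadratic field.
PROOF. `F = ℚ(S)` is finite dimensional, so there is a finite subset of `S` generating `F` (e.g. `IntermediateField.fg_of_finiteDimensional`-type results, or: take a finite subset `S'` of `S` with `[ℚ(S') : ℚ]` maximal; then `S ⊆ ℚ(S')`). Let `S' = {r_1, …, r_k} ⊆ S` be a generating subset of minimal cardinality. `[F : ℚ] ≤ 2^k`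
(each `r_i` has degree `≤ 2`), so `k ≥ M + 1`. No product of the `r_i` over a nonempty set `X` is rational: otherwise for `i ∈ X` `r_i ∈ ℚ(r_l : l ≠ i)` (`r_i` = rational / product of the others; all `r_i ≠ 0`, as `0` could be removed), and `r_i` could be removed. Multiplying `r_i` by the denominator of `r_i^2` we may assume
`r_i^2 = b_i`, a nonzero integer. If all `b_i > 0` let `r'_i = r_i` for `M` of the indices. Otherwise let `b_(i0) < 0` and for `i ≠ i0` let `r'_i = r_i` if `b_i > 0` and `r'_i = r_i r_(i0)` if `b_i < 0`; take `M` indices `i ≠ i0`. `r'_i^2 = a_i` is a positive integer, `√a_i = ± r'_i ∈ F`. `Ind a`: if `∏_(i∈X) a_i = n^2` with `X ≠ ∅`, then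
`∏_(i∈X) r'_i = ± n`; but `∏_X r'_i = ∏_X r_i * r_(i0)^e` = (rational nonzero number) * (product of the `r_i` over `X` or `X ∪ {i0}`), which would be rational: contradiction. -/
def S_F1 : Prop :=
  ∀ (M : ℕ) (S : Set ℂ), (∀ x ∈ S, ∃ q : ℚ, x ^ 2 = (q : ℂ)) →
    Module.finrank ℚ (IntermediateField.adjoin ℚ S) = 2 ^ (M + 1) →
    ∃ a : Fin M → ℕ, Ind a ∧ ∀ l, ((Real.sqrt (a l) : ℝ) : ℂ) ∈ IntermediateField.adjoin ℚ S

/-- (F2, 250 lines, uses LI, TrE, TrI) From the block theorem to generators.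
PROOF. `K = ℚ(√b_i : i)` is spanned over `ℚ` by the `2^j` numbers `mu b U` (their span is closed under multiplication, and a finite dimensional domain), which are linearly independent (LI), so `[K : ℚ] = 2^j`. Let `ℚ(β) = K`. Then `1, β, …, β^(2^j-1)` is a basis of `K`. For `A` nonempty: `mu b A = ∑_(i<2^j) c_i β^i`, `c_i ∈ ℚ`; let
`N ≥ 1` be a common denominator: `(th b L A)^N = ∏_i exp(β^i L)^(N c_i)` with integers `N c_i`. As `exp L` (the factor `i = 0`) is algebraic, `th b L A` is algebraic over `ℚ(z)`, `z_i = exp(β^(i+1) L)`, `i < 2^j - 1`. The `2^j - 1` numbers `th b L A` (`A` nonempty; there are `2^j - 1` nonempty subsets) are algebraically independent;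
`Tr z e` with `e ≤ 2^j - 1` (TrE; injective `b` in `Tr`), and by TrI `2^j - 1 ≤ e`. So the transcendence basis `b : Fin e → Fin (2^j-1)` in `Tr` is a bijection and `z` is algebraically independent. -/
def S_F2 : Prop :=
  ∀ (j : ℕ) (b : Fin j → ℕ) (L : ℂ), Ind b → IsAlgebraic ℚ (Complex.exp L) →
    AlgebraicIndependent ℚ (fun A : {A : Finset (Fin j) // A.Nonempty} => th b L A.1) →
    Module.finrank ℚ (IntermediateField.adjoin ℚ (Set.range fun i : Fin j => ((Real.sqrt (b i) : ℝ) : ℂ))) = 2 ^ j ∧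
    ∀ β : ℂ, IntermediateField.adjoin ℚ {β} =
        IntermediateField.adjoin ℚ (Set.range fun i : Fin j => ((Real.sqrt (b i) : ℝ) : ℂ)) →
      AlgebraicIndependent ℚ (fun i : Fin (2 ^ j - 1) => Complex.exp (β ^ ((i : ℕ) + 1) * L))

/-- (Fin, 80 lines, uses BlkT, F1, F2) THE FINAL THEOREM.
PROOF. `M0` from BlkT for `j`, `M = M0 + 1`. F1: `a : Fin M0 → ℕ`. BlkT: `B`. `b i = ∏ l ∈ B i, a l`; the `B i` are disjoint and nonempty, so `Ind b`, `mu b A = mu a (A.biUnion B)`, `th b L A = th a L (A.biUnion B)`. `K` = the field of F2; `√(b i) = ∏ √(a l) ∈ F`. -/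
def S_Fin : Prop :=
  ∀ j : ℕ, ∃ M : ℕ, ∀ S : Set ℂ, (∀ x ∈ S, ∃ q : ℚ, x ^ 2 = (q : ℂ)) →
    Module.finrank ℚ (IntermediateField.adjoin ℚ S) = 2 ^ M → ∀ L : ℂ, L ≠ 0 → IsAlgebraic ℚ (Complex.exp L) →
    ∃ K : IntermediateField ℚ ℂ, K ≤ IntermediateField.adjoin ℚ S ∧ Module.finrank ℚ K = 2 ^ j ∧
      ∀ β : ℂ, IntermediateField.adjoin ℚ {β} = K →
        AlgebraicIndependent ℚ (fun i : Fin (2 ^ j - 1) => Complex.exp (β ^ ((i : ℕ) + 1) * L))

end Pool.Agent.SMQ
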