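import Pool.Agent.Lib.MP_452a87_nt.SpecE

/-!
# Part G: ordering by discriminant

For every `j ≥ 2` and `L ≠ 0` with `exp L` algebraic, 100 percent of the fields with Galois group `(ℤ/2)^j`, ordered by the absolute value of the discriminant, satisfy the statement of Schneider for every generator (GFn).

The task `X` is to write `G/X.lean` with `theorem pX (h1 : S_..) ... : S_X`; statements used are hypotheses, so all modules are independent.

Idea. A multiquadratic field of degree `2^j` is `Ks s (e·a) = ℚ(√(± e_i a_i))` with `a_i` odd and squarefree, `e_i ∈ {1, 2}`. With `n = lcm a_i` one has `n^(2^(j-1)) ∣ disc` always, and `disc ∣ n^(2^(j-1))` if `e = 1` and all `± a_i` are `1` modulo `4`. For given squarefree `n` the tuples `a` with `lcm a = n` are the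
words with letters in the nonempty subsets of `Fin j`, indexed by the primes of `n`. Density Hales-Jewett for this alphabet (`2^j - 1 ≥ 3` letters) gives cubes (the letters `{i'}`, `{i', i}`), which contradict the cube theorem ECb if many of the words are bad. The tuples with few primes are negligible, since the number of all tuples grows faster than `Y`.
-/

set_option autoImplicit false

namespace Pool.Agent.SMQ

open MvPolynomial

/-- Tuples of odd squarefree numbers with least common multiple at most `Y`. -/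
def OS (j Y : ℕ) : Set (Fin j → ℕ) := {a | (∀ i, Squarefree (a i) ∧ Odd (a i)) ∧ Finset.univ.lcm a ≤ Y}

/-- The signs for which `± a i` is `1` modulo `4`. -/
def sg {j : ℕ} (a : Fin j → ℕ) (i : Fin j) : Bool := decide (a i % 4 = 3)

/-- The multipliers of the field `Ks s a`. -/
noncomputable def lm {j : ℕ} (L : ℂ) (s : Fin j → Bool) (A : Finset (Fin j)) : ℂ := L * ∏ i ∈ A, (if s i then Complex.I else 1)

/-- Multiquadratic fields of degree `2 ^ j`. -/
def MQ (j : ℕ) (K : IntermediateField ℚ ℂ) : Prop :=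
  Module.finrank ℚ K = 2 ^ j ∧ ∃ S : Set ℂ, (∀ x ∈ S, ∃ q : ℚ, x ^ 2 = (q : ℂ)) ∧ K = IntermediateField.adjoin ℚ S

/-- `K` is a number field with `|disc K| ≤ X`. -/
def DLe (K : IntermediateField ℚ ℂ) (X : ℕ) : Prop := ∃ _ : NumberField K, |NumberField.discr K| ≤ (X : ℤ)

/-! ### Combinatorics -/

/-- (GCu, 150 lines, uses HJk; compare `D/HJt.lean`) Cubes in dense sets of words with nonempty letters.
PROOF. Identify a tuple `x : Fin j → Finset (Fin w)` with `∀ l, ∃ i, l ∈ x i` with the word `l ↦ {i | l ∈ x i}`, with letters in the nonempty subsets of `Fin j`, a set with `2^j - 1` elements, and this set with `Fin (2^j - 1)`. HJk for the alphabet `Fin (2^j - 1)`, dimension `j k`, density `δ`, `ι = Fin w`: a word `v : Fin w → Fin (2^j - 1) ⊕ Fin (j k)` in which all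
wildcards occur. For `i : Fin j` let `i' ≠ i` be another element of `Fin j` (`j ≥ 2`). `D i t` = the set of the `l` with `v l` = the wildcard `(i, t)` (`Fin (j k) ≃ Fin j × Fin k`); nonempty and disjoint. For `W` put the letter `{i', i}` into the wildcard `(i, t)` if `t ∈ W i` and the letter `{i'}` otherwise. The resulting tuple is `i ↦ a i ∪ (W i).biUnion (D i)` where
`a i` = the set of the `l` with `v l` = a letter containing `i`, together with all `D i1 t` with `i1' = i` (so `i1 ≠ i`). -/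
def S_GCu : Prop :=
  ∀ (j k : ℕ) (δ : ℝ), 2 ≤ j → 0 < δ → ∃ w0 : ℕ, ∀ w : ℕ, w0 ≤ w → ∀ 𝒜 : Set (Fin j → Finset (Fin w)),
    (∀ x ∈ 𝒜, ∀ l, ∃ i, l ∈ x i) → δ * (2 ^ j - 1) ^ w ≤ (𝒜.ncard : ℝ) →
    ∃ (D : Fin j → Fin k → Finset (Fin w)) (a : Fin j → Finset (Fin w)), (∀ i t, (D i t).Nonempty) ∧
      (∀ i t i' t', (i, t) ≠ (i', t') → Disjoint (D i t) (D i' t')) ∧ (∀ i t, Disjoint (a i) (D i t)) ∧
      ∀ W : Fin j → Finset (Fin k), (fun i => a i ∪ (W i).biUnion (D i)) ∈ 𝒜

/-- (GFb, 150 lines, uses GCu, ECb, Ci2) THE FIBRE THEOREM: words over the primes of a squarefree number.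
PROOF. `k = j + 4`, `δ = ε/2^(2^j)`, `w0` from GCu. Suppose there are more. Write `a_x i = e i ∏_(l∈x i) p l`. Each bad `x` has a circuit (Ci2 for `v = vn lam a_x`), so there is `C` such that `𝒜 = {x | full, Crc C (vn lam a_x)}` has at least `δ (2^j - 1)^w` elements (there are at most `2^(2^j)` sets `C`). GCu: `D, a`. Let `c i = e i ∏_(l∈a i) p l`,
`b i t = ∏_(l ∈ D i t) p l`, `aW W i = e i ∏_(l ∈ a i ∪ (W i).biUnion (D i)) p l = c i ∏_(t∈W i) b i t` (disjoint sets; `s = s' = 1` in ECb). `Ind` for `b`: the product over a nonempty set of pairs is the product of the `p l` over a nonempty set of indices, a squarefree number `> 1`, not a square. ECb: some `W` with `¬ Crc C (vn lam (aW W))`, contradiction. -/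
def S_GFb : Prop :=
  ∀ (j : ℕ) (ε : ℝ), 2 ≤ j → 0 < ε → ∃ w0 : ℕ, ∀ w : ℕ, w0 ≤ w → ∀ (p : Fin w → ℕ) (e : Fin j → ℕ) (lam : Finset (Fin j) → ℂ),
    (∀ l, (p l).Prime) → Function.Injective p → (∀ i, 0 < e i) → (∀ A, lam A ≠ 0) →
    (Set.ncard {x : Fin j → Finset (Fin w) | (∀ l, ∃ i, l ∈ x i) ∧ BadN lam (fun i => e i * ∏ l ∈ x i, p l)} : ℝ) ≤
      ε * (2 ^ j - 1) ^ w

/-- (GTl, 200 lines) There are many tuples.
PROOF. (1) For a prime `q ≥ 3` and `Z ≥ 100` the number of odd squarefree `m ≤ Z`, `m ≥ 1`, with `q ∤ m` is at least `Z/10`: there are at least `(Z-1)/2` odd numbers; the odd ones which are not squarefree are divisible by `d^2` with `d ≥ 3` odd (`d` prime), `d ≤ √Z`, for each `d` at most `(Z/d^2 + 1)/2` of them, together at most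
`(Z/2) ∑_(d ≥ 3 odd) 1/d^2 + √Z/2 ≤ Z/8 + √Z/2` (`1/d^2 ≤ (1/(d-1) - 1/(d+1))/2`, telescoping); the odd multiples of `q` are at most `(Z/q + 1)/2 ≤ Z/6 + 1/2`. `Z (1/2 - 1/8 - 1/6) - √Z/2 - 1 ≥ Z/10`. (2) Let `Q` be a finite set of odd primes with `∑_(q∈Q) 1/q ≥ 20 M` (`Nat.Primes.not_summable_one_div`, `not_summable_one_div_on_primes`). The pairs `(q, m)`, `q ∈ Q`,
`m` as in (1), `q m ≤ Y`, map injectively to tuples of `OS j Y`: `a 0 = q m`, `a 1 = q`, `a i = 1` otherwise. So for `Y ≥ 200 max Q`: `|OS j Y| ≥ ∑_q ⌊Y/q⌋/10 ≥ ∑_q Y/(20 q) ≥ M Y`. (`OS j Y` is finite: `a i ≤ lcm ≤ Y`.) -/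
def S_GTl : Prop :=
  ∀ (j : ℕ) (M : ℝ), 2 ≤ j → ∃ Y0 : ℕ, ∀ Y : ℕ, Y0 ≤ Y → (OS j Y).Finite ∧ M * Y ≤ ((OS j Y).ncard : ℝ)

/-- (GAv, 250 lines, uses GFb, GTl) THE AVERAGE THEOREM.
PROOF. `w0` from GFb for `ε/2`; `Y0` from GTl for `M = 2 (2^j)^w0 / ε`. Sort the tuples `a` of `OS j Y` by `n = lcm a`, an odd squarefree number `≤ Y`, with primes `p : Fin w → ℕ` (an enumeration of `n.primeFactors`, `w` their number). `x ↦ (i ↦ ∏_(l∈x i) p l)` is a bijection from the tuples `x : Fin j → Finset (Fin w)` with `∀ l, ∃ i, l ∈ x i` to the tuples `a` of squarefree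
numbers with `lcm a = n`; there are `(2^j - 1)^w` of them (words with nonempty letters). If `w ≥ w0`: at most `(ε/2) (2^j-1)^w` of them are bad (GFb), i.e. at most `(ε/2) · #{a : lcm a = n}`; the sum over these `n` is at most `(ε/2) |OS j Y|`. If `w < w0`: at most `(2^j)^w0` tuples; there are at most `Y` numbers `n`, so together at most `(2^j)^w0 Y ≤ (ε/2) |OS j Y|` (GTl). -/
def S_GAv : Prop :=
  ∀ (j : ℕ) (ε : ℝ), 2 ≤ j → 0 < ε → ∃ Y0 : ℕ, ∀ Y : ℕ, Y0 ≤ Y → ∀ (e : Fin j → ℕ) (lam : Finset (Fin j) → ℂ),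
    (∀ i, 0 < e i) → (∀ A, lam A ≠ 0) →
    (Set.ncard {a : Fin j → ℕ | a ∈ OS j Y ∧ BadN lam (fun i => e i * a i)} : ℝ) ≤ ε * ((OS j Y).ncard : ℝ)

/-- (GDp, 80 lines) Dependent tuples are bad for the multipliers `1`.
PROOF. `∏_(i∈A) a i = t^2`, `t > 0`. If `A = {i}` let `i' ≠ i` (`j ≥ 2`): `√(a i a i') = t √(a i')`, so `vn {i, i'} = (vn {i'})^t`. Otherwise `i ∈ A`, `A' = A.erase i` nonempty, `A' ≠ {i}`: `a i · √(∏_(A') a) = t √(a i)`, so `(vn A')^(a i) = (vn {i})^t`. Both are polynomial relations (`X^u - Y^v`, `u, v ≥ 1`) between two different members of the family. -/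
def S_GDp : Prop :=
  ∀ (j : ℕ) (a : Fin j → ℕ), 2 ≤ j → (∀ i, 0 < a i) → (∃ A : Finset (Fin j), A.Nonempty ∧ IsSquare (∏ i ∈ A, a i)) →
    BadN (fun _ => 1) a

/-! ### Fields -/

/-- (GRt, 100 lines) The generators of a field of full degree.
PROOF. Suppose `∏_(i∈X) (± b i) = t^2`, `X` nonempty, `i0 ∈ X`. Then `∏_(i∈X) rt (s i) (b i) = ± t` is rational and not zero, so `rt (s i0) (b i0)` is in the field generated by the other `j - 1` square roots, so the degree of `Ks s b` is at most `2^(j-1)` (adjoining a square root of a rational number at most doubles the degree), contradiction. -/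
def S_GRt : Prop :=
  ∀ (j : ℕ) (s : Fin j → Bool) (b : Fin j → ℕ), (∀ i, 0 < b i) → Module.finrank ℚ (Ks s b) = 2 ^ j →
    Rts (fun i => rt (s i) (b i)) (fun i => if s i then -(b i : ℤ) else (b i : ℤ))

/-- (GKd, 60 lines, uses FB, Sdd) PROOF. `x i = {i}`: `sd A x = A`, so `Fre x` and `KX r x = Ks s b` for `r i = rt (s i) (b i)`; `Rts` holds: if `∏_(i∈X) (± b i)` is a square in `ℤ`, not zero, it is positive and equal to `∏_(i∈X) b i`, which is then a square in `ℕ`. FB (2). -/
def S_GKd : Prop :=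
  ∀ (j : ℕ) (s : Fin j → Bool) (b : Fin j → ℕ), (∀ i, 0 < b i) → (∀ A : Finset (Fin j), A.Nonempty → ¬ IsSquare (∏ i ∈ A, b i)) →
    Module.finrank ℚ (Ks s b) = 2 ^ j

/-- (GBk, 120 lines, uses GRt, FG, FB, Sdd) Bad fields have bad tuples.
PROOF. `r i = rt (s i) (b i)`, Rts by GRt. `x i = {i}`: `sd A x = A`, `Fre x`, `KX r x = Ks s b`. `ths r L (sd A x) = exp (L ∏_(i∈A) r i) = vn (lm L s) b A` (the root of a product of natural numbers is the product of the roots). If `¬ BadN (lm L s) b` then `¬ BadT r L x`, and FG gives the independence for all generators `β`, so `¬ BadK`. -/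
def S_GBk : Prop :=
  ∀ (j : ℕ) (s : Fin j → Bool) (b : Fin j → ℕ) (L : ℂ), (∀ i, 0 < b i) → Module.finrank ℚ (Ks s b) = 2 ^ j →
    IsAlgebraic ℚ (Complex.exp L) → BadK (2 ^ j) L (Ks s b) → BadN (lm L s) b

/-- (GMf, 120 lines, uses FR) Normal form of a multiquadratic field.
PROOF. FR: `r : Fin j → ℂ`, `a0 : Fin j → ℤ`, `Rts r a0`, `K = ℚ(range r)`. `a0 i ≠ 0`. `|a0 i| = u t^2` with `u` squarefree (`Nat.sq_mul_squarefree`), `u = e a` with `e = 2` or `1`, `a` odd (and squarefree). `s i = (a0 i < 0)`. `(r i)^2 = ± e a t^2 = (t rt (s i) (e a))^2`, so `r i = ± t rt (s i) (e i * a i)`, `t ≠ 0`: the fields are equal. -/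
def S_GMf : Prop :=
  ∀ (j : ℕ) (K : IntermediateField ℚ ℂ), MQ j K → ∃ (s : Fin j → Bool) (e a : Fin j → ℕ), (∀ i, e i = 1 ∨ e i = 2) ∧
    (∀ i, Squarefree (a i) ∧ Odd (a i)) ∧ K = Ks s (fun i => e i * a i)

/-- (GNf, 200 lines, uses GRt, FB, Sdd) A field has few tuples.
PROOF. We may assume that the set is not empty; let `a⁰` be in it, `a⁰* i = ± a⁰ i`, `Rts` by GRt. Let `B` be the set of the odd squarefree `b` with `rt (decide (b % 4 = 3)) b ∈ K`, `b* = ± b`. For `b ∈ B` the `j + 1` numbers `b*, a⁰* i` do not satisfy `Rts` (with `rt ..` and `r⁰`): otherwise FB (for `j + 1`, `x i = {i}`) says that the degree of the field which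
they generate, which is `K`, is `2^(j+1)`. So a nonempty product of them is a square, and it contains `b*` (Rts for `a⁰`): `b* ∏_(i∈A) a⁰* i = t^2`. If `b, b' ∈ B` have the same `A` then `b* b'*` times a nonzero square is a square, so `b* b'*` is a square (of a rational number, hence of an integer), `b b'` is a square, and `b = b'` as both are
squarefree. So `B` has at most `2^j` elements, and the set of the tuples is contained in the set of functions `Fin j → B`. -/
def S_GNf : Prop :=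
  ∀ (j : ℕ) (K : IntermediateField ℚ ℂ), Module.finrank ℚ K = 2 ^ j →
    {a : Fin j → ℕ | (∀ i, Squarefree (a i) ∧ Odd (a i)) ∧ Ks (sg a) a = K}.Finite ∧
    Set.ncard {a : Fin j → ℕ | (∀ i, Squarefree (a i) ∧ Odd (a i)) ∧ Ks (sg a) a = K} ≤ 2 ^ (j * j)

/-! ### Discriminants -/

/-- (GD0, 80 lines) The discriminant of a basis of integral elements.
PROOF. Write `b i = ∑_l P l i ω l` with the integral basis `ω` (`NumberField.integralBasis`, `P l i ∈ ℤ` since `b i` is integral; reindex `ω` by `κ`: both have `finrank` elements) and use `Algebra.discr_of_matrix_vecMul` (or `Algebra.discr_of_matrix_mulVec`) and `NumberField.coe_discr`. -/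
def S_GD0 : Prop :=
  ∀ (K : Type) [Field K] [NumberField K] (κ : Type) [Fintype κ] [DecidableEq κ] (b : Module.Basis κ ℚ K),
    (∀ i, IsIntegral ℤ (b i)) → ∃ t : ℤ, Algebra.discr ℚ b = (t : ℚ) ^ 2 * (NumberField.discr K : ℚ)

/-- (GDq, 120 lines, uses GD0) Odd primes in the discriminant of a quadratic field.
PROOF. `d` is not a square (`p` divides it exactly once), so `1, z` is a basis of `K` (the degree is `2`) of integral elements with trace matrix `(2, 0; 0, 2d)` (`Tr z = 0`: the minimal polynomial is `X^2 - d`; `Tr (z^2) = 2 d`), of discriminant `4 d`. GD0: `4 d = t^2 disc K`. The `p`-adic valuation of `4 d` is `1`, so that of `disc K` is odd. -/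
def S_GDq : Prop :=
  ∀ (K : IntermediateField ℚ ℂ) [NumberField K] (z : ℂ) (d : ℤ) (p : ℕ), z ^ 2 = (d : ℂ) → K = IntermediateField.adjoin ℚ {z} →
    p.Prime → p ≠ 2 → (p : ℤ) ∣ d → ¬ (p : ℤ) ^ 2 ∣ d → (p : ℤ) ∣ NumberField.discr K

/-- (GDt, 80 lines) Towers.
PROOF. `NumberField.natAbs_discr_eq_absNorm_differentIdeal_mul_natAbs_discr_pow` (Mathlib, `NumberTheory/NumberField/Discriminant/Different.lean`, compare the proof of `NumberField.discr_dvd_discr`) for the extension `K/k` (algebra structure from the inclusion), `finrank k K = c`. -/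
def S_GDt : Prop :=
  ∀ (k K : IntermediateField ℚ ℂ) [NumberField k] [NumberField K] (c : ℕ), k ≤ K → Module.finrank ℚ K = c * Module.finrank ℚ k →
    NumberField.discr k ^ c ∣ NumberField.discr K

/-- (GDl, 120 lines, uses GDq, GDt, GRt) The lower bound.
PROOF. Let `p` be a prime divisor of `n = lcm a` (squarefree, odd). `p ∣ a i` for some `i`, exactly once; `d = ± e i a i` is divisible by `p` exactly once. `k = ℚ(rt (s i) (e i a i)) ⊆ K`, of degree `2` (`d` is not a square), `p ∣ disc k` (GDq), so `p^(2^(j-1)) ∣ disc K` (GDt with `c = 2^(j-1)`, `j ≥ 1`). These prime powers for the primes of `n` are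
coprime and their product is `n^(2^(j-1))` (`n` is squarefree). -/
def S_GDl : Prop :=
  ∀ (j : ℕ) (s : Fin j → Bool) (e a : Fin j → ℕ) (K : IntermediateField ℚ ℂ) [NumberField K], (∀ i, e i = 1 ∨ e i = 2) →
    (∀ i, Squarefree (a i) ∧ Odd (a i)) → K = Ks s (fun i => e i * a i) → Module.finrank ℚ K = 2 ^ j →
    ((Finset.univ.lcm a : ℕ) : ℤ) ^ (2 ^ (j - 1)) ∣ NumberField.discr K

/-- (GDr, 200 lines) One quadratic step, unramified at `2`.
PROOF. Regard `K` as an extension of `K'` (inclusion), of degree `2`. `θ = (1 + z)/2` is integral: `θ^2 - θ + (1 - d)/4 = 0`, with `(1-d)/4 ∈ ℤ`. `K = K'(θ)`, so the minimal polynomial of `θ` over `𝓞 K'` is `f = X^2 - X + (1-d)/4` (monic of degree `2`, the minimal polynomial over `K'` has degree `2`) and `f'(θ) = 2 θ - 1 = z`. So `z` is in the relative different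
(`aeval_derivative_mem_differentIdeal`), its absolute norm divides the norm of the ideal `(z)`, which is `|N_(K/ℚ) z| = |d|^[K':ℚ]` (`N(z)^2 = N(z^2) = N(d) = d^(2 [K':ℚ])`). Then `natAbs_discr_eq_absNorm_differentIdeal_mul_natAbs_discr_pow`: `|disc K| = (norm of the relative different) · |disc K'|^2`. -/
def S_GDr : Prop :=
  ∀ (K' K : IntermediateField ℚ ℂ) [NumberField K'] [NumberField K] (z : ℂ) (d : ℤ), z ^ 2 = (d : ℂ) → 4 ∣ d - 1 → K' ≤ K →
    z ∈ K → K = K' ⊔ IntermediateField.adjoin ℚ {z} → Module.finrank ℚ K = 2 * Module.finrank ℚ K' →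
    NumberField.discr K ∣ NumberField.discr K' ^ 2 * d ^ Module.finrank ℚ K'

/-- (GDu, 120 lines, uses GDr) The upper bound for given generators.
PROOF. Induction on `j`. `j = 0`: `K = ⊥`, the discriminant of a field of degree `1` is `± 1` (it is isomorphic to `ℚ`, `NumberField.discr_eq_discr_of_algEquiv`, `Rat.numberField_discr`). Step: `K'` = the field of the first `j` generators, `[K' : ℚ] = 2^j` (at most `2^j`, and `[K : ℚ] = 2^(j+1)` is at most twice the degree of `K'`). GDr with the last generator: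
`disc K ∣ (∏_(i<j) a_i^(2^(j-1)))^2 a_j^(2^j)` (for `j = 0` the product is empty). -/
def S_GDu : Prop :=
  ∀ (j : ℕ) (r : Fin j → ℂ) (a : Fin j → ℤ) (K : IntermediateField ℚ ℂ) [NumberField K], (∀ i, r i ^ 2 = (a i : ℂ)) →
    (∀ i, 4 ∣ a i - 1) → K = IntermediateField.adjoin ℚ (Set.range r) → Module.finrank ℚ K = 2 ^ j →
    NumberField.discr K ∣ ∏ i, a i ^ (2 ^ (j - 1))

/-- (GDv, 200 lines, uses GDu) The upper bound.
PROOF. `a* i = ± a i`, `4 ∣ a* i - 1`, `r i = rt (sg a i) (a i)`, `n = lcm a`. GDu: `disc K ∣ ∏ (a* i)^(2^(j-1))`, so every prime `p ∣ disc K` divides some `a i`, so `n`. Let `p ∣ n` and `p ∣ a i0`. Put `r' i0 = r i0`, `a' i0 = a* i0`; for `i ≠ i0` with `p ∤ a i`: `r' i = r i`, `a' i = a* i`; for `i ≠ i0` with `p ∣ a i`: `r' i = r i r i0 / p`,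
`a' i = a* i a* i0 / p^2`, an integer, `1` modulo `4` (`p^2` is `1` modulo `8`) and not divisible by `p` (`p` divides `a i` and `a i0` exactly once). The `r' i` generate the same field `K` (`r i0 ≠ 0`). GDu: the exponent of `p` in `disc K` is at most that in `∏ (a' i)^(2^(j-1))`, which is `2^(j-1)`. So for every prime `p` the exponent of `p` in `disc K` is at most that in
`n^(2^(j-1))`. -/
def S_GDv : Prop :=
  ∀ (j : ℕ) (a : Fin j → ℕ) (K : IntermediateField ℚ ℂ) [NumberField K], (∀ i, Squarefree (a i) ∧ Odd (a i)) → K = Ks (sg a) a →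
    Module.finrank ℚ K = 2 ^ j → NumberField.discr K ∣ ((Finset.univ.lcm a : ℕ) : ℤ) ^ (2 ^ (j - 1))

/-! ### The theorem -/

/-- (GFn, 250 lines, uses GAv, GDp, GKd, GBk, GMf, GNf, GDl, GDv, GTl) THE THEOREM: ordering by discriminant.
PROOF. `h = 2^(j-1) ≥ 1`. For `X` let `Y` be the largest natural number with `Y^h ≤ X`; `n^h ≤ X ↔ n ≤ Y`; `Y ≥ Y0` if `X ≥ Y0^h`. `ε' = ε/(4^j 2^(j j + 1))`. UPPER BOUND: let `K` be MQ with `|disc K| ≤ X`. GMf: `K = Ks s (e a)`; GDl: `(lcm a)^h` divides `disc K ≠ 0`, so `(lcm a)^h ≤ X`, `a ∈ OS j Y`. So the set of all these `K` is finite (a finite union over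
`s, e` of images of `OS j Y`), and if `K` is bad then `BadN (lm L s) (e a)` (GBk; `lm L s A ≠ 0`). So the number of bad fields is at most `∑_(s,e) ε' |OS j Y| = 4^j ε' |OS j Y|` (GAv). LOWER BOUND: by GAv (`ε = 1/2`, `e = 1`, `lam = 1`) and GDp at least half of the `a ∈ OS j Y` have no nonempty product which is a square; for these `K_a = Ks (sg a) a` has degree `2^j` (GKd),
it is MQ, and `|disc K_a| ≤ (lcm a)^h ≤ Y^h ≤ X` (GDv; it is a number field by the degree). Every field has at most `2^(j j)` such `a` (GNf). So `|OS j Y|/2 ≤ 2^(j j) · #fields`. -/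
def S_GFn : Prop :=
  ∀ (j : ℕ) (ε : ℝ), 2 ≤ j → 0 < ε → ∃ X0 : ℕ, ∀ X : ℕ, X0 ≤ X → ∀ L : ℂ, L ≠ 0 → IsAlgebraic ℚ (Complex.exp L) →
    {K : IntermediateField ℚ ℂ | MQ j K ∧ DLe K X}.Finite ∧
    (Set.ncard {K : IntermediateField ℚ ℂ | MQ j K ∧ DLe K X ∧ BadK (2 ^ j) L K} : ℝ) ≤
      ε * Set.ncard {K : IntermediateField ℚ ℂ | MQ j K ∧ DLe K X}

end Pool.Agent.SMQ
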