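import Pool.Agent.Lib.MP_452a87_nt.SpecX

/-!
# Part K: counting polynomials; the auxiliary polynomial E

The task `X` is to write `K/X.lean` with `theorem pX (h1 : S_..) ... : S_X`; statements used are hypotheses.
-/

set_option autoImplicit false

namespace Pool.Agent.SMQ

open MvPolynomial

/-- (L1a, 80 lines) Elementary properties of `l1`.
PROOF. `l1 f = ∑_m |coeff m f|` (any finite set containing the support). For the product: `coeff m (f g) = ∑_(a+b=m) coeff a f coeff b g`, sum over all `m` of the absolute values is at most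
`∑_(a,b) |coeff a f| |coeff b g|` (`MvPolynomial.mul_def`/`support_mul`; or by induction writing `f` as a sum of monomials: `l1 (monomial a c * g) = |c| l1 g`). -/
def S_L1a : Prop :=
  ∀ (ι : Type), (∀ f g : MvPolynomial ι ℤ, l1 (f + g) ≤ l1 f + l1 g) ∧ (∀ f g : MvPolynomial ι ℤ, l1 (f * g) ≤ l1 f * l1 g) ∧
    (∀ (f : MvPolynomial ι ℤ) (n : ℕ), l1 (f ^ n) ≤ l1 f ^ n) ∧ (∀ c : ℤ, l1 (C c : MvPolynomial ι ℤ) = c.natAbs) ∧
    (∀ i : ι, l1 (X i : MvPolynomial ι ℤ) = 1) ∧ (∀ (f : MvPolynomial ι ℤ) m, |f.coeff m| ≤ (l1 f : ℤ)) ∧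
    (∀ (I : Type) (s : Finset I) (f : I → MvPolynomial ι ℤ), l1 (∑ i ∈ s, f i) ≤ ∑ i ∈ s, l1 (f i)) ∧
    (∀ (I : Type) (s : Finset I) (f : I → MvPolynomial ι ℤ), l1 (∏ i ∈ s, f i) ≤ ∏ i ∈ s, l1 (f i)) ∧
    (∀ f : MvPolynomial ι ℤ, l1 (-f) = l1 f) ∧ (∀ f : MvPolynomial ι ℤ, l1 f = 0 ↔ f = 0)

/-- (L1s, 60 lines) `l1` of a polynomial of size `d`.
PROOF. The monomials of total degree `≤ d` have all exponents in `[0, d]`, so there are at most `(d+1)^n ≤ 2^(d n)` of them (`d + 1 ≤ 2^d`), `n = card ι`; each coefficient is at most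
`2^d`: `l1 f ≤ 2^(d n) 2^d`. -/
def S_L1s : Prop :=
  ∀ (ι : Type) [Fintype ι] (f : MvPolynomial ι ℤ) (d : ℕ), Sz f d → l1 f ≤ 2 ^ ((Fintype.card ι + 1) * d)

/-- (BxF, 50 lines) PROOF. The exponents of total degree `≤ a` form a finite set (`ι` finite), and the coefficients are in a finite set; a polynomial is determined by its coefficients. -/
def S_BxF : Prop := ∀ (ι : Type) [Fintype ι] (a B : ℕ), (Bx ι a B).Finite

/-- (KcM, 50 lines, uses BxF) Monotonicity of `Kc`.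
PROOF. (1) `Bx a B ⊆ Bx a' B'`, `Set.ncard_le_ncard` with finiteness. (2) If `Spc x x'` then the value `P(x')` is determined by `P(x)` (if `P(x) = Q(x)` then `(P - Q)(x) = 0`), so the set of values at `x'` is an
image of the set of values at `x`. (3) `0 ∈ Bx`. -/
def S_KcM : Prop :=
  (∀ (ι Ω : Type) [Fintype ι] [Field Ω] (x : ι → Ω) (a a' B B' : ℕ), a ≤ a' → B ≤ B' → Kc x a B ≤ Kc x a' B') ∧
  (∀ (ι Ω Ω' : Type) [Fintype ι] [Field Ω] [Field Ω'] (x : ι → Ω) (x' : ι → Ω') (a B : ℕ), Spc x x' →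
    Kc x' a B ≤ Kc x a B) ∧
  (∀ (ι Ω : Type) [Fintype ι] [Field Ω] (x : ι → Ω) (a B : ℕ), 1 ≤ Kc x a B)

/-- (K2, 120 lines, uses BxF, L1a) The key inequality.
PROOF. Choose for every value at `x'` of a polynomial of `Bx a B` one polynomial with this value: a finite set `𝒫 ⊆ Bx a B` with `P ↦ P(x')` injective on `𝒫`, `|𝒫| = Kc x' a B`. Likewise `ℛ ⊆ Bx (a-d) (B-h)` with
`R ↦ R(x)` injective on `ℛ`, `|ℛ| = Kc x (a-d) (B-h)`. Let `J = ∑_(|m| ≤ a) X^m` (all coefficients `1` for total degree `≤ a`). For `P ∈ 𝒫`, `R ∈ ℛ`: `Q = P + f R + 2^B J`. Total degree `≤ a`. A coefficient of `f R` is `∑_b coeff b f coeff (m-b) R`, of absolute value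
`≤ l1 f (2^(B-h) - 1) < 2^B`; so the coefficients of `Q` for total degree `≤ a` are `> 0 - 2^B + 2^B = 0` and `< 3 · 2^B ≤ 2^(B+2)`, the others are `0`: `Q ∈ Bx a (B+2)`. The map `(P, R) ↦ Q(x)` is injective: if
`Q(x) = Q'(x)` then `H = P - P' + f (R - R')` vanishes at `x`, so at `x'`; `f(x') = 0`, so `P(x') = P'(x')`, `P = P'`; then
`f(x) (R(x) - R'(x)) = 0`, `f(x) ≠ 0`, `R = R'`. -/
def S_K2 : Prop :=
  ∀ (ι Ω Ω' : Type) [Fintype ι] [Field Ω] [Field Ω'] (x : ι → Ω) (x' : ι → Ω') (f : MvPolynomial ι ℤ) (d h a B : ℕ),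
    Spc x x' → aeval x f ≠ 0 → aeval x' f = 0 → f.totalDegree ≤ d → l1 f ≤ 2 ^ h → d ≤ a → h ≤ B →
    Kc x' a B * Kc x (a - d) (B - h) ≤ Kc x a (B + 2)

/-- (K3, 150 lines, uses KcM, K2) The growth exponent drops.
PROOF. Let `K = Kc x`, `K' = Kc x'`, `κ_i = K (a + i d) (B + i (h+2) + 2)`. `K' a B ≤ K a B ≤ κ_0` (KcM). For `i ≥ 1`, K2 for `(a + i d, B + i (h+2))`:
`K' (a + i d) (B + i(h+2)) * K (a + (i-1) d) (B + (i-1)(h+2) + 2) ≤ κ_i`, and `K' a B ≤ K' (a + i d) (B + i (h+2))`, so `K' a B * κ_(i-1) ≤ κ_i`. By induction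
`(K' a B)^(i+1) ≤ κ_i`. Let `a, B ≥ 1` and `I = ⌈a/d⌉ ≥ 1`: `(I-1) d ≤ a ≤ I d`. With `i = I - 1`: `(K' a B)^I ≤ κ_(I-1) ≤ 2^(s (A^r B1 + A^(r+1)))`, `A = a + (I-1) d ≤ 2a`, `B1 = B + (I-1)(h+2) + 2`.
Now `A^r ≤ 2^r a^r ≤ 2^r a^(r-1) I d`, `d (I-1) ≤ a`, `d (B + 2) ≤ 3 d B`. So
`s (A^r B1 + A^(r+1)) ≤ s 2^r a^(r-1) I d (B + 2 + (I-1)(h+2) + 2a) ≤ s 2^r I a^(r-1) (3 d B + a (h+2) + 2 a d) ≤ I · 2^r s (h+2+3d) (a^(r-1) B + a^r)`.
Take the `I`-th root (`Nat.pow_le_pow_left` contrapositive: `x^I ≤ (2^e)^I → x ≤ 2^e`). Here `r = q + 1`, `a^(r-1) = a^q`. -/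
def S_K3 : Prop :=
  ∀ (ι Ω Ω' : Type) [Fintype ι] [Field Ω] [Field Ω'] (x : ι → Ω) (x' : ι → Ω') (f : MvPolynomial ι ℤ) (d h q s : ℕ),
    Spc x x' → aeval x f ≠ 0 → aeval x' f = 0 → f.totalDegree ≤ d → l1 f ≤ 2 ^ h → 1 ≤ d →
    PP x (q + 1) s → PP x' q (2 ^ (q + 1) * s * (h + 2 + 3 * d))

/-! ### The property `PP` for points with `Tr x t` -/

/-- Signed boxes. -/
def Bs (ι : Type) (a B : ℕ) : Set (MvPolynomial ι ℤ) :=
  {P | P.totalDegree ≤ a ∧ ∀ m, |P.coeff m| ≤ 2 ^ B}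

/-- Signed growth property: the set of values is finite and small. -/
def QQ {ι Ω : Type} [Field Ω] (x : ι → Ω) (r c : ℕ) : Prop :=
  ∀ a B : ℕ, 1 ≤ a → 1 ≤ B → ((fun P : MvPolynomial ι ℤ => aeval x P) '' Bs ι a B).Finite ∧
    Set.ncard ((fun P : MvPolynomial ι ℤ => aeval x P) '' Bs ι a B) ≤ 2 ^ (c * (a ^ r * B + a ^ (r + 1)))

/-- (QT, 120 lines) Adjoining any element raises the exponent by one.
PROOF. First `n = 0` (`x : Fin 0 → Ω`): a polynomial is an integer `v`, `|v| ≤ 2^B`: at most `2^(B+1) + 1 ≤ 2^(2(B+1))` values, so `QQ x 0 2`. Step: let `P : MvPolynomial (Fin (n+1)) ℤ` in `Bs a B`; `P = ∑_(i ≤ a) P_i X_0^i` with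
`P_i = coeff i (finSuccEquiv P) ∈ Bs (Fin n) a B` (`totalDegree_coeff_finSuccEquiv_add_le`, `finSuccEquiv_coeff_coeff`), and `aeval (Fin.cons z x) P = ∑_(i≤a) (aeval x P_i) z^i` (compare `eval_sep`, `eval_opt` in Defs for the
method). So the set of values is contained in the image of `(Fin (a+1) → values of QQ x)`: at most `(2^(c(a^r B + a^(r+1))))^(a+1)`, and `(a+1) c (a^r B + a^(r+1)) ≤ 2c (a^(r+1) B + a^(r+2))`. -/
def S_QT : Prop :=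
  (∀ (Ω : Type) [Field Ω] (x : Fin 0 → Ω), QQ x 0 2) ∧
  ∀ (n : ℕ) (Ω : Type) [Field Ω] (x : Fin n → Ω) (z : Ω) (r c : ℕ), QQ x r c →
    QQ (Fin.cons z x : Fin (n + 1) → Ω) (r + 1) (2 * c)

/-- (QA1, 120 lines, uses L1a) Power reduction.
PROOF. `H = 2 * max_j l1 (q j) + 1` (max over `j ≤ δ`), `D1 = max totalDegree (q j)`. Induction on `i`: `i = 0`: `1 = z^0`, `R_(0,0) = 1` (`δ ≥ 1`). Step: `q_δ^(i+1) z^(i+1) = q_δ z ∑_(j<δ) R_(i,j) z^j =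
∑_(j<δ-1) q_δ R_(i,j) z^(j+1) + R_(i,δ-1) q_δ z^δ` and `q_δ z^δ = -∑_(j<δ) q_j z^j`. So `R_(i+1,j) = q_δ R_(i,j-1) - R_(i,δ-1) q_j` (first term only for `j ≥ 1`). Degrees `≤ D1 i`, and
`l1 (R_(i+1,j)) ≤ 2 (max l1 q) (max_j l1 (R_(i,j))) ≤ H^(i+1)`. -/
def S_QA1 : Prop :=
  ∀ (ι Ω : Type) [Field Ω] (x : ι → Ω) (z : Ω) (δ : ℕ) (q : ℕ → MvPolynomial ι ℤ), 1 ≤ δ →
    ∑ j ∈ Finset.range (δ + 1), aeval x (q j) * z ^ j = 0 →
    ∃ (D1 H : ℕ), 1 ≤ H ∧ (q δ).totalDegree ≤ D1 ∧ l1 (q δ) ≤ H ∧ ∀ i : ℕ, ∃ R : ℕ → MvPolynomial ι ℤ,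
      (∀ j, (R j).totalDegree ≤ D1 * i) ∧ (∀ j, l1 (R j) ≤ H ^ i) ∧
      aeval x (q δ) ^ i * z ^ i = ∑ j ∈ Finset.range δ, aeval x (R j) * z ^ j

/-- (QA, 150 lines, uses QA1, L1a) Adjoining an algebraic element does not change the exponent.
PROOF. `z` algebraic over `ℚ(x)`: clearing denominators there are `δ ≥ 1`, `q_j ∈ ℤ[X]`, `∑_(j≤δ) q_j(x) z^j = 0`, `q_δ(x) ≠ 0` (elements of `IntermediateField.adjoin ℚ (range x)` are quotients of polynomials in `x`: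
`IntermediateField.mem_adjoin_range_iff`; over `ℚ` clear the rational coefficients too; `δ` = the natural degree of a nonzero polynomial with root `z`). QA1: `D1, H, R_(i,j)`; `H ≤ 2^h`. Let
`P ∈ Bs (Fin (n+1)) a B`, `P(z,x) = ∑_(i≤a) P_i(x) z^i`, `P_i ∈ Bs (Fin n) a B`. `q_δ(x)^a P(z,x) = ∑_(j<δ) S_j(x) z^j`, `S_j = ∑_(i≤a) P_i q_δ^(a-i) R_(i,j)`: total degree `≤ a + D1 a`, coefficients
`≤ (a+1) 2^B H^a ≤ 2^(B + (h+1) a)` (coefficient of a product `≤ max|coeff P_i| · l1(...)`; `l1 (q_δ^(a-i) R_(i,j)) ≤ H^a`). As `q_δ(x)^a ≠ 0` is fixed, `P(z,x)` is determined by `(S_j(x))_(j<δ)`: at most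
`N^δ` values, `N = ` number of values for `((D1+1) a, B + (h+1) a)`, `log2 N ≤ c (((D1+1)a)^r (B + (h+1)a) + ((D1+1)a)^(r+1))`. So `c' = δ c (D1+1)^(r+1) (h+2)` works. -/
def S_QA : Prop :=
  ∀ (n : ℕ) (Ω : Type) [Field Ω] [CharZero Ω] (x : Fin n → Ω) (z : Ω) (r c : ℕ), QQ x r c →
    IsAlgebraic (IntermediateField.adjoin ℚ (Set.range x)) z →
    ∃ c' : ℕ, QQ (Fin.cons z x : Fin (n + 1) → Ω) r c'

/-- (K4, 150 lines, uses QT, QA, BxF) The initial growth property.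
PROOF. Let `b : Fin t → ι` be as in `Tr x t`, `g = x ∘ b`. (i) For every `g : Fin t → Ω` there is `c` with `QQ g t c` (induction on `t`, QT, `g = Fin.cons (g 0) (Fin.tail g)`). (ii) For every `n` and
`z : Fin n → Ω` with all `z i` algebraic over `ℚ(g)` there are `c` and `X : Fin (n + t) → Ω` with `QQ X t c`, `X = Fin.append z g` (or: `X` and an injective `e : Fin n → Fin N` with `X ∘ e = z` and `range g ⊆ range X`):
induction on `n` with QA (algebraic over `ℚ(g)` implies algebraic over `ℚ(X)`, as `range g ⊆ range X`). (iii) `ι ≃ Fin n`, `z = x ∘ (equiv).symm`, an injective `e : ι → Fin N` with `X ∘ e = x`. `rename e` is injective on monomials, so it maps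
`Bx ι a B` into `Bs (Fin N) a B` (`coeff_rename_mapDomain`, `coeff_rename_eq_zero`, `totalDegree_rename_le`) and `aeval X (rename e P) = aeval x P`. Hence `Kc x a B ≤ 2^(c (a^t B + a^(t+1)))`. Take `c ≥ 1`. -/
def S_K4 : Prop :=
  ∀ (ι Ω : Type) [Fintype ι] [Field Ω] [CharZero Ω] (x : ι → Ω) (t : ℕ), Tr x t → ∃ c : ℕ, 1 ≤ c ∧ PP x t c

/-- (PG, 120 lines, uses BxF; statement `S_PG` in `SpecX.lean`) Pigeonhole.
PROOF. For `w : I → {0, …, 2^B - 1}` and `γ : G` let `P_(w,γ) = ∑_i w_i g_(i,γ) + 2^(B+h) J`, `J = ∑_(|m| ≤ d) X^m`. Its coefficients (total degree `≤ d`) are `≥ -(2^B - 1) 2^h + 2^(B+h) ≥ 0` and `< 2^(B+h+1)`, so `P_(w,γ) ∈ Bx d (B+h+1)` and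
`aeval ξ P_(w,γ)` is one of `Kc ξ d (B+h+1)` values. There are `2^(B card I)` functions `w` and fewer vectors of values; two different `w, w'` give the same values for all `γ`; their difference (`|w_i - w'_i| < 2^B`) is the required function. -/
def S_PGhelp : Prop := True

/-! ### The auxiliary polynomial W -/

/-- The two-level polynomial `U^α ∏_i (∑_j U_(i,j) X_j)^(b i) f^c` in `ℤ[X][U]`. -/
noncomputable def GG {ι : Type} [Fintype ι] {r : ℕ} (f : MvPolynomial ι ℤ) (α : Fin r × ι → ℕ) (b : Fin r → ℕ) (c : ℕ) :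
    MvPolynomial (Fin r × ι) (MvPolynomial ι ℤ) :=
  (∏ p, X p ^ α p) * (∏ i, (∑ j, X (i, j) * C (X j)) ^ b i) * C (f ^ c)

/-- (W1, 120 lines) The evaluation and the exponents of `GG`.
PROOF. (1) Evaluate `GG` at `U = u` and then the coefficients at `X = ξ`: the ring homomorphism `eval₂ (aeval ξ) u` maps `X p ↦ u p`, `C (X j) ↦ ξ j`; and `eval₂` of `G` is `∑_(γ ∈ support) aeval ξ (coeff γ G) ∏ u_p^(γ_p)`. By (2) the support is in the box,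
so the sum is over all functions `γ : Fin r × ι → Fin (2H+1)`. (2) `degreeOf p (GG) ≤ α p + b i ≤ 2H` for `p = (i, j)` (`degreeOf_mul_le`, `degreeOf_pow_le`, `degreeOf_sum_le`; the factor number `i` has degree `≤ b i` in `U_(i,j)`, the others `0`). (3) Total degree in `X` of the coefficients: a ring hom. argument or: the set of
`G` all of whose coefficients have total degree `≤ e` is closed under sums, and degrees add for products: `∑ b i + c deg f`. -/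
def S_W1 : Prop :=
  ∀ (ι : Type) [Fintype ι] [DecidableEq ι] (r H : ℕ) (f : MvPolynomial ι ℤ) (α : Fin r × ι → ℕ) (b : Fin r → ℕ) (c : ℕ),
    (∀ p, α p ≤ H) → (∀ i, b i ≤ H) →
    (∀ (Ω : Type) [Field Ω] (ξ : ι → Ω) (u : Fin r × ι → Ω),
      (∏ p, u p ^ α p) * (∏ i, psi u ξ i ^ b i) * aeval ξ f ^ c =
        ∑ γ : Fin r × ι → Fin (2 * H + 1), aeval ξ ((GG f α b c).coeff (Finsupp.equivFunOnFinite.symm fun p => (γ p : ℕ))) *
          ∏ p, u p ^ (γ p : ℕ)) ∧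
    ∀ γ, ((GG f α b c).coeff γ).totalDegree ≤ r * H + c * f.totalDegree

/-- (W2, 80 lines, uses L1a) The coefficients of `GG`.
PROOF. For `G ∈ ℤ[X][U]` let `L G = ∑_(γ ∈ support) l1 (coeff γ G)`. As for `l1` (L1a), `L` is submultiplicative and subadditive; `L (X p) = 1`, `L (C g) = l1 g`. So `L (GG) ≤ ∏_i (card ι)^(b i) (l1 f)^c ≤ n^(r H) (l1 f)^c` with `n = card ι`
(`n ≥ 1`; if `ι` is empty the sum is `0` and `0^(b i) ≤ 1`: use `max n 1`, or `n ≤ 2^n`: the bound `2^(n r H)`), and `∑_γ |coeff_m (coeff_γ G)| ≤ L G`; in particular each is bounded. -/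
def S_W2 : Prop :=
  ∀ (ι : Type) [Fintype ι] [DecidableEq ι] (r H : ℕ) (f : MvPolynomial ι ℤ) (α : Fin r × ι → ℕ) (b : Fin r → ℕ) (c : ℕ),
    (∀ i, b i ≤ H) → ∀ γ m, |((GG f α b c).coeff γ).coeff m| ≤ ((2 ^ (Fintype.card ι * r * H) * l1 f ^ c : ℕ) : ℤ)

/-- (W, 250 lines, uses PG, W1, W2, L1s, L1a) The auxiliary polynomial `W` in the variables `U_(i,j)`, `T_i` and `Z` (`none`).
PROOF. Let `n = card ι`, `Q = 2^(r n) (r+1)^r s`, `M = 2 Q`, `H = d M`, `C1 = r n + r + 1 + n r + (n + 1)`, `B = (C1 + r + 3) H`. Index set `I = (Fin r × ι → Fin (H+1)) × (Fin r → Fin (H+1)) × Fin (M+1)` of triples `(α, b, c)`,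
`G = (Fin r × ι → Fin (2H+1))`, `g_((α,b,c),γ) = (GG f α b c).coeff γ`. Total degree `≤ r H + M d = (r+1) H` (W1). Coefficients: `|coeff| ≤ 2^(n r H) (l1 f)^c ≤ 2^(n r H + (n+1) d M)` (W2, L1s, `c ≤ M`; `l1 f ≤ 2^((n+1)d)`), and there are
`(H+1)^(rn+r) (M+1) ≤ 2^((rn+r+1) H)` triples (`H + 1 ≤ 2^H`, `M + 1 ≤ 2^M ≤ 2^H`), so `h = C1 H`. Condition of PG: `Kc ξ ((r+1)H) (B+h+1) ≤ 2^(s(((r+1)H)^r (B+h+1) + ((r+1)H)^(r+1)))` and we need
`(2H+1)^(rn) s ((r+1)H)^r (B + h + 1 + (r+1)H) < B (H+1)^(rn+r) (M+1)`: since `2H+1 ≤ 2(H+1)` and `H^r ≤ (H+1)^r`, it is enough that `Q (B + C1 H + 1 + (r+1) H) < B (2Q+1)`, i.e.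
`Q (C1 H + 1 + (r+1)H) < B (Q + 1)`, true as `C1 H + 1 + (r+1) H ≤ (C1 + r + 2) H ≤ B`, `B > 0`. PG gives `w : I → ℤ`. `W = ∑ w_(α,b,c) U^α T^b Z^c ≠ 0` (distinct monomials), and for all `u`: the value at `(u, psi u ξ, aeval ξ f)` is
`∑ w_i ∑_γ aeval ξ (g_(i,γ)) u^γ = 0` — for `u` in ANY field `Ω` containing the values: here `u : Fin r × ι → ℂ`, `ξ : ι → ℂ`. Total degree `≤ r n H + r H + M ≤ (rn + r + 1) H`, coefficients `< 2^B`. Both `≤ C s d` resp. `2^(C s d)` with a constant `C` depending on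
`n, r` only (`H = d M = 2^(rn+1) (r+1)^r s d`). -/
def S_W : Prop :=
  ∀ (ι : Type) [Fintype ι] [DecidableEq ι] (r : ℕ), ∃ C : ℕ, 1 ≤ C ∧ ∀ (ξ : ι → ℂ) (s d : ℕ) (f : MvPolynomial ι ℤ), 1 ≤ s → 1 ≤ d →
    PP ξ r s → Sz f d → ∃ W : MvPolynomial (Option (BU ι r)) ℤ, W ≠ 0 ∧ Sz W (C * s * d) ∧
      ∀ u : Fin r × ι → ℂ, aeval (ev (aeval ξ f) (Sum.elim u (psi u ξ))) W = 0

/-- (G1, 80 lines) Lagrange interpolation at integers, one variable over a polynomial ring.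
PROOF. `P = ∑_i P(a_i) ∏_(l≠i) (X - a_l)/(a_i - a_l)` (over `ℚ`, `deg P ≤ k`, `k+1` distinct integers `a_0, …, a_k ∈ [0, 2k]`). The coefficient of `X^e` of `∏_(l≠i)(X - a_l)` is at most `(1 + 2k)^k` in absolute value, `|∏ (a_i - a_l)| ≥ 1`. Apply this for
each coefficient (in the other variables) separately: here `v i` is the coefficient of a fixed monomial in `P(a_i)` and `c e` is the coefficient of this monomial in the coefficient of `X^e`, so `v i = ∑_e c_e a_i^e`. -/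
def S_G1 : Prop :=
  ∀ (k : ℕ) (c : ℕ → ℤ) (a : Fin (k + 1) → ℕ) (H : ℤ), Function.Injective a → (∀ i, a i ≤ 2 * k) →
    (∀ i, |∑ e ∈ Finset.range (k + 1), c e * (a i : ℤ) ^ e| ≤ H) →
    ∀ e ∈ Finset.range (k + 1), |c e| ≤ ((k + 1) * (2 * k + 1) ^ k : ℕ) * H

/-- (G2, 200 lines, uses G1) Gelfond's lemma (weak form).
PROOF. Induction on `n`. `n = 0`: `P, Q` are integers, `Q ≠ 0`: `|P| ≤ |P Q|`. Step `n + 1`: regard `P, Q, W = P Q` as polynomials in `X_0` over `R = MvPolynomial (Fin n) ℤ` (`finSuccEquiv`); degrees in `X_0` are at most `k` (`natDegree_finSuccEquiv`, degrees add in a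
domain; if `P = 0` trivial), also `Q` has at most `k` roots in `R`, so among `0, …, 2k` there are `k + 1` integers `a` with `Q(a) ≠ 0` (`Polynomial.card_roots`). For these: `P(a) Q(a) = W(a)` in `R`, `Q(a) ≠ 0`; the degrees of `W(a)` in the other variables are `≤ k`; the coefficients
of `W(a) = ∑_(e≤k) W_e a^e` are `≤ (k+1)(2k)^k H ≤ (k+1)(2k+1)^k H`. By induction the coefficients of `P(a)` are `≤ ((k+1)(2k+1)^k)^(2n) (k+1)(2k+1)^k H`; by G1 those of `P` are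
`≤ ((k+1)(2k+1)^k)^(2n+2) H`. Evaluate `finSuccEquiv P` at the constant `C a`: coefficients `coeff m (P(a)) = ∑_e coeff m (P_e) a^e`. -/
def S_G2 : Prop :=
  ∀ (n k : ℕ) (P Q : MvPolynomial (Fin n) ℤ) (H : ℤ), Q ≠ 0 → (∀ i, degreeOf i (P * Q) ≤ k) →
    (∀ m, |(P * Q).coeff m| ≤ H) → ∀ m, |P.coeff m| ≤ (((k + 1) * (2 * k + 1) ^ k) ^ (2 * n) : ℕ) * H

/-- (E, 150 lines, uses W, G2) THE POLYNOMIAL `E`.
PROOF. The set `𝔎` of all `P` in `MvPolynomial (Option (BU ι r)) ℤ` with `P(u, psi u ξ, aeval ξ f) = 0` for all `u : Fin r × ι → ℂ` is a prime ideal: substituting `T_i ↦ ∑_j ξ_j U_(i,j)`, `Z ↦ aeval ξ f` is a ring homomorphism to the domain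
`MvPolynomial (Fin r × ι) ℂ`, and a polynomial over `ℂ` vanishing at all `u` is zero (`MvPolynomial.funext`). `W ∈ 𝔎`, `W ≠ 0`, not a unit (a unit is `±1`, not in `𝔎`); `W` is a product of irreducible elements (`WfDvdMonoid`/UFD), one of which, `E`, is in `𝔎`. `E ∣ W`, `W = E Q`, `Q ≠ 0`: total degree of
`E` at most that of `W` (`totalDegree_mul_of_isDomain`), `≤ K := C s d` where `C` is the constant of `W`. Coefficients: G2 after renaming `Option (BU ι r) ≃ Fin v`: `k = K` (degreeOf `≤` total degree), `H = 2^K`: `≤ ((K+1)(2K+1)^K)^(2v) 2^K ≤ 2^((6v+1) K^2)`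
(`K + 1 ≤ 2^K`, `(2K+1)^K ≤ 2^(2K^2)` for `K ≥ 1`). Take `C' = max (C, (6 v + 1) C^2)`; the statement separates: total degree `≤ C' s d` and coefficients `≤ 2^(C' (s d)^2)`. -/
def S_E : Prop :=
  ∀ (ι : Type) [Fintype ι] [DecidableEq ι] (r : ℕ), ∃ C : ℕ, 1 ≤ C ∧ ∀ (ξ : ι → ℂ) (s d : ℕ) (f : MvPolynomial ι ℤ), 1 ≤ s → 1 ≤ d →
    PP ξ r s → Sz f d → ∃ E : MvPolynomial (Option (BU ι r)) ℤ, Irreducible E ∧ E.totalDegree ≤ C * s * d ∧
      (∀ m, |E.coeff m| ≤ 2 ^ (C * (s * d) ^ 2)) ∧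
      ∀ u : Fin r × ι → ℂ, aeval (ev (aeval ξ f) (Sum.elim u (psi u ξ))) E = 0

/-- (Lio, 200 lines, uses PG, L1s, L1a) LIOUVILLE INEQUALITY at algebraic points (`PP ξ 0 s`).
PROOF. If `‖f(y)‖ ≥ 1` there is nothing to prove. Let `n = card ι`, `M = 2s`, `C1 = n + 2`, `B = C2 d s`, `C2` large. PG with `I = Fin (M+1)`, `G = Unit`, `g_c = f^c`: total degree `≤ d M`; `∑_c |coeff| ≤ (M+1) (l1 f)^M ≤ 2^(M + (n+1) d M) ≤ 2^(C1 d M)` (`M + 1 ≤ 2^M`), `h = C1 d M`. `Kc ξ (dM) (B+h+1) ≤ 2^(s (B + h + 1 + d M))` (`PP ξ 0 s`, exponent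
`a^0 B + a^1`). We need `s (B + h + 1 + dM) < B (2s+1)`: `s (h + 1 + d M) < B (s+1)`: enough `h + 1 + dM ≤ (C1 + 2) d M = 2 (C1+2) d s ≤ B`. So `C2 = 2(C1+2)`. We get `w_c`, not all zero, `|w_c| < 2^B`, `∑_c w_c f(ξ)^c = 0`. Since `f(y) ≠ 0`, `f(ξ) ≠ 0` (`Spc`). Let `i` be minimal with
`w_i ≠ 0`; dividing by `f(ξ)^i`, `∑_(c≥i) w_c f(ξ)^(c-i) = 0`; the polynomial `∑_(c ≥ i) w_c f^(c-i)` vanishes at `ξ`, so at `y`: `|w_i| ≤ ∑_(c>i) |w_c| ‖f(y)‖^(c-i) ≤ M 2^B ‖f(y)‖`. So `1 ≤ M 2^B ‖f(y)‖ ≤ 2^(C s d) ‖f(y)‖`. -/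
def S_Lio : Prop :=
  ∀ (ι : Type) [Fintype ι], ∃ C : ℕ, 1 ≤ C ∧ ∀ (ξ y : ι → ℂ) (s d : ℕ) (f : MvPolynomial ι ℤ), 1 ≤ s → 1 ≤ d →
    PP ξ 0 s → Spc ξ y → Sz f d → aeval y f ≠ 0 → 1 ≤ ‖aeval y f‖ * 2 ^ (C * s * d)

end Pool.Agent.SMQ
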