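import Pool.Agent.Lib.MP_452a87_nt.SpecA

/-!
# Part L: LINEAR large transcendence degree (loss-free elimination)

`2 ^ m ≤ 6 (t + 1)` for the transcendence degree `t` of the `2 ^ m` numbers `th a L U`. The task `X` is to write `L/X.lean` with
`theorem pX (h1 : S_..) ... : S_X`; statements used are hypotheses, so all modules are independent. Definitions and framework: `Defs.lean`,
`SpecX.lean`, `SpecK.lean`, `SpecA.lean` of helper4 (points with values in fields, specializations `Spc`, `Tr`, generic `u`).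

Idea. A FORM `G` of a point `ξ` of transcendence degree `r` is the irreducible relation over `ℤ` between `r + 1` generic linear forms
`T_i = ∑_j U_(i,j) ξ_j`. For given values of the rows `1, …, r` and of `T_1, …, T_r` it is `e(U) ∏_i (T_0 - v · z_i)` where the `z_i` are the points of the variety of
`ξ` on the linear space `T_k = ∑ U_(k,j) X_j`, `k ≥ 1` (`v` = row `0`) (LGp, LG2). For a polynomial `f` with `f(ξ) ≠ 0` the norm `R = e^d ∏ f(z_i)` is a polynomial over `ℤ` in `U, T` (LRe),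
its irreducible factors (which contain `T`) are forms of points `ξ'` with `f(ξ') = 0` of transcendence degree `r - 1` (LFc). Sizes are additive (LMu, Gelfond), and for
`θ ∈ ℂ^ι` the number `-log` of the sup norm of `G(U, U θ)` on the unit polydisc is also additive (LG), and `R(U, U θ) = e^d ∏ f(z_i)` is small since `f(z_i)` is at most
`|f(θ)| + |z_i - θ|` up to size factors, while `|e| ∏ |z_i - θ|` is at most the sup norm of `G(U, U θ)` (LKy). So nothing is lost in the elimination step except factors which depend on the size of `f`.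
-/

set_option autoImplicit false

namespace Pool.Agent.SMQ

open MvPolynomial

/-- `G` is a form of the point `ξ`: the irreducible relation between `r + 1` generic linear forms in `ξ`. -/
def Frm {ι : Type} [Fintype ι] (ξ : ι → ℂ) (r : ℕ) (G : MvPolynomial (BU ι (r + 1)) ℤ) : Prop :=
  Irreducible G ∧ ∀ u : Fin (r + 1) × ι → ℂ, aeval (Sum.elim u (psi u ξ)) G = 0

/-- The size of a polynomial: total degree plus logarithm of the sum of the absolute values of the coefficients. -/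
noncomputable def sz {σ : Type} (G : MvPolynomial σ ℤ) : ℝ := (G.totalDegree : ℝ) + Real.log (l1 G : ℝ)

/-- The scalar product. -/
def dot {ι Ω : Type} [Field Ω] [Fintype ι] (v x : ι → Ω) : Ω := ∑ j, v j * x j

/-- The unit polydisc. -/
def Dsc {σ : Type} (u : σ → ℂ) : Prop := ∀ p, ‖u p‖ ≤ 1

/-- The value of `P(U, T)` at `U = u`, `T = U θ`. -/
noncomputable def vt {ι : Type} [Fintype ι] {r : ℕ} (θ : ι → ℂ) (P : MvPolynomial (BU ι r) ℤ) (u : Fin r × ι → ℂ) : ℂ :=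
  aeval (Sum.elim u (psi u θ)) P

/-- The data of the points on a linear section: for all `(u, t)` with `e(u) ≠ 0` there are `g` specializations `z i` of `ξ` with `psi u (z i) = t`,
`G(v, T; u, t) = e(u) ∏ (T - v · z i)` and `R(u, t) = e(u)^d ∏ f(z i)`. -/
def Sec {ι : Type} [Fintype ι] {r : ℕ} (ξ : ι → ℂ) (G : MvPolynomial (BU ι (r + 1)) ℤ) (g : ℕ)
    (e : MvPolynomial (Fin r × ι) ℤ) (f : MvPolynomial ι ℤ) (d : ℕ) (R : MvPolynomial (BU ι r) ℤ) : Prop :=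
  ∀ (u : Fin r × ι → ℂ) (t : Fin r → ℂ), aeval u e ≠ 0 → ∃ z : Fin g → ι → ℂ,
    (∀ i, Spc ξ (z i) ∧ psi u (z i) = t) ∧
    (∀ (v : ι → ℂ) (T : ℂ), aeval (Sum.elim (full v u) (Fin.cons T t : Fin (r + 1) → ℂ)) G =
      aeval u e * ∏ i, (T - dot v (z i))) ∧
    aeval (Sum.elim u t) R = aeval u e ^ d * ∏ i, aeval (z i) f

/-- The auxiliary polynomials with polynomial coefficients. -/
noncomputable def fsP {m : ℕ} (a : Fin m → ℕ) (N : ℕ) (P : (Finset (Fin m) → Fin N) → MvPolynomial (Finset (Fin m)) ℤ)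
    (s : Finset (Fin m) → ℕ) : MvPolynomial (Finset (Fin m)) ℤ :=
  ∑ lam : Finset (Fin m) → Fin N, P lam * ∏ W, X W ^ cv a (fun U => (lam U : ℕ)) s W

/-- The state of the iteration: a specialization `ξ` of `θ = th a L` of transcendence degree `r`, a form `G` of size at most `S` and small at `θ`. -/
def Stt {m : ℕ} (a : Fin m → ℕ) (L : ℂ) (r : ℕ) (S κ : ℝ) : Prop :=
  ∃ (ξ : Finset (Fin m) → ℂ) (G : MvPolynomial (BU (Finset (Fin m)) (r + 1)) ℤ), Spc (th a L) ξ ∧ Tr ξ r ∧ Frm ξ r G ∧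
    sz G ≤ S ∧ ∀ u, Dsc u → ‖vt (th a L) G u‖ ≤ Real.exp (-(κ * sz G))

/-! ### Algebra -/

/-- (LId, 80 lines) Identities at a generic `u` specialize.
PROOF. Substituting `T_i ↦ ∑_j X_j U_(i,j)` in `P` gives a polynomial in `U` with coefficients `c_m ∈ ℤ[X]`, and `P(u, psi u y) = ∑_m c_m(y) u^m` for all `u, y` (over every field). At `(ξ, u0)` it is zero and `u0` is algebraically independent over `ℚ(ξ)`, so all
`c_m(ξ) = 0`, so `c_m(y) = 0` (`Spc`). (In Lean: the ring homomorphism `MvPolynomial (BU ι r) ℤ → MvPolynomial (Fin r × ι) (MvPolynomial ι ℤ)`, `Sum.inl p ↦ X p`, `Sum.inr i ↦ ∑_j X (i,j) * C (X j)`, compare `GG` in SpecK.) -/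
def S_LId : Prop :=
  ∀ (ι : Type) [Fintype ι] [DecidableEq ι] (r : ℕ) (ξ y : ι → ℂ) (P : MvPolynomial (BU ι r) ℤ) (u0 : Fin r × ι → ℂ),
    Spc ξ y → GenOver u0 ξ → aeval (Sum.elim u0 (psi u0 ξ)) P = 0 →
    ∀ u : Fin r × ι → ℂ, aeval (Sum.elim u (psi u y)) P = 0

/-- (LFe, 150 lines, uses LId, TrU, Gnx) Existence of a form.
PROOF. `𝔎` = the set of all `P` with `P(u, psi u ξ) = 0` for all `u`, a prime ideal (kernel of `U ↦ U, T_i ↦ ∑_j ξ_j U_(i,j)` into the domain `MvPolynomial _ ℂ`; a polynomial over `ℂ` vanishing everywhere is zero). It does not contain `1`. It is not zero: let `u` be generic over `ξ` (Gnx), `b : Fin r → ι` the transcendence basis of `Tr ξ r`.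
All coordinates of `x = Sum.elim u (psi u ξ)` (`(r+1) n + (r+1)` of them, `n = card ι`) are algebraic over `ℚ(Sum.elim u (ξ ∘ b))` (`(r+1) n + r` generators), so by TrU `x` is not algebraically independent (an independent family `x` has `Tr x (card)`); there is `P ≠ 0` over `ℤ` with `P(x) = 0`, and `P ∈ 𝔎` by LId with
`y = ξ`. Factor `P` into irreducibles (UFD): one of them is in `𝔎`. -/
def S_LFe : Prop :=
  ∀ (ι : Type) [Fintype ι] [DecidableEq ι] (r : ℕ) (ξ : ι → ℂ), Tr ξ r → ∃ G : MvPolynomial (BU ι (r + 1)) ℤ, Frm ξ r G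

/-- (LSy, 200 lines) Conjugates and symmetric functions over a subfield `K` of `ℂ`.
PROOF. `L = K(range x)` is finite over `K` (`ι` finite). Let `z` enumerate the `σ ∘ x`, `σ : L →ₐ[K] ℂ` (finite, nonempty: the inclusion; `σ ↦ σ ∘ x` is injective since `x` generates `L`). Then `aeval (σ ∘ x) P = σ (aeval x P)` for `P` over `K`, so the equivalence. Let `A` be the algebraic closure of `K` in `ℂ`
(`algebraicClosure K ℂ`, algebraically closed, Galois over `K` as the characteristic is `0`); the `z i` have coordinates in `A`. For `τ ∈ Gal(A/K)` the map `τ` permutes the finite set `{z i}` (`τ ∘ z i` comes from the embedding `τ ∘ σ_i`; injective, hence a permutation). The polynomial `∏_i Φ(W, z i)` (in `MvPolynomial τ A`) is the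
product over all `i`, so its coefficients are fixed by all `τ`, so they are in `K` (`IsGalois.mem_bot_iff_fixed` or `InfiniteGalois.fixedField_bot`-type statement). -/
def S_LSy : Prop :=
  ∀ (ι : Type) [Fintype ι] (K : IntermediateField ℚ ℂ) (x : ι → ℂ), (∀ j, IsAlgebraic K (x j)) →
    ∃ (g : ℕ) (z : Fin g → ι → ℂ), 1 ≤ g ∧ Function.Injective z ∧ (∃ i, z i = x) ∧
      (∀ (i : Fin g) (P : MvPolynomial ι K), aeval (z i) P = 0 ↔ aeval x P = 0) ∧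
      ∀ (τ : Type) [Finite τ] (Φ : MvPolynomial (τ ⊕ ι) ℤ), ∃ Ψ : MvPolynomial τ K, ∀ w : τ → ℂ,
        ∏ i, aeval (Sum.elim w (z i)) Φ = aeval w Ψ

/-- (LHp, 250 lines, uses LSy, A1v, P1) The product of the conjugate linear forms has coefficients in `ℚ(u')[t']`.
PROOF. `t' = psi u' ξ`, `K = ℚ(range (Sum.elim u' t'))`, `k = ℚ(range u')`, `N = k[t'] ⊆ K`. By A1v (`GenOver u' ξ` implies that `u'` is algebraically independent over `ℚ`) every `ξ j` is integral over `N`, so algebraic over `K`. LSy for `K`, `x = ξ`: `g, z`. The first `Spc`: a relation over `ℤ` between `u', t', ξ` is a relation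
over `K` for `ξ`. `Spc (z i) ξ`: a relation over `ℤ` for `z i` is one over `K`. The last property is LSy with `τ` empty (`aeval w Ψ` is then an element of `K`). Let `Φ = T - ∑ v_j X_j` with `τ = Option ι` (`T = none`): `Ψ ∈ K[v, T]`, `Ψ(v, T) = ∏ (T - v · z_i)`. Every coefficient of `Ψ` is a polynomial over `ℤ` in the `z_i j`
(expand the product in `MvPolynomial (Option ι) ℂ`; two polynomials over `ℂ` with the same values are equal), and `z_i j` is integral over `N` (the monic equation of `ξ j` over `N` is a relation over `K`). `N` is isomorphic to the polynomial ring in `r` variables over the field `k` (by P1 `t'` is algebraically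
independent over `k`), so integrally closed, with fraction field `K`. So the coefficients of `Ψ` are in `N`, i.e. of the form `a_μ(u', t')/s_μ(u')` with `a_μ ∈ ℤ[U, T]`, `s_μ ∈ ℤ[U]`, `s_μ(u') ≠ 0`. With `s = ∏ s_μ` let `H = ∑_μ (s/s_μ)(U) a_μ(U, T) (v, T_0)^μ`, where `U` is in the rows `1, …, r`, `T` is
`T_1, …, T_r`, `v` is the row `0`. -/
def S_LHp : Prop :=
  ∀ (ι : Type) [Fintype ι] [DecidableEq ι] (r : ℕ) (ξ : ι → ℂ) (u' : Fin r × ι → ℂ), Tr ξ r → GenOver u' ξ →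
    ∃ (g : ℕ) (z : Fin g → ι → ℂ) (H : MvPolynomial (BU ι (r + 1)) ℤ) (s : MvPolynomial (Fin r × ι) ℤ),
      1 ≤ g ∧ Function.Injective z ∧ (∃ i, z i = ξ) ∧
      (∀ i, Spc (Sum.elim (Sum.elim u' (psi u' ξ)) ξ) (Sum.elim (Sum.elim u' (psi u' ξ)) (z i)) ∧ Spc (z i) ξ) ∧
      s ≠ 0 ∧ (∀ (v : ι → ℂ) (T : ℂ), aeval (Sum.elim (full v u') (Fin.cons T (psi u' ξ) : Fin (r + 1) → ℂ)) H =
        aeval u' s * ∏ i, (T - dot v (z i))) ∧
      ∀ Φ : MvPolynomial ι ℤ, (∏ i, aeval (z i) Φ) ∈ IntermediateField.adjoin ℚ (Set.range (Sum.elim u' (psi u' ξ)))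

/-- (LGp, 250 lines, uses LHp, LId, Gau, P1, Gnx) THE FORM at a generic section.
PROOF. LHp: `g, z, H, s`; `t' = psi u' ξ`. (i) `H(u, psi u ξ) = 0` for all `u`: choose `v` generic over `Sum.elim ξ u'` (Gnx); `full v u'` is generic over `ξ` and `psi (full v u') ξ = Fin.cons (dot v ξ) t'`, so `H` vanishes there (`z i = ξ` for some `i`); LId. (ii) `G ∣ H`: Gau after the renaming `sepIdx` (`T_0` becomes `none`), with the
algebraically independent point `Sum.elim (full v u') t'` (P1 gives `(u', t')` independent; `v` is independent over `ℚ(ξ, u')`). `H = G Q`. (iii) Let `γ, q` be the polynomials over `ℂ` in `v, T` obtained from `G, Q` by inserting `u', t'`, regarded in `(MvPolynomial ι ℂ)[T]`, and `F = ∏ (T - ℓ_i)`, `ℓ_i = ∑_j z_i j v_j`. `γ q = s(u') F`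
(as functions, so as polynomials). `γ` vanishes at `T = ℓ_i`: for integers `v` the number `G(full v u', Fin.cons (v · z_i) t')` is zero by the first `Spc` (for `ξ` it is zero), and a polynomial in `v` vanishing at all integer points is zero. The `ℓ_i` are distinct (`z` injective), so `F ∣ γ` (product over distinct roots in a domain),
`γ = F h`, `h q = s(u')`, a nonzero constant. So `h = c`, `q = c'` are constants (`MvPolynomial` and `Polynomial` over a domain: degrees add). (iv) `c` is the coefficient of `T^g v^0` of `γ`, so `c = e1(u', t')` with `e1 ∈ MvPolynomial (BU ι r) ℤ` the coefficient of `T_0^g` (and `v^0`) of `G`; `c' = e2(u', t')` with `e2` the coefficient of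
`T_0^0 v^0` of `Q`. `e1 e2 = rename Sum.inl s` (P1: equal values at an independent point). A divisor of a nonzero polynomial free of the variables `T` is free of them (`degreeOf` is additive in a domain): `e1 = rename Sum.inl e`, `e ≠ 0`. `g ≤ G.totalDegree` since `e1 ≠ 0`. -/
def S_LGp : Prop :=
  ∀ (ι : Type) [Fintype ι] [DecidableEq ι] (r : ℕ) (ξ : ι → ℂ) (G : MvPolynomial (BU ι (r + 1)) ℤ) (u' : Fin r × ι → ℂ),
    Tr ξ r → Frm ξ r G → GenOver u' ξ → ∃ (g : ℕ) (z : Fin g → ι → ℂ) (e : MvPolynomial (Fin r × ι) ℤ),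
      1 ≤ g ∧ g ≤ G.totalDegree ∧ e ≠ 0 ∧
      (∀ i, Spc (Sum.elim (Sum.elim u' (psi u' ξ)) ξ) (Sum.elim (Sum.elim u' (psi u' ξ)) (z i)) ∧ Spc (z i) ξ) ∧
      (∀ (v : ι → ℂ) (T : ℂ), aeval (Sum.elim (full v u') (Fin.cons T (psi u' ξ) : Fin (r + 1) → ℂ)) G =
        aeval u' e * ∏ i, (T - dot v (z i))) ∧
      ∀ Φ : MvPolynomial ι ℤ, (∏ i, aeval (z i) Φ) ∈ IntermediateField.adjoin ℚ (Set.range (Sum.elim u' (psi u' ξ)))

/-- (LVl, 150 lines) Valuations and products of linear forms.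
PROOF. For each `i` let `c_i` be an element of maximal valuation among `1, z_i j` (`j : ι`) (`V.valuation`, `Finset.exists_max_image`), `c_i ≠ 0`. The polynomial `ℓ_i = c_i⁻¹ (T - ∑ v_j z_i j)` (in `MvPolynomial (Option ι) Ω`) has coefficients in `V`, one of them is `±1`. Suppose `w = e0 ∏ c_i ∉ V`. Then `w⁻¹` is in the maximal
ideal of `V` and `∏ ℓ_i = w⁻¹ Q` has all coefficients in the maximal ideal. But the reductions of the `ℓ_i` to the residue field are nonzero polynomials and their product is nonzero, contradiction. So `w ∈ V`. `f` is a sum of monomials `c z^α` with `|α| ≤ d`, `c ∈ ℤ ⊆ V`, and `z_i^α / c_i^d = ∏ (z_i j/c_i)^(α j) (1/c_i)^(d-|α|) ∈ V`.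
So `f(z_i)/c_i^d ∈ V` and `e0^d ∏ f(z_i) = w^d ∏ (f(z_i)/c_i^d) ∈ V`. -/
def S_LVl : Prop :=
  ∀ (ι Ω : Type) [Fintype ι] [Field Ω] (V : ValuationSubring Ω) (g : ℕ) (z : Fin g → ι → Ω) (e0 : Ω)
    (Q : MvPolynomial (Option ι) Ω), (∀ μ, Q.coeff μ ∈ V) →
    Q = C e0 * ∏ i, (X none - ∑ j, C (z i j) * X (some j)) →
    ∀ (f : MvPolynomial ι ℤ) (d : ℕ), f.totalDegree ≤ d → e0 ^ d * ∏ i, aeval (z i) f ∈ V

/-- (LRe, 150 lines, uses LVl) The norm is a polynomial over `ℤ`.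
PROOF. `O` = the range of `aeval (Sum.elim u' t')` on `MvPolynomial (BU ι r) ℤ`, a subring of `ℂ` isomorphic to a polynomial ring over `ℤ`, so integrally closed, with fraction field `K = ℚ(range (Sum.elim u' t'))`. Let `w = e(u')^d ∏ f(z_i)`. `w ∈ K` (hypothesis, `e(u') ∈ K`). For every valuation subring `V ⊇ O` of `ℂ`: the polynomial
`G(v, T; u', t')` in `v, T` has coefficients in `O ⊆ V` and is `e(u') ∏ (T - v · z_i)`; LVl: `w ∈ V`. So `w` is integral over `O` (`iInf_valuationSubring_superset`, `Mathlib/RingTheory/Valuation/LocalSubring.lean`), hence `w ∈ O`. -/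
def S_LRe : Prop :=
  ∀ (ι : Type) [Fintype ι] [DecidableEq ι] (r g : ℕ) (u' : Fin r × ι → ℂ) (t' : Fin r → ℂ) (G : MvPolynomial (BU ι (r + 1)) ℤ)
    (z : Fin g → ι → ℂ) (e : MvPolynomial (Fin r × ι) ℤ), AlgebraicIndependent ℚ (Sum.elim u' t') →
    (∀ (v : ι → ℂ) (T : ℂ), aeval (Sum.elim (full v u') (Fin.cons T t' : Fin (r + 1) → ℂ)) G =
      aeval u' e * ∏ i, (T - dot v (z i))) →
    (∀ Φ : MvPolynomial ι ℤ, (∏ i, aeval (z i) Φ) ∈ IntermediateField.adjoin ℚ (Set.range (Sum.elim u' t'))) →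
    ∀ (f : MvPolynomial ι ℤ) (d : ℕ), f.totalDegree ≤ d → ∃ R : MvPolynomial (BU ι r) ℤ,
      aeval (Sum.elim u' t') R = aeval u' e ^ d * ∏ i, aeval (z i) f

/-- (LG2, 200 lines, uses LGp, LRe, Ext, P1, Gnx) THE SECTIONS.
PROOF. Let `u'` be generic over `ξ` (Gnx), `t' = psi u' ξ`; LGp: `g, z⁰, e`. LRe: `R` with `R(u', t') = e(u')^d ∏ f(z⁰_i)`. `R ≠ 0`: `e(u') ≠ 0` (`u'` independent) and `f(z⁰_i) ≠ 0` since `Spc (z⁰_i) ξ` and `f(ξ) ≠ 0`. Let `(u, t)` with `e(u) ≠ 0`. `x = Sum.elim u' t'` is algebraically independent (P1), so `Spc x x'` for `x' = Sum.elim u t`.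
`κ = Fin g × ι`, `z(i,j) = z⁰_i j`: it is a root of `G` with row `0` = the unit vector `j`, as a polynomial `P_j` in `T_0` over `MvPolynomial (BU ι r) ℤ`, whose image under `x` is `e(u') ∏_i (T - z⁰_i j)`; as `x` is independent its leading coefficient is `rename Sum.inl e`, whose value at `x'` is `e(u) ≠ 0`. Ext: `z : Fin g × ι → ℂ` with
`Spc (Sum.elim x z⁰) (Sum.elim x' z)`. Every relation over `ℤ` between `x` and `z⁰` holds for `x'` and `z`: (1) `R(x) = e^d ∏ f(z_i)`; (2) for all integer vectors `v` and integers `T`: `G(v, T; x) = e ∏ (T - v · z_i)`; hence for all complex `v, T` (polynomials in `v, T` equal at all integer points); (3) `t_k = ∑_j u_(k,j) z_i j` (holds for `x, z⁰_i` by the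
first `Spc` of LGp); (4) if `P(ξ) = 0` then `P(z⁰_i) = 0`, so `P(z_i) = 0`: `Spc ξ (z_i)`. -/
def S_LG2 : Prop :=
  ∀ (ι : Type) [Fintype ι] [DecidableEq ι] (r : ℕ) (ξ : ι → ℂ) (G : MvPolynomial (BU ι (r + 1)) ℤ), Tr ξ r → Frm ξ r G →
    ∃ (g : ℕ) (e : MvPolynomial (Fin r × ι) ℤ), 1 ≤ g ∧ g ≤ G.totalDegree ∧ e ≠ 0 ∧
      ∀ (f : MvPolynomial ι ℤ) (d : ℕ), aeval ξ f ≠ 0 → f.totalDegree ≤ d →
        ∃ R : MvPolynomial (BU ι r) ℤ, R ≠ 0 ∧ Sec ξ G g e f d R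

/-- (LHy, 150 lines) A generic complex point of a hypersurface over `ℤ`.
PROOF. `π` is prime (UFD). `A = MvPolynomial σ ℤ ⧸ (π)` is a domain, its fraction field `F` has characteristic `0` (`π` does not divide a nonzero integer `n`: a divisor of a constant is a constant, by total degrees). `F` is countable. It embeds into `ℂ`: choose a transcendence basis `s` of `F` over `ℚ` (countable) and an injection of `s` into a
transcendence basis of `ℂ` over `ℚ` (uncountable: otherwise `ℂ` would be countable, `Algebra.IsAlgebraic.cardinalMk_le..`; or use `IsAlgClosed.lift` and `Cardinal` facts); `ℚ(s) → ℂ`, and `F` is algebraic over `ℚ(s)`: `IsAlgClosed.lift`. (Alternative: choose the coordinates one after the other: let `k` be a variable occurring in `π`; choose the other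
coordinates algebraically independent over `ℚ`, and the coordinate `k` a root of `π` with these values inserted; that `π` divides every `P` vanishing there is `S_Gau` of SpecA.) `x` = the image of the variables. -/
def S_LHy : Prop :=
  ∀ (σ : Type) [Finite σ] (π : MvPolynomial σ ℤ), Irreducible π → (∀ n : ℤ, π ≠ C n) →
    ∃ x : σ → ℂ, ∀ P : MvPolynomial σ ℤ, aeval x P = 0 ↔ π ∣ P

/-- (LFc, 250 lines, uses LHy, LId, TrE, TrU, A2) THE FACTORS of the norm are forms.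
PROOF. `n = card ι`. `π` is not a constant (it would be `rename Sum.inl (C _)`). LHy: `x = Sum.elim u T` with `P(x) = 0 ↔ π ∣ P`. (1) `u` is algebraically independent over `ℚ`: if `l ≠ 0` and `l(u) = 0` then `π ∣ rename Sum.inl l`, and divisors of a nonzero polynomial free of `T` are free of `T`. So `e(u) ≠ 0`. Sec for `(u, T)`: `z`. `π ∣ R`, so
`0 = R(x) = e(u)^d ∏ f(z_i)` and `f(z_i) = 0` for some `i`. `ξ' = z_i`: `Spc ξ ξ'`, `f(ξ') = 0`, `psi u ξ' = T`. (2) `Tr ξ' r'` (TrE), `r' < ρ + 1` (A2), `b' : Fin r' → ι` the basis. (3) `π` contains some `T_k` (`degreeOf (Sum.inr k) π > 0`). The `(ρ+1) n + ρ` coordinates of `x` other than `T_k` are algebraically independent over `ℚ` (a relation `P`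
free of `T_k` would be divisible by `π`). They are in `ℚ(u, ξ')`, algebraic over `ℚ(w)`, `w = Sum.elim u (ξ' ∘ b')` (`(ρ+1) n + r'` members). TrU: `(ρ+1)n + ρ ≤ (ρ+1) n + r'`, so `r' = ρ`, and `w` is algebraically independent (otherwise a proper subfamily of `w` would be a transcendence basis, contradiction to TrU again). So `u` is algebraically
independent over `ℚ(ξ' ∘ b')`, and over the algebraic extension `ℚ(ξ')`: `GenOver u ξ'`. (4) `π(u, psi u ξ') = π(x) = 0`, LId (`y = ξ'`): `Frm ξ' ρ π`. -/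
def S_LFc : Prop :=
  ∀ (ι : Type) [Fintype ι] [DecidableEq ι] (ρ : ℕ) (ξ : ι → ℂ) (G : MvPolynomial (BU ι (ρ + 1 + 1)) ℤ) (g : ℕ)
    (e : MvPolynomial (Fin (ρ + 1) × ι) ℤ) (f : MvPolynomial ι ℤ) (d : ℕ) (R π : MvPolynomial (BU ι (ρ + 1)) ℤ),
    Tr ξ (ρ + 1) → aeval ξ f ≠ 0 → e ≠ 0 → Sec ξ G g e f d R → Irreducible π → π ∣ R →
    (∀ l : MvPolynomial (Fin (ρ + 1) × ι) ℤ, rename Sum.inl l ≠ π) →
    ∃ ξ' : ι → ℂ, Spc ξ ξ' ∧ aeval ξ' f = 0 ∧ Tr ξ' ρ ∧ Frm ξ' ρ π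

/-! ### Sizes and sup norms on the polydisc -/

/-- (LG1, 120 lines) Gelfond's inequality, one variable (Mahler measure, in Mathlib `Analysis/Polynomial/MahlerMeasure.lean`).
PROOF. If some `P i = 0` take `x = 0`. `‖(P i).eval (a i)‖ ≤ ∑ ‖coeff‖ ≤ 2^(natDegree (P i)) M(P i)` (`norm_coeff_le_choose_mul_mahlerMeasure`, sum of the binomial coefficients). `∏ M(P i) = M(∏ P i)` (`prod_mahlerMeasure_eq_mahlerMeasure_prod`). Let `x` on the unit circle maximise `‖(∏ P i).eval x‖` (compactness): `M(P) ≤ ‖P.eval x‖` since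
`log M(P)` is the circle average of `log ‖P‖` (`circleAverage` monotone; the logarithm is circle integrable), `P = ∏ P i ≠ 0`. -/
def S_LG1 : Prop :=
  ∀ (k : ℕ) (P : Fin k → Polynomial ℂ) (a : Fin k → ℂ) (D : ℕ), (∀ i, ‖a i‖ ≤ 1) → ∑ i, (P i).natDegree ≤ D →
    ∃ x : ℂ, ‖x‖ ≤ 1 ∧ ∏ i, ‖(P i).eval (a i)‖ ≤ 2 ^ D * ∏ i, ‖(P i).eval x‖

/-- (LG, 150 lines, uses LG1) Gelfond's inequality, several variables.
PROOF. It is enough to treat `σ = Fin n` (rename). Induction on `n`; `n = 0`: constants. Step: for `b ∈ ℂ` and `y : Fin n → ℂ` let `P_i(b, y)` be the value with `x_0 = b`. Let `Q_i(y) = P_i(a_i 0, y)`, a polynomial in `n` variables of total degree `≤` that of `P_i`. By induction there is `y` in the polydisc with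
`∏ ‖P_i(a_i)‖ = ∏ ‖Q_i(a_i 1, …)‖ ≤ 2^(n D) ∏ ‖Q_i(y)‖ = 2^(nD) ∏ ‖P_i(a_i 0, y)‖`, and for this `y` LG1 applied to the polynomials `P_i(·, y)` in one variable (degree `≤` total degree of `P_i`) gives `b` with `∏ ‖P_i(a_i 0, y)‖ ≤ 2^D ∏ ‖P_i(b, y)‖`. -/
def S_LG : Prop :=
  ∀ (σ : Type) [Fintype σ] (k : ℕ) (P : Fin k → MvPolynomial σ ℂ) (a : Fin k → σ → ℂ) (D : ℕ), (∀ i, Dsc (a i)) →
    ∑ i, (P i).totalDegree ≤ D →
    ∃ x : σ → ℂ, Dsc x ∧ ∏ i, ‖aeval (a i) (P i)‖ ≤ 2 ^ (Fintype.card σ * D) * ∏ i, ‖aeval x (P i)‖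

/-- (LCf, 120 lines) Cauchy's inequality for polynomials in several variables.
PROOF. `σ = Fin n`, induction on `n`. One variable: `coeff k P` times `ϱ^k` is at most the maximum of `‖P‖` on the circle of radius `ϱ` (Cauchy estimate for `iteratedDeriv`, or the average of `P(ϱ ζ) ζ^(-k)` over the roots of unity `ζ` of order larger than the degree). Step: `P(b, y) = ∑_k c_k(y) b^k`; for fixed `y` in the polydisc
`‖c_k(y)‖ ϱ^k ≤ B`; apply the induction hypothesis to `c_k` with the bound `B ϱ^(-k)`. -/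
def S_LCf : Prop :=
  ∀ (σ : Type) [Fintype σ] (P : MvPolynomial σ ℂ) (ϱ B : ℝ), 0 < ϱ →
    (∀ x : σ → ℂ, (∀ p, ‖x p‖ ≤ ϱ) → ‖aeval x P‖ ≤ B) → ∀ μ : σ →₀ ℕ, ‖P.coeff μ‖ * ϱ ^ (μ.sum fun _ k => k) ≤ B

/-- (LI1, 80 lines, uses LCf) A point of the polydisc where an integer polynomial is large.
PROOF. Let `x` maximise `‖P(x)‖` on the compact unit polydisc. LCf (`ϱ = 1`): all `|coeff μ P| ≤ ‖P(x)‖`, one coefficient is a nonzero integer: `1 ≤ ‖P(x)‖`. There are at most `(deg + 1)^(card σ) ≤ 2^(card σ · deg)` monomials. -/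
def S_LI1 : Prop :=
  ∀ (σ : Type) [Fintype σ] (P : MvPolynomial σ ℤ), P ≠ 0 → ∃ x : σ → ℂ, Dsc x ∧ 1 ≤ ‖aeval x P‖ ∧
    (l1 P : ℝ) ≤ 2 ^ (Fintype.card σ * P.totalDegree) * ‖aeval x P‖

/-- (LMu, 120 lines, uses LG, LI1) Sizes are additive up to a constant.
PROOF. `R = (∏ P i) c`, all nonzero; `D = totalDegree R = ∑ totalDegree (P i) + totalDegree c`. LI1 for `P i` and `c`: `a i`, `a'`. LG for the `P i` and `c` (mapped to `ℂ`; `Fin (k+1)`): `∏ l1 (P i) ≤ 2^(card σ D) ∏ ‖P i (a i)‖ ‖c(a')‖ ≤ 2^(2 card σ D) ‖R(x)‖ ≤ 2^(2 card σ D) l1 R`. Logarithms (`l1 ≥ 1`):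
`∑ log l1 (P i) ≤ 2 card σ D log 2 + log l1 R`. `C = 2 card σ + 1`. -/
def S_LMu : Prop :=
  ∀ (σ : Type) [Fintype σ], ∃ C : ℝ, 1 ≤ C ∧ ∀ (k : ℕ) (P : Fin k → MvPolynomial σ ℤ) (R : MvPolynomial σ ℤ), R ≠ 0 →
    (∏ i, P i) ∣ R → ∑ i, sz (P i) ≤ C * sz R

/-- (LSe, 250 lines, uses LG, LI1, LMu) SELECTION of a factor.
PROOF. Let `n = card ι`, `C1` from LMu for `σ = BU ι r`, `C = C1 + r n + 1`. Factor `R` into irreducibles (UFD, units `±1`): `R = ± c ∏_(i<k) G_i` where `c` collects the factors of the form `rename Sum.inl l`, so `c = rename Sum.inl c1`, `c1 ≠ 0`, and the `G_i` are not of this form. LMu: `sz (G_i) ≤ ∑ sz (G_i) ≤ C1 sz R` (`sz ≥ 0` for nonzero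
polynomials). Suppose no `G_i` has the required property: there are `u_i` in the polydisc with `‖vt θ G_i u_i‖ > exp(-κ sz G_i)`. Let `G_i^θ` be the polynomial over `ℂ` in `U` obtained by `T_k ↦ ∑_j θ_j U_(k,j)`; its total degree is at most that of `G_i` (each variable is replaced by a polynomial of degree `≤ 1`), and `vt θ G_i u = G_i^θ(u)`.
LI1 for `c1`: `u'` with `‖c1(u')‖ ≥ 1`. LG for the `G_i^θ` and `c1`, `D = totalDegree R`: there is `x` with `exp(-κ C1 sz R) ≤ ∏ ‖G_i^θ(u_i)‖ ‖c1(u')‖ ≤ 2^(r n D) ∏ ‖G_i^θ(x)‖ ‖c1(x)‖ = 2^(rnD) ‖vt θ R x‖ ≤ exp(r n sz R - (κ+1) C (sz R + 1))`. But `(κ+1) C (sz R + 1) > κ C1 sz R + r n sz R`. Contradiction (also for `k = 0`). -/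
def S_LSe : Prop :=
  ∀ (ι : Type) [Fintype ι] [DecidableEq ι] (r : ℕ), ∃ C : ℝ, 1 ≤ C ∧ ∀ (θ : ι → ℂ) (R : MvPolynomial (BU ι r) ℤ) (κ : ℝ), 0 ≤ κ → R ≠ 0 →
    (∀ u, Dsc u → ‖vt θ R u‖ ≤ Real.exp (-((κ + 1) * (C * (sz R + 1))))) →
    ∃ π : MvPolynomial (BU ι r) ℤ, Irreducible π ∧ π ∣ R ∧ (∀ l : MvPolynomial (Fin r × ι) ℤ, rename Sum.inl l ≠ π) ∧
      sz π ≤ C * sz R ∧ ∀ u, Dsc u → ‖vt θ π u‖ ≤ Real.exp (-(κ * sz π))

/-- (LLf, 120 lines, uses LG) Products of linear forms. `‖z i‖` is the maximum norm of `ι → ℂ`.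
PROOF. (1) LG with `σ = Option ι`, the `g` polynomials `X none - ∑ C (z_i j) X (some j)` (total degree `≤ 1`, `D = g`) and the points: `T = 1, v = 0` if `‖z_i‖ ≤ 1`, otherwise `T = 0`, `v` = the unit vector of an index `j` with `‖z_i j‖ = ‖z_i‖`; the value there has absolute value `max 1 ‖z_i‖`. Multiply by `‖e0‖`. (2) The same with `σ = ι`
(`‖w_i‖ = 0` is trivial). -/
def S_LLf : Prop :=
  ∀ (ι : Type) [Fintype ι] [DecidableEq ι] (g : ℕ) (z : Fin g → ι → ℂ) (e0 : ℂ) (B : ℝ),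
    ((∀ (v : ι → ℂ) (T : ℂ), Dsc v → ‖T‖ ≤ 1 → ‖e0 * ∏ i, (T - dot v (z i))‖ ≤ B) →
      ‖e0‖ * ∏ i, max 1 ‖z i‖ ≤ 2 ^ ((Fintype.card ι + 1) * g) * B) ∧
    ((∀ v : ι → ℂ, Dsc v → ‖e0 * ∏ i, dot v (z i)‖ ≤ B) → ‖e0‖ * ∏ i, ‖z i‖ ≤ 2 ^ (Fintype.card ι * g) * B)

/-- (LDn, 80 lines) An inequality outside the zeros of a polynomial holds everywhere.
PROOF. Let `x` be in the polydisc of radius `ϱ` and `x*` in it with `e(x*) ≠ 0` (a nonzero polynomial over `ℂ` does not vanish on a product of infinite sets). The points `x + s (x* - x)`, `0 < s ≤ 1`, are in the polydisc (convex), and `e(x + s(x* - x))` is a polynomial in `s`, nonzero at `s = 1`, so it has finitely many zeros; let `s → 0+` (continuity of `A`). -/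
def S_LDn : Prop :=
  ∀ (σ : Type) [Fintype σ] (e : MvPolynomial σ ℤ) (A : MvPolynomial σ ℂ) (ϱ B : ℝ), 0 < ϱ → e ≠ 0 →
    (∀ x : σ → ℂ, (∀ p, ‖x p‖ ≤ ϱ) → aeval x e ≠ 0 → ‖aeval x A‖ ≤ B) →
    ∀ x : σ → ℂ, (∀ p, ‖x p‖ ≤ ϱ) → ‖aeval x A‖ ≤ B

/-- (LDf, 120 lines, uses Lip, L1s) Values of `f` near `θ` and far away.
PROOF. `n = card ι`, `l1 f ≤ 2^((n+1) d)` (L1s). `‖f(z)‖ ≤ l1 f · max(1,‖z‖)^d`. If `‖z - θ‖ ≥ 1`: the bound with `min 1 .. = 1`. If `‖z - θ‖ < 1`: Lip with bound `Y + 1` for both points and `η = ‖z - θ‖`: `‖f(z) - f(θ)‖ ≤ l1 f · d (Y+1)^d ‖z - θ‖`. So `‖f(z)‖ ≤ ‖f(θ)‖ + exp(C' d) max(1,‖z‖)^d min(1, ‖z-θ‖) ≤ exp(C d) max(1,‖z‖)^d max(‖f(θ)‖, min(1, ‖z - θ‖))`. -/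
def S_LDf : Prop :=
  ∀ (ι : Type) [Fintype ι] (Y : ℝ), 1 ≤ Y → ∃ C : ℝ, 1 ≤ C ∧ ∀ (θ z : ι → ℂ) (f : MvPolynomial ι ℤ) (d : ℕ), ‖θ‖ ≤ Y → 1 ≤ d → Sz f d →
    ‖aeval z f‖ ≤ Real.exp (C * d) * max 1 ‖z‖ ^ d ∧
    ‖aeval z f‖ ≤ Real.exp (C * d) * max 1 ‖z‖ ^ d * max ‖aeval θ f‖ (min 1 ‖z - θ‖)

/-- (LRb, 250 lines, uses LLf, LDn, LCf, LDf) The size of the norm.
PROOF. `n = card ι`, `N' = card (BU ι r)`. Let `ϱ ≥ 1`, `(u, t)` in the polydisc of radius `ϱ` with `e(u) ≠ 0`, `z` from Sec, `e0 = e(u)`. For `v, T` in the unit polydisc: `‖G(full v u, Fin.cons T t)‖ ≤ l1 G ϱ^(deg G)`, so by LLf (1) `E := ‖e0‖ ∏ max(1,‖z_i‖) ≤ 2^((n+1) g) l1 G ϱ^(deg G)`. By LDf `‖f(z_i)‖ ≤ exp(C' d) max(1,‖z_i‖)^d`, so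
`‖R(u,t)‖ ≤ exp(C' d g) E^d ≤ B ϱ^(d deg G)`, `B = exp(C' d g) 2^((n+1) g d) (l1 G)^d`. By LDn (with `rename Sum.inl e`) this holds for all `(u, t)` in the polydisc of radius `ϱ`. LCf: `|coeff μ R| ϱ^(|μ|) ≤ B ϱ^(d deg G)`; `ϱ → ∞`: `coeff μ R = 0` if `|μ| > d deg G`; so `deg R ≤ d deg G`; `ϱ = 1`: `|coeff μ R| ≤ B`.
`l1 R ≤ (d deg G + 1)^N' B`. So `log l1 R ≤ N' d deg G + C' d g + (n+1) g d + d log l1 G ≤ C'' d sz G` (`g ≤ deg G`), and `1 ≤ d sz G` (`deg G ≥ g ≥ 1`). -/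
def S_LRb : Prop :=
  ∀ (ι : Type) [Fintype ι] [DecidableEq ι] (r : ℕ), ∃ C : ℝ, 1 ≤ C ∧ ∀ (ξ : ι → ℂ) (G : MvPolynomial (BU ι (r + 1)) ℤ) (g : ℕ)
    (e : MvPolynomial (Fin r × ι) ℤ) (f : MvPolynomial ι ℤ) (d : ℕ) (R : MvPolynomial (BU ι r) ℤ), G ≠ 0 → 1 ≤ g → g ≤ G.totalDegree →
    e ≠ 0 → R ≠ 0 → 1 ≤ d → Sz f d → Sec ξ G g e f d R → sz R + 1 ≤ C * d * sz G

/-- (LKy, 250 lines, uses LLf, LDn, LDf) THE LOSS-FREE INEQUALITY.
PROOF. `n = card ι`. By LDn (for the polynomial `R^θ` in `U`, see LSe, and `e`) it is enough to treat `u` in the unit polydisc with `e0 = e(u) ≠ 0`. Let `t = psi u θ`, `z` from Sec. (a) `E := ‖e0‖ ∏ max(1,‖z_i‖) ≤ 2^((n+1)g) sup ‖G(full v u, Fin.cons T t)‖ ≤ 2^((n+1) g) l1 G (1 + nY)^(deg G) ≤ exp(C1 sz G)` by LLf (1) (`‖t_k‖ ≤ n Y`).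
(b) For `v` in the polydisc and `T = dot v θ`: `psi (full v u) θ = Fin.cons (dot v θ) t`, so `e0 ∏ dot v (θ - z_i) = vt θ G (full v u)`, of absolute value `≤ exp(-δ)`; LLf (2): `‖e0‖ ∏ ‖θ - z_i‖ ≤ 2^(n g) exp(-δ)`. (c) With `ρ_i = min(1, ‖z_i - θ‖)`: `max(1,‖z_i‖) ρ_i ≤ (2+Y) ‖z_i - θ‖` (two cases). So
`E ∏ ρ_i ≤ (2+Y)^g 2^(ng) exp(-δ) ≤ exp(C2 g - δ)`. (d) LDf: `‖f(z_i)‖ ≤ exp(C' d) max(1,‖z_i‖)^d max(‖f(θ)‖, ρ_i)`.
(1) `‖f(θ)‖ ≤ ρ_i^η` (as `Spc ξ (z_i)`) and `ρ_i ≤ ρ_i^η` (`0 ≤ ρ_i ≤ 1`): `‖R^θ(u)‖ = ‖e0‖^d ∏ ‖f(z_i)‖ ≤ exp(C' d g) E^d ∏ ρ_i^η = exp(C' d g) E^(d-η) (E ∏ ρ_i)^η ≤ exp(C' d g) max(1,E)^d exp(C2 g - η δ) ≤ exp(C d sz G - η δ)`. (`E > 0`; `∏ ρ_i^η = (∏ ρ_i)^η`; `g ≤ deg G ≤ sz G`.)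
(2) With `φ = ‖f(θ)‖ ≤ 1`: `∏ max(φ, ρ_i) ≤ φ + ∏ ρ_i` (if some `ρ_i < φ` the product is at most `φ`, as all factors are `≤ 1`; `g ≥ 1`). So `‖R^θ(u)‖ ≤ exp(C' d g) (E^d φ + E^(d-1) · E ∏ ρ_i) ≤ exp(C d sz G) (φ + exp(-δ))`. -/
def S_LKy : Prop :=
  ∀ (ι : Type) [Fintype ι] [DecidableEq ι] (r : ℕ) (Y : ℝ), 1 ≤ Y → ∃ C : ℝ, 1 ≤ C ∧ ∀ (θ ξ : ι → ℂ) (G : MvPolynomial (BU ι (r + 1)) ℤ) (g : ℕ)
    (e : MvPolynomial (Fin r × ι) ℤ) (f : MvPolynomial ι ℤ) (d : ℕ) (R : MvPolynomial (BU ι r) ℤ) (δ : ℝ), ‖θ‖ ≤ Y → G ≠ 0 → 1 ≤ g →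
    g ≤ G.totalDegree → e ≠ 0 → 1 ≤ d → Sz f d → 0 ≤ δ → (∀ u, Dsc u → ‖vt θ G u‖ ≤ Real.exp (-δ)) → Sec ξ G g e f d R →
    (∀ η : ℝ, 0 < η → η ≤ 1 → (∀ z, Spc ξ z → ‖aeval θ f‖ ≤ (min 1 ‖z - θ‖) ^ η) →
      ∀ u, Dsc u → ‖vt θ R u‖ ≤ Real.exp (C * d * sz G - η * δ)) ∧
    (‖aeval θ f‖ ≤ 1 → ∀ u, Dsc u → ‖vt θ R u‖ ≤ Real.exp (C * d * sz G) * (‖aeval θ f‖ + Real.exp (-δ)))

/-- (LDs, 100 lines, uses LG2, LI1, LLf) A zero near `θ`.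
PROOF. LG2 with `f = 1`, `d = 0`: `g, e, R`, Sec. LI1: `u` in the polydisc with `‖e(u)‖ ≥ 1`. `t = psi u θ`, `z` from Sec. As in LKy (b): `∏ ‖θ - z_i‖ ≤ ‖e(u)‖ ∏ ‖θ - z_i‖ ≤ 2^(n g) exp(-δ)`, `n = card ι`. So some `i` has `‖z_i - θ‖^g ≤ 2^(ng) exp(-δ)`, `‖z_i - θ‖ ≤ 2^n exp(-δ/g) ≤ 2^n exp(-δ/sz G)` (`1 ≤ g ≤ deg G ≤ sz G`, `δ ≥ 0`). -/
def S_LDs : Prop :=
  ∀ (ι : Type) [Fintype ι] [DecidableEq ι] (r : ℕ) (θ ξ : ι → ℂ) (G : MvPolynomial (BU ι (r + 1)) ℤ) (δ : ℝ), Tr ξ r → Frm ξ r G → 0 ≤ δ →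
    (∀ u, Dsc u → ‖vt θ G u‖ ≤ Real.exp (-δ)) → ∃ z, Spc ξ z ∧ ‖z - θ‖ ≤ 2 ^ Fintype.card ι * Real.exp (-(δ / sz G))

/-- (LNr, 60 lines) The nearest zero.
PROOF. `{z | Spc ξ z}` is closed (an intersection of zero sets of the continuous functions `aeval · P`) and not empty (`ξ` itself, `Spc.refl`) in the finite dimensional (proper) space `ι → ℂ`: `IsClosed.exists_infDist_eq_dist`. -/
def S_LNr : Prop :=
  ∀ (ι : Type) [Fintype ι] (θ ξ : ι → ℂ), ∃ z0 : ι → ℂ, Spc ξ z0 ∧ ∀ z, Spc ξ z → ‖z0 - θ‖ ≤ ‖z - θ‖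

/-! ### The auxiliary polynomials -/

/-- (LDb, 120 lines, uses BxF) A scale with doubling.
PROOF. `n = card ι`, `M = 3 (n + 1)`, `κ a = Kc ξ a a`. `κ a ≥ 2^a ≥ 2` for `a ≥ 1` (the constants `0, …, 2^a - 1` have different values). `κ a ≤ |Bx ι a a| ≤ (2^a)^((a+1)^n) ≤ 2^((2a)^(n+1))` for `a ≥ 1`. Let `k0` be minimal with `2 A ≤ 4^k0`; `k0 ≥ 1` and `4^(k0-1) < 2A`. Suppose `κ (2^(k+1) A) > κ (2^k A)^(2^M)` for all `k < k0`. Then
`κ (2^k0 A) > κ(A)^(2^(M k0)) ≥ 2^(A 2^(M k0))`, so `A 2^(3(n+1) k0) < (2^(k0+1) A)^(n+1)`, but `2^(3 k0) ≥ 2^(k0+1) A` as `4^k0 ≥ 2A`: contradiction. So some `a = 2^k A`, `k < k0`, has `κ (2a) ≤ κ(a)^(2^M)`; `a^2 ≤ 4^(k0-1) A^2 < 2 A^3 ≤ A^4`. -/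
def S_LDb : Prop :=
  ∀ (ι : Type) [Fintype ι] (ξ : ι → ℂ) (A : ℕ), 2 ≤ A → ∃ a : ℕ, A ≤ a ∧ a ≤ A ^ 2 ∧ 2 ≤ Kc ξ a a ∧
    Kc ξ (2 * a) (2 * a) ≤ Kc ξ a a ^ (2 ^ (3 * (Fintype.card ι + 1)))

/-- (LPg, 200 lines, uses LDb, Cvb, BxF) Polynomial coefficients with exact vanishing at `ξ`.
PROOF. `D = 2^m = card (Finset (Fin m)) ≥ 4`. `Cvb`: all `cv a lam s W ≤ C' N^2` for `lam < N`, `s < N`; `A = C0 N^2` with `C0 ≥ D + D C' + 2`, so the monomials `∏ X W^cv` have total degree `≤ A` and `N^D ≤ 2^A`. LDb: `a' ∈ [A, A^2]`, `M = 3(D+1)`, `κ(2a') ≤ κ(a')^(2^M)`, `κ(a') ≥ 2`. Choose for every value at `ξ` of a polynomial of `Bx a' a'` one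
such polynomial: a set `𝒫 ⊆ Bx a' a'` of `κ(a')` polynomials with different values at `ξ`. For `w : (Finset (Fin m) → Fin N) → 𝒫` and `s` with `s V < S0 := N/16` the polynomial `fsP a N w s` is in `Bx (2a') (2a')`: total degree `≤ a' + A ≤ 2a'`, coefficients in `[0, N^D 2^a')`. So its value at `ξ` has at most `κ(2a')` possibilities; there are
`S0^D` functions `s` and `κ(a')^(N^D)` functions `w`. `κ(2a')^(S0^D) ≤ κ(a')^(2^M S0^D) < κ(a')^(N^D)`, since `2^M S0^D < 16^D S0^D ≤ N^D` (`3D + 3 < 4D`, `S0 ≥ 1`). So two different `w, w'` have the same values for all `s`. `P lam = w lam - w' lam`: `Sz (P lam) a'` (monotone in the size), `a' ≤ A^2 = C0^2 N^4`, some `P lam` has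
`aeval ξ (P lam) ≠ 0` (different elements of `𝒫` have different values), and `aeval ξ (fsP a N P s) = 0`. -/
def S_LPg : Prop :=
  ∀ (m : ℕ) (a : Fin m → ℕ), 2 ≤ m → ∃ C : ℕ, 1 ≤ C ∧ ∀ N : ℕ, 16 ≤ N → ∀ ξ : Finset (Fin m) → ℂ,
    ∃ P : (Finset (Fin m) → Fin N) → MvPolynomial (Finset (Fin m)) ℤ, (∀ lam, Sz (P lam) (C * N ^ 4)) ∧
      (∃ lam, aeval ξ (P lam) ≠ 0) ∧ ∀ s : Finset (Fin m) → ℕ, (∀ V, s V < N / 16) → aeval ξ (fsP a N P s) = 0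

/-- (LX2, 200 lines, uses Pts, Cvb, Lip, Sml, Cof, NumX, LEv) THE SMALL VALUE LEMMA with complex coefficients.
PROOF. As X2 in `SpecX.lean`, whose proof is homogeneous in the coefficients. `D = 2^m`. Suppose the sum is zero for all `s : Finset (Fin m) → Fin (2N)`. Let `q0 = max ‖q lam‖ > 0`, attained at `k`. `F z = ∑ q lam e^(w_lam z)`. With `z_s = (∑ s V m_V) L`: `F z_s = ∑ q lam ∏_W θ_W^(cv) = ∑ q lam (∏_W θ_W^(cv) - ∏_W y_W^(cv))` (LEv), and Lip for the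
monomial `∏ X W^cv` (total degree `≤ C N^2`, `l1 = 1`): `‖F z_s‖ ≤ ε := q0 · N^D (C N^2 C^(⌈C N^2⌉) η)`, `η = exp(-N^(D+1))`. Sml with `n = N^D`, `T = (2N)^D` points, `δ = (CN)^(-D)`, `R = Ω = C N`: `‖F z‖ ≤ 3 T ε (18R/δ)^T` for `‖z‖ ≤ R`; Cof: `q0 = ‖q k‖ ≤ ((1+Ω)/δ)^n n! 3 T ε (18R/δ)^T`; divide by `q0`: contradiction to NumX. -/
def S_LX2 : Prop :=
  ∀ (m : ℕ) (a : Fin m → ℕ) (L : ℂ), 2 ≤ m → Ind a → L ≠ 0 → ∃ N0 : ℕ, ∀ N : ℕ, N0 ≤ N →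
    ∀ q : (Finset (Fin m) → Fin N) → ℂ, q ≠ 0 → ∀ y : Finset (Fin m) → ℂ,
    (∀ U, ‖y U - th a L U‖ ≤ Real.exp (-(N : ℝ) ^ (2 ^ m + 1))) →
    ∃ s : Finset (Fin m) → ℕ, (∀ V, s V < 2 * N) ∧
      ∑ lam : Finset (Fin m) → Fin N, q lam * ∏ W, y W ^ cv a (fun U => (lam U : ℕ)) s W ≠ 0

/-- (LEv, 40 lines, uses Cvi) PROOF. `∏ W, (exp (m_W L))^(cv W) = exp ((∑ cv W m_W) L)` (`Complex.exp_nat_mul`, `Complex.exp_sum`) and Cvi (cast to `ℂ`). -/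
def S_LEv : Prop :=
  ∀ (m : ℕ) (a : Fin m → ℕ) (L : ℂ) (lam s : Finset (Fin m) → ℕ),
    ∏ W, th a L W ^ cv a lam s W = Complex.exp (((∑ U, (lam U : ℝ) * mu a U : ℝ) : ℂ) *
      (((∑ V, (s V : ℝ) * mu a V : ℝ) : ℂ) * L))

/-- (LX1, 200 lines, uses Pts, Swz, Lag) EXTRAPOLATION.
PROOF. `D = 2^m ≥ 8`; `C1` from Pts; `R = Ω = C1 N`, `δ = (C1 N)^(-D)`. `F z = ∑ q lam e^(w_lam z)`, `z_s = (∑ s V m_V) L`. For `‖z‖ ≤ 17R`: `‖F z‖ ≤ N^D exp(C N^4) exp(17 C1^2 N^2) ≤ exp(C2 N^4)` (`N ≥ 1`). `Z` = the set of the `z_s` with `s V < N/16`: `T = (N/16)^D` points (distinct, mutual distances `≥ δ`, norms `≤ R`). Lag with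
`g = F`, `ε = exp(-N^(D+1)/2)`: `Q` with `Q = F` on `Z` and `‖Q‖ ≤ T ε (18R/δ)^T` on `‖z‖ ≤ 17R`; `log` of this is `≤ log T + T log(18 C1 N (C1 N)^D) - N^(D+1)/2 ≤ -N^D` for large `N` (`T ≤ N^D`). Swz for `F - Q`: for `‖z‖ ≤ R` (e.g. `z = z_s`, `s V < 2N`): `‖F z - Q z‖ 8^T ≤ exp(C2 N^4) + 1`, so
`‖F z‖ ≤ 2 exp(C2 N^4) 8^(-T) + exp(-N^D)`, and `T ≥ (N/32)^D` (`N/16 ≥ N/32` as real numbers for `N ≥ 16`; natural division). With `c = 32^(-D)`: `T log 8 ≥ 2 c N^D ≥ c N^D + C2 N^4 + 2` for large `N` as `D ≥ 8`. -/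
def S_LX1 : Prop :=
  ∀ (m : ℕ) (a : Fin m → ℕ) (L : ℂ), 3 ≤ m → Ind a → L ≠ 0 → ∃ c : ℝ, 0 < c ∧ ∀ C : ℝ, ∃ N0 : ℕ, ∀ N : ℕ, N0 ≤ N →
    ∀ q : (Finset (Fin m) → Fin N) → ℂ, (∀ lam, ‖q lam‖ ≤ Real.exp (C * (N : ℝ) ^ 4)) →
    (∀ s : Finset (Fin m) → ℕ, (∀ V, s V < N / 16) →
      ‖∑ lam : Finset (Fin m) → Fin N, q lam * Complex.exp (((∑ U, ((lam U : ℕ) : ℝ) * mu a U : ℝ) : ℂ) *
        (((∑ V, (s V : ℝ) * mu a V : ℝ) : ℂ) * L))‖ ≤ Real.exp (-((N : ℝ) ^ (2 ^ m + 1) / 2))) →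
    ∀ s : Finset (Fin m) → ℕ, (∀ V, s V < 2 * N) →
      ‖∑ lam : Finset (Fin m) → Fin N, q lam * Complex.exp (((∑ U, ((lam U : ℕ) : ℝ) * mu a U : ℝ) : ℂ) *
        (((∑ V, (s V : ℝ) * mu a V : ℝ) : ℂ) * L))‖ ≤ Real.exp (-(c * (N : ℝ) ^ (2 ^ m)))

/-- (LAf, 250 lines, uses LPg, LX1, LX2, LEv, Cvb, Lip, L1s, LDf) THE AUXILIARY POLYNOMIAL for a specialization `ξ` with a zero `z0` near `θ = th a L`.
PROOF. `D = 2^m ≥ 8`. LPg: `P` (`Sz (P lam) (C0 N^4)`), vanishing of `aeval ξ (fsP a N P s)` for `s < N/16`, hence of `aeval z0 (fsP a N P s)` (`Spc ξ z0`).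
`fsP a N P s` for `s < 2N` has `Sz _ (C1 N^4)`: total degree `≤ C0 N^4 + D C' 2 N^2` (Cvb), coefficients `≤ N^D 2^(C0 N^4)` in absolute value. The same for `P lam`. By L1s and Lip (`Y ≥ ‖θ‖ + 1`): `‖f(z0) - f(θ)‖ ≤ ‖z0 - θ‖ exp(C2 N^4)` for `f = P lam` and `f = fsP a N P s`, `s < 2N`; and `‖aeval θ (P lam)‖ ≤ exp(C2 N^4)`.
CASE 1: `aeval ξ (fsP a N P s1) ≠ 0` for some `s1 < 2N`. `f = fsP a N P s1`. Put `q lam = aeval θ (P lam)`. By LEv `aeval θ (fsP a N P s) = ∑ q lam exp(w_lam z_s)`. For `s < N/16` its absolute value is `≤ ‖z0 - θ‖ exp(C2 N^4) ≤ exp(-N^(D+1) + C2 N^4) ≤ exp(-N^(D+1)/2)`. LX1: `‖f(θ)‖ ≤ exp(-c N^D)`.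
CASE 2: `aeval ξ (fsP a N P s) = 0` for all `s < 2N`. Then `aeval z0 (fsP a N P s) = ∑ aeval z0 (P lam) ∏ (z0 W)^cv = 0` for all `s < 2N`, so by LX2 `aeval z0 (P lam) = 0` for all `lam`. Take `lam` with `aeval ξ (P lam) ≠ 0`, `f = P lam`: `‖f(θ)‖ = ‖f(θ) - f(z0)‖ ≤ ‖z0 - θ‖ exp(C2 N^4)`. -/
def S_LAf : Prop :=
  ∀ (m : ℕ) (a : Fin m → ℕ) (L : ℂ), 3 ≤ m → Ind a → L ≠ 0 → ∃ (C : ℕ) (c : ℝ) (N0 : ℕ), 1 ≤ C ∧ 0 < c ∧ ∀ N : ℕ, N0 ≤ N →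
    ∀ ξ z0 : Finset (Fin m) → ℂ, Spc ξ z0 → ‖z0 - th a L‖ ≤ Real.exp (-(N : ℝ) ^ (2 ^ m + 1)) →
    ∃ f : MvPolynomial (Finset (Fin m)) ℤ, Sz f (C * N ^ 4) ∧ aeval ξ f ≠ 0 ∧
      ‖aeval (th a L) f‖ ≤ max (Real.exp (-(c * (N : ℝ) ^ (2 ^ m)))) (‖z0 - th a L‖ * Real.exp (C * (N : ℝ) ^ 4))

/-! ### The iteration -/

/-- (LSt, 250 lines, uses LAf, LG2, LRb, LKy, LSe, LFc, LDs, LNr) ONE STAGE. `D = 2^m ≥ 8`, `n = D`, `θ = th a L`.
PROOF. Constants: `C_f, c, N0` (LAf; `c ≤ 1`), `Y = 1 + ‖θ‖`, `C` = the maximum over `r ≤ t` of the constants of LRb, LKy, LSe (all statements are monotone in `C`: `sz R ≥ 0`; for LSe use each constant separately). `N ≥ A` large.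
Let `Stt a L r S κ` with `ξ, G`, `s = sz G` (`1 ≤ s ≤ S`; `s ≥ deg G ≥ 1`), `N^7 ≤ κ`, `S ≤ N^(D-5)`, `δ = κ s`. LDs: some zero `z` of `ξ` has `‖z - θ‖ ≤ 2^n exp(-κ)`. LNr: the nearest zero `z0`, `ρ = ‖z0 - θ‖ ≤ 2^n exp(-κ) < 1`.
CASE A: `ρ ≤ exp(-N^(D+1))`. LAf with `N`: `f`, `d = C_f N^4`, `‖f(θ)‖ ≤ exp(-c N^D)` (`ρ exp(C_f N^4) ≤ exp(-N^(D+1) + C_f N^4) ≤ exp(-c N^D)`). LG2: `g, e, R`. LKy (2): `‖vt θ R u‖ ≤ exp(C d s) (exp(-c N^D) + exp(-κ s)) ≤ exp(C d s + 1 - min(c N^D, κ s))`.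
CASE B: `ρ > exp(-N^(D+1))`. Let `x = -log ρ`, `κ - n ≤ x < N^(D+1)`, and `Λ` the largest natural number with `Λ^(D+1) ≤ x`; `Λ < N`, `(Λ+1)^(D+1) > x ≥ N^7 - n`, so `Λ ≥ N0` and `Λ ≥` any given constant, for `N` large. LAf with `Λ`: `f`, `d = C_f N^4` (`Sz` is monotone), `‖f(θ)‖ ≤ max(exp(-c Λ^D), ρ exp(C_f Λ^4))`. Put `η = c / (2^(D+1) N) ≤ 1/2`.
`η x ≤ η (2Λ)^(D+1) ≤ c Λ^(D+1)/N ≤ c Λ^D`; `C_f Λ^4 ≤ Λ^(D+1)/2 ≤ x/2`, so `ρ exp(C_f Λ^4) ≤ exp(-x/2) ≤ exp(-η x)`. So `‖f(θ)‖ ≤ exp(-η x) = ρ^η ≤ (min 1 ‖z - θ‖)^η` for all `z` with `Spc ξ z` (`ρ ≤ ‖z - θ‖`, `ρ < 1`). LG2, LKy (1): `‖vt θ R u‖ ≤ exp(C d s - η κ s)`.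
In both cases `sz R + 1 ≤ C d s = C C_f N^4 s` (LRb). Let `κ' = min(κ/N^6, N^(D-5)/S) ≥ 0`. The condition of LSe: `(κ'+1) C (sz R + 1) ≤ (κ' + 1) C^2 C_f N^4 s` must be at most `η κ s - C C_f N^4 s` resp. `min(c N^D, κ s) - 1 - C C_f N^4 s`. Since `κ' ≤ κ/N^6` and `1 ≤ κ/N^7`, all terms with `κ s` on the right are fine:
`(κ/N^6 + 1) C^2 C_f N^4 s + C C_f N^4 s + 1 ≤ κ s (2 C^2 C_f N^(-2) + ..) ≤ c κ s/(2^(D+1) N)` for `N` large; and `κ' N^4 s ≤ N^(D-5) N^4 s/S ≤ N^(D-1)`, `N^4 s ≤ N^4 N^(D-5) = N^(D-1)`, so the sum is `≤ (2C^2 C_f + C C_f + 1) N^(D-1) ≤ c N^D`. LSe: `π` irreducible, `π ∣ R`, not of the form `rename Sum.inl l`,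
`sz π ≤ C sz R ≤ C^2 C_f N^4 s ≤ N^5 S`, `‖vt θ π u‖ ≤ exp(-κ' sz π)`. If `r = 0` then `BU _ 0` is empty of `T`'s (`Fin 0`), and `π` is of the form `rename Sum.inl l`: contradiction; so `r = ρ + 1`, and LFc gives `ξ'` with `Spc ξ ξ'`, `Tr ξ' ρ`, `Frm ξ' ρ π`; `Spc θ ξ'` by transitivity.
(2) The start: `ξ = θ`, `G` a form of `θ` (LFe), `s0 = sz G` a constant, `vt θ G u = 0` for all `u`, `z0 = θ`, `ρ = 0`: CASE A with `δ = c N^D`: `‖vt θ R u‖ ≤ exp(C d s0 + 1 - c N^D)`, and `(N^(D-6) + 1) C^2 C_f N^4 s0 + C C_f N^4 s0 + 1 ≤ c N^D`, `C^2 C_f N^4 s0 ≤ N^5` for `N` large. -/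
def S_LSt : Prop :=
  ∀ (m t : ℕ) (a : Fin m → ℕ) (L : ℂ), 3 ≤ m → Ind a → L ≠ 0 → Tr (th a L) t → ∃ A : ℕ, ∀ N : ℕ, A ≤ N →
    (∀ (r : ℕ) (S κ : ℝ), r ≤ t → (N : ℝ) ^ 7 ≤ κ → S ≤ (N : ℝ) ^ (2 ^ m - 5) → Stt a L r S κ →
      ∃ ρ : ℕ, r = ρ + 1 ∧ Stt a L ρ ((N : ℝ) ^ 5 * S) (min (κ / (N : ℝ) ^ 6) ((N : ℝ) ^ (2 ^ m - 5) / S))) ∧
    ∃ ρ : ℕ, t = ρ + 1 ∧ Stt a L ρ ((N : ℝ) ^ 5) ((N : ℝ) ^ (2 ^ m - 6))

/-- (LTL, 120 lines, uses LSt) LINEAR LARGE TRANSCENDENCE DEGREE.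
PROOF. Suppose `6 (t + 1) < 2^m = D`. Then `D ≥ 6 t + 7 ≥ 7`, so `m ≥ 3`, `D ≥ 8`. Let `N ≥ max(A, 2)`. By LSt (2) `t = ρ + 1` and `Stt a L (t - 1) (N^5) (N^(D-6))`. CLAIM: `Stt a L (t - i) (N^(5 i)) (N^(D - 6 i))` for `1 ≤ i ≤ t`. Step `i → i + 1` for `i ≤ t` (LSt (1)): `D - 6 i ≥ 7`, so `N^7 ≤ κ_i`; `5 i ≤ D - 5`, so
`S_i ≤ N^(D-5)`. The result is `t - i = ρ' + 1` and `Stt a L ρ' (N^(5(i+1))) (min (N^(D-6i-6)) (N^(D-5-5i)))`, and the minimum is `N^(D-6(i+1))` since `D - 6i - 6 ≤ D - 5 - 5i` (`Stt` is monotone: smaller `κ` is weaker as `sz G ≥ 0`). For `i = t` this says `0 = ρ' + 1`, a contradiction. (Stt contains `sz G ≤ S`, and `sz G ≥ 1`, so `S > 0`.) -/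
def S_LTL : Prop :=
  ∀ (m t : ℕ) (a : Fin m → ℕ) (L : ℂ), Ind a → L ≠ 0 → Tr (th a L) t → 2 ^ m ≤ 6 * (t + 1)

end Pool.Agent.SMQ
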