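import Pool.Agent.Lib.MP_452a87_nt.SpecA

/-!
# Part N: the numerical step, the iteration, large transcendence degree

The task `X` is to write `N/X.lean` with `theorem pX (h1 : S_..) ... : S_X`; statements used are hypotheses.
-/

set_option autoImplicit false

namespace Pool.Agent.SMQ

open MvPolynomial

/-- (N0, 80 lines) PROOF. For integers `u_(i,j)` the polynomial `G = E(u; ∑_j u_(i,j) X_j; f) ∈ ℤ[X]` vanishes at `ξ`, hence at `y`. So the polynomial `H = E(U; ∑_j y_j U_(i,j); f(y)) ∈ ℂ[U]` vanishes at all integer points. A polynomial over `ℂ` in finitely many variables vanishing at all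
integer points is zero (`MvPolynomial.funext_set` or `MvPolynomial.eq_zero_of_eval_zero_at_prod_finset`, infinite sets of values), so it vanishes at all `u`. -/
def S_N0 : Prop :=
  ∀ (ι : Type) [Fintype ι] [DecidableEq ι] (r : ℕ) (ξ y : ι → ℂ) (f : MvPolynomial ι ℤ) (E : MvPolynomial (Option (BU ι r)) ℤ),
    Spc ξ y → (∀ u : Fin r × ι → ℂ, aeval (ev (aeval ξ f) (Sum.elim u (psi u ξ))) E = 0) →
    ∀ u : Fin r × ι → ℂ, aeval (ev (aeval y f) (Sum.elim u (psi u y))) E = 0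

/-- (N1, 120 lines) The value of `E` with `Z = 0`.
PROOF. Let `n = card ι`, `v = card (Option (BU ι r))`, `R = (1 + n Y)(2k+1) ≥ 1`. The variables have values of absolute value `≤ R` (`‖psi u y i‖ ≤ n (2k+1) Y`, `‖f(y)‖ ≤ 1`). `E(u; ψ; z) - E(u; ψ; 0)` is the sum over the monomials `m` with `m none ≥ 1`; each term is at most `2^(c k^2) R^k ‖z‖` (total degree `≤ k`,
one factor `z`, the others `≤ R`). There are at most `(k+1)^v` monomials (exponents in `[0, k]`). So with `z = f(y)`, `E(u; ψ; z) = 0`: `‖E(u; ψ; 0)‖ ≤ (k+1)^v 2^(c k^2) R^k ‖f(y)‖`, and `k + 1 ≤ 2^k`, `2k+1 ≤ 2^(2k)`, `1 + nY ≤ 2^(nY)`: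
`R^k ≤ 2^(nYk + 2k^2)`. `C = v + c + n Y + 2`. -/
def S_N1 : Prop :=
  ∀ (ι : Type) [Fintype ι] [DecidableEq ι] (r c Y : ℕ), ∃ C : ℕ, ∀ (E : MvPolynomial (Option (BU ι r)) ℤ) (k : ℕ) (y : ι → ℂ)
    (f : MvPolynomial ι ℤ) (u : Fin r × ι → ℂ), 1 ≤ k → E.totalDegree ≤ k → (∀ m, |E.coeff m| ≤ 2 ^ (c * k ^ 2)) →
    (∀ j, ‖y j‖ ≤ Y) → ‖aeval y f‖ ≤ 1 → (∀ p, ‖u p‖ ≤ 2 * k + 1) →
    aeval (ev (aeval y f) (Sum.elim u (psi u y))) E = 0 →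
    ‖aeval (ev 0 (Sum.elim u (psi u y))) E‖ ≤ ‖aeval y f‖ * 2 ^ (C * k ^ 2)

/-- (Uch, 250 lines, uses Gnx) The choice of `u`.
PROOF. Let `n = card ι ≥ 1`. Write `a(V, U')`, `V` = the row `0`, `U'` = the rows `≥ 1`. As `a ≠ 0` has total degree `≤ k`, there is an integer point `u'^0 ∈ {0..k}^(ρ n)` with `a(V, u'^0) ≠ 0` in `ℤ[V]` (regard `a` as a polynomial in `U'` over `ℤ[V]`; a nonzero polynomial of degree `≤ k` in each variable has a nonzero value in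
`{0..k}^(..)`: `MvPolynomial.eq_zero_of_eval_zero_at_prod_finset`; or take the Schwartz-Zippel point for all variables together: an integer point `(v, u'^0) ∈ {0..k}^((ρ+1)n)` with `a(v, u'^0) ≠ 0`). Let `𝒱 = {0..2k}^ι` (integer vectors `v`) and `𝒱1` those with `a(v, u'^0) ≠ 0`; for them
`|a(v, u'^0)| ≥ 1`. By continuity of `a` and finiteness of `𝒱1` there is `0 < ε < 1/2`, `ε ≤ 1/(4n)`, with `|a(v', u'')| ≥ 1/2` whenever `v ∈ 𝒱1`, `‖v'_j - v_j‖ < ε`, `‖u''_p - u'^0_p‖ < ε`. Gnx: `u'` with `‖u' p - u'^0 p‖ < ε`, generic over `ξ`.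
Given `Z` with at most `k` elements: the number of `v ∈ 𝒱` with `a(v, u'^0) = 0` is at most `k (2k+1)^(n-1)` (Schwartz-Zippel, `MvPolynomial.schwartz_zippel_totalDegree`). For `w ∈ Z`, `w ≠ 0`, let `‖w j0‖ = max_j ‖w j‖ =: |w|`; for fixed `v_j`, `j ≠ j0`, at most one integer `v_(j0)` has
`‖∑ v_j w_j‖ < |w|/2` (two such integers would give `‖(v - v') w_(j0)‖ < |w|`). So at most `(2k+1)^(n-1)` vectors of `𝒱` are bad for `w`. In total at most `2k (2k+1)^(n-1) < (2k+1)^n` bad vectors: take a good `v`. Gnx for `Sum.elim ξ u'`: `u0` with `‖u0 j - v j‖ < ε`, generic over `ℚ(ξ, u')`. Then `full u0 u'` is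
generic over `ξ` (transitivity, `AlgebraicIndependent.sumElim..` and reindexing), `‖aeval (full u0 u') a‖ ≥ 1/2`, and for `w ∈ Z`: `‖∑ u0_j w_j‖ ≥ |w|/2 - n ε |w| ≥ |w|/4`. Norm bounds: `≤ 2k + 1/2`. -/
def S_Uch : Prop :=
  ∀ (ι : Type) [Fintype ι] [DecidableEq ι] [Nonempty ι] (ρ k : ℕ) (ξ : ι → ℂ) (a : MvPolynomial (Fin (ρ + 1) × ι) ℤ), 1 ≤ k → a ≠ 0 →
    a.totalDegree ≤ k → ∃ u' : Fin ρ × ι → ℂ, GenOver u' ξ ∧ (∀ p, ‖u' p‖ ≤ 2 * k + 1) ∧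
      ∀ Z : Finset (ι → ℂ), Z.card ≤ k → ∃ u0 : ι → ℂ, (∀ j, ‖u0 j‖ ≤ 2 * k + 1) ∧ GenOver (full u0 u') ξ ∧
        1 / 2 ≤ ‖aeval (full u0 u') a‖ ∧ ∀ w ∈ Z, ∀ j, ‖w j‖ ≤ 4 * ‖∑ i, u0 i * w i‖

/-- (Usp, 80 lines) Separating finitely many points.
PROOF. The polynomial `A(V) = a(V, u') ∈ ℂ[V]` is not zero: write `a` as a polynomial in the row `0` with coefficients in `ℤ[U']`, some coefficient `c ≠ 0`, and `c(u') ≠ 0` as `u'` is algebraically independent. For `w ≠ 0` the linear form `∑ w_j V_j` is not zero. The product of `A` and of these forms is a nonzero polynomial over `ℂ`, so it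
has a nonzero value at some `u0` (`MvPolynomial.funext`). -/
def S_Usp : Prop :=
  ∀ (ι : Type) [Fintype ι] [DecidableEq ι] (ρ : ℕ) (a : MvPolynomial (Fin (ρ + 1) × ι) ℤ) (u' : Fin ρ × ι → ℂ), a ≠ 0 →
    AlgebraicIndependent ℚ u' → ∀ Z : Finset (ι → ℂ), ∃ u0 : ι → ℂ, aeval (full u0 u') a ≠ 0 ∧
      ∀ w ∈ Z, w ≠ 0 → ∑ j, u0 j * w j ≠ 0

/-- (N3, 80 lines, uses Usp) There are at most `δ` points.
PROOF. Usp for the differences `x - x'` of elements of `Z`: `u0`; `u = full u0 u'`, `q` for `(u, t')`: `q ≠ 0` since its coefficient `δ` is `aeval u a ≠ 0`. For `x ∈ Z`: `psi u x = Fin.cons (∑ u0 j * x j) t'`, so `q.eval (∑ u0 j * x j) = 0`. The numbers `∑ u0 j * x j`, `x ∈ Z`, are distinct, so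
`Z.card ≤` number of roots `≤ δ`. -/
def S_N3 : Prop :=
  ∀ (ι : Type) [Fintype ι] [DecidableEq ι] (ρ δ : ℕ) (a : MvPolynomial (Fin (ρ + 1) × ι) ℤ) (E : MvPolynomial (Option (BU ι (ρ + 1))) ℤ)
    (u' : Fin ρ × ι → ℂ) (t' : Fin ρ → ℂ), a ≠ 0 → AlgebraicIndependent ℚ u' →
    (∀ u : Fin (ρ + 1) × ι → ℂ, ∃ q : Polynomial ℂ, q.natDegree ≤ δ ∧ q.coeff δ = aeval u a ∧
      ∀ z : ℂ, q.eval z = aeval (ev 0 (Sum.elim u (Fin.cons z t' : Fin (ρ + 1) → ℂ))) E) →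
    ∀ Z : Finset (ι → ℂ), (∀ x ∈ Z, psi u' x = t' ∧ ∀ u : Fin (ρ + 1) × ι → ℂ, aeval (ev 0 (Sum.elim u (psi u x))) E = 0) →
    Z.card ≤ δ

/-- (N4, 250 lines, uses N0, N1, Uch, N3, Alg, P7) THE NUMERICAL STEP.
PROOF. Let `C1` be the constant of N1 for `(ρ+1, c, Y)`, `C = C1 + 2`. `ι` is nonempty (`Tr ξ (ρ+1)`). Alg: `δ, a`, `δ ≤ k`. Uch (with `k`): `u'`. `t' = psi u' y`. Let `𝒵` be the set of `x : ι → ℂ` with `Spc ξ x`, `aeval x f = 0`, `psi u' x = t'`. For `x ∈ 𝒵`, N0: `E(u; psi u x; 0) = 0` for all `u`. By N3 all finite subsets of `𝒵` have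
at most `δ ≤ k` elements, so `𝒵` is finite with at most `k` elements. `Z = {y - x | x ∈ 𝒵}`, `u0` from Uch, `u = full u0 u'`, so `psi u y = Fin.cons (∑ u0 y) t'`. N0 for `y` and N1: `‖E(u; psi u y; 0)‖ ≤ ‖f(y)‖ 2^(C1 k^2) =: η`, `4 η ≤ 1` (as `2^(2k^2) ≥ 4`). Let `q` be as in Alg for `(u, t')`: `q.natDegree = δ` (`q.coeff δ = a(u) ≠ 0`),
`q = a(u) ∏ (z - ζ_i)` over its `δ` roots (`IsAlgClosed.splits`, multiset of roots), `‖q(∑ u0 y)‖ ≤ η`. If `δ = 0`: `1/2 ≤ ‖a(u)‖ ≤ η ≤ 1/4`, contradiction. So `∏_i ‖∑ u0 y - ζ_i‖ ≤ 2 η`, and some root `ζ` has `‖∑ u0 y - ζ‖^δ ≤ 2 η`. `q(ζ) = 0`: `E(u; Fin.cons ζ t'; 0) = 0`. P7: `ξ', ξ''` with `Spc ξ ξ'`, `aeval ξ' f = 0`, `Tr ξ' ρ`,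
`Spc ξ' ξ''`, `psi u ξ'' = Fin.cons ζ t'`. So `ξ'' ∈ 𝒵` (rows `≥ 1` of `psi`), `∑ u0 ξ'' = ζ`. Uch: `‖y j - ξ'' j‖ ≤ 4 ‖∑ u0 (y - ξ'')‖ = 4 ‖∑ u0 y - ζ‖`. With `b = ‖y j - ξ'' j‖/4`: `b^δ ≤ 2η < 1`, `δ ≥ 1`, so `b ≤ 1` and `b^k ≤ b^δ ≤ 2 η ≤ ‖f(y)‖ 2^(C k^2)`. `y' = ξ''`. -/
def S_N4 : Prop :=
  ∀ (ι : Type) [Fintype ι] [DecidableEq ι] (ρ c Y : ℕ), ∃ C : ℕ, ∀ (ξ y : ι → ℂ) (f : MvPolynomial ι ℤ)
    (E : MvPolynomial (Option (BU ι (ρ + 1))) ℤ) (k : ℕ), Tr ξ (ρ + 1) → aeval ξ f ≠ 0 → Spc ξ y → (∀ j, ‖y j‖ ≤ Y) →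
    Irreducible E → (∀ u : Fin (ρ + 1) × ι → ℂ, aeval (ev (aeval ξ f) (Sum.elim u (psi u ξ))) E = 0) →
    1 ≤ k → E.totalDegree ≤ k → (∀ m, |E.coeff m| ≤ 2 ^ (c * k ^ 2)) → ‖aeval y f‖ * 2 ^ (C * k ^ 2) ≤ 1 →
    ∃ ξ' y' : ι → ℂ, Spc ξ ξ' ∧ aeval ξ' f = 0 ∧ Tr ξ' ρ ∧ Spc ξ' y' ∧
      ∀ j, (‖y' j - y j‖ / 4) ^ k ≤ ‖aeval y f‖ * 2 ^ (C * k ^ 2)

/-- (Step, 120 lines, uses N4, E, K3, L1s) THE STEP PROPOSITION.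
PROOF. Let `n = card ι`, `C_E` from E (for `r = ρ + 1`), `k = C_E s d`, so `|coeff E| ≤ 2^(C_E (sd)^2) ≤ 2^(C_E k^2)`; `C_4` from N4 for `(ρ, C_E, Y)`; `C = max (C_4 C_E^2) (2^(ρ+1) (n+6)) (C_E)` (all natural, at least `1`). The smallness hypothesis gives that of N4 (`C_4 k^2 = C_4 C_E^2 (sd)^2 ≤ C (sd)^2`). N4: `ξ', y'`.
`PP ξ' ρ (2^(ρ+1) s (h + 2 + 3d))` by K3 with `h = (n+1) d` (L1s), `h + 2 + 3 d ≤ (n + 6) d`, and `PP` is monotone in `s`. With `b = ‖y' j - y j‖/4`: `b^k ≤ ‖f(y)‖ 2^(C_4 k^2) ≤ 1`, so `b ≤ 1` and `b^(C s d) ≤ b^k` (`k ≤ C s d`). -/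
def S_Step : Prop :=
  ∀ (ι : Type) [Fintype ι] [DecidableEq ι] (ρ Y : ℕ), ∃ C : ℕ, 1 ≤ C ∧ ∀ (ξ y : ι → ℂ) (s d : ℕ) (f : MvPolynomial ι ℤ), 1 ≤ s → 1 ≤ d →
    Tr ξ (ρ + 1) → PP ξ (ρ + 1) s → Spc ξ y → (∀ j, ‖y j‖ ≤ Y) → Sz f d → aeval ξ f ≠ 0 →
    ‖aeval y f‖ * 2 ^ (C * (s * d) ^ 2) ≤ 1 →
    ∃ ξ' y' : ι → ℂ, Tr ξ' ρ ∧ PP ξ' ρ (C * s * d) ∧ Spc ξ' y' ∧
      ∀ j, (‖y' j - y j‖ / 4) ^ (C * s * d) ≤ ‖aeval y f‖ * 2 ^ (C * (s * d) ^ 2)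

/-- (Stg, 250 lines, uses Step, Lio, X1, X2, Fsz, Lip, L1s, K4) ONE STAGE of the iteration. `D = 2^m`, `e = D - 2t - 2`.
PROOF. `m ≥ 4` since `D ≥ 16`; `2t + 5 ≤ D`. Let `c` with `PP (th a L) t c` (K4), `Y` a natural number `≥ ‖th a L U‖ + 1` for all `U`, `C_F` (Fsz), `C_S = max_(ρ < t)` of the constants of Step for `(ρ, Y)` (the statement of Step for a larger constant follows: `PP` is monotone in `s`; and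
`b^(C s d)`: if `b^(C s d) ≤ ‖f(y)‖ 2^(C (sd)^2) ≤ 1` then `b ≤ 1` — easier: define things separately for each `ρ` and take the maximum at the end, using that the right side `2 exp(-N^e) 2^((A s N^2)^2) ≤ 1` and `b ≤ 1`), `C_L` (Lio); `A ≥ c, C_S C_F, C_L C_F` and larger than the `N0` of X1 and X2 and further conditions of largeness below.
Let `N ≥ A` and `y` with `‖y U - th a L U‖ ≤ exp(-N^(D+1))`. X1: `p`; X2 for this `p, y`: `s0` with `s0 V < 2N` and `f = fs a N p s0`, `f(y) ≠ 0`; `Sz f (C_F N^2)`, `‖f(θ)‖ ≤ exp(-N^e)`. Lip (`Y`, `η = exp(-N^(D+1))`, `d = C_F N^2`, `l1 f ≤ 2^((D+1) d)`):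
`‖f(y) - f(θ)‖ ≤ 2^((D+1)d) d Y^d η ≤ exp(K N^2 - N^(D+1)) ≤ exp(-N^e)` for `N ≥ K + 1` (`e ≤ D - 2`, `N^(D+1) ≥ N^e + K N^2`). So `0 < ‖f(y)‖ ≤ 2 exp(-N^e)`.
(1) If `ρ < t`, `Tr ξ (ρ+1)`, `PP ξ (ρ+1) s`, `Spc ξ y`: `f(ξ) ≠ 0` since `f(y) ≠ 0`. Step with `d = C_F N^2`: `C (s d)^2 ≤ (A s N^2)^2` if `A ≥ C C_F`; smallness: `2 exp(-N^e) 2^((A s N^2)^2) ≤ 1` by the hypothesis `(A s N^2)^2 + 2 ≤ N^e`. Conclusion as stated (`C s d ≤ A s N^2`, `b ≤ 1`).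
(2) `PP ξ 0 s`: Lio: `1 ≤ ‖f(y)‖ 2^(C_L s C_F N^2) ≤ 2 exp(-N^e) 2^(A s N^2)`. (3) `PP (th a L) t A` by monotonicity. -/
def S_Stg : Prop :=
  ∀ (m t : ℕ) (a : Fin m → ℕ) (L : ℂ), Ind a → L ≠ 0 → Tr (th a L) t → 4 * (t + 2) ^ 2 ≤ 2 ^ m → ∃ A : ℕ, 1 ≤ A ∧
    PP (th a L) t A ∧
    (∀ N : ℕ, A ≤ N → ∀ (ρ : ℕ) (ξ y : Finset (Fin m) → ℂ) (s : ℕ), ρ < t → 1 ≤ s → Tr ξ (ρ + 1) → PP ξ (ρ + 1) s → Spc ξ y →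
      (∀ U, ‖y U - th a L U‖ ≤ Real.exp (-(N : ℝ) ^ (2 ^ m + 1))) → (A * s * N ^ 2) ^ 2 + 2 ≤ N ^ (2 ^ m - 2 * t - 2) →
      ∃ ξ' y' : Finset (Fin m) → ℂ, Tr ξ' ρ ∧ PP ξ' ρ (A * s * N ^ 2) ∧ Spc ξ' y' ∧
        ∀ U, (‖y' U - y U‖ / 4) ^ (A * s * N ^ 2) ≤
          2 * Real.exp (-(N : ℝ) ^ (2 ^ m - 2 * t - 2)) * 2 ^ ((A * s * N ^ 2) ^ 2)) ∧
    (∀ N : ℕ, A ≤ N → ∀ (ξ y : Finset (Fin m) → ℂ) (s : ℕ), 1 ≤ s → PP ξ 0 s → Spc ξ y →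
      (∀ U, ‖y U - th a L U‖ ≤ Real.exp (-(N : ℝ) ^ (2 ^ m + 1))) →
      1 ≤ 2 * Real.exp (-(N : ℝ) ^ (2 ^ m - 2 * t - 2)) * 2 ^ (A * s * N ^ 2))

/-- (NumI, 120 lines) The numerical inequalities of the iteration.
PROOF. Write `s i = A^(i+1) N^(i (2t+5-i))`, `N_i = N^(t+2-i)`, `k i = A s_i N_i^2`. For `i ≤ t`: `i(2t+5-i) + 2(t+2-i) = (i+1)(2t+4-i)`, so `k i = A^(i+2) N^((i+1)(2t+4-i)) = s (i+1)`: (c). Take `N = 16 A^(2t+4) + 2`. (a) `k_i^2 + 2 ≤ 2 k_i^2 + .. ≤ 3 A^(2i+4) N^(2(i+1)(2t+4-i)) ≤ N^(2(i+1)(2t+4-i)+1)`, and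
`2(i+1)(2t+4-i) + 1 ≤ (t+2-i)(D-2t-2)`: by `D ≥ 4(t+2)^2`, `t + 2 - i ≥ 2`, `(i+1)(2t+4-i) ≤ (t+1)(t+4)` for `i ≤ t` (increasing in `i`; check `(t+1)(t+4) - (i+1)(2t+4-i) = (t-i)(t-i+1)... ≥ 0` by `nlinarith`), `2(4(t+2)^2 - 2t - 2) ≥ 2(t+1)(t+4) + 1`. (b) For `i < t`:
`4 k_i^2 ≤ N^(2(i+1)(2t+4-i)+1)` and `4 k_i N^((t+1-i)(D+1)) ≤ N^((i+1)(2t+4-i) + (t+1-i)(D+1) + 1)`; both exponents are smaller than `(t+2-i)(D-2t-2)`; for the first as in (a) with `t+2-i ≥ 3` and room; for the second: `(t+2-i)(D-2t-2) - (t+1-i)(D+1) = D + 1 - (t+2-i)(2t+3) ≥ D + 1 - (t+2)(2t+3)`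
and `(i+1)(2t+4-i) ≤ t(t+5)` for `i ≤ t - 1`, `D + 1 - (t+2)(2t+3) - t(t+5) ≥ 4(t+2)^2 + 1 - 3t^2 - 12 t - 6 = t^2 + 4 t + 11 ≥ 2`. Then the sum of two terms, each `≤ N^(E-1)` with `E = (t+2-i)(D-2t-2)`, is `≤ N^E` (`N ≥ 2`). Substitute `D = 4(t+2)^2 + D'` and `t = i + j` to remove subtractions. -/
def S_NumI : Prop :=
  ∀ (t D A : ℕ), 1 ≤ A → 4 * (t + 2) ^ 2 ≤ D → ∃ N : ℕ, A ≤ N ∧ 2 ≤ N ∧ ∀ i ≤ t,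
    ((A * (A ^ (i + 1) * N ^ (i * (2 * t + 5 - i))) * (N ^ (t + 2 - i)) ^ 2) ^ 2 + 2 ≤ (N ^ (t + 2 - i)) ^ (D - 2 * t - 2)) ∧
    (i < t → 4 * (A * (A ^ (i + 1) * N ^ (i * (2 * t + 5 - i))) * (N ^ (t + 2 - i)) ^ 2) ^ 2 +
      4 * (A * (A ^ (i + 1) * N ^ (i * (2 * t + 5 - i))) * (N ^ (t + 2 - i)) ^ 2) * (N ^ (t + 1 - i)) ^ (D + 1) ≤
        (N ^ (t + 2 - i)) ^ (D - 2 * t - 2)) ∧
    A * (A ^ (i + 1) * N ^ (i * (2 * t + 5 - i))) * (N ^ (t + 2 - i)) ^ 2 = A ^ (i + 2) * N ^ ((i + 1) * (2 * t + 5 - (i + 1)))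

/-- (LTDt, 200 lines, uses Stg, NumI; statement `S_LTD` in `SpecR.lean`) LARGE TRANSCENDENCE DEGREE.
PROOF. Suppose `4(t+2)^2 ≤ 2^m = D`. `A` from Stg, `N` from NumI for `(t, D, A)`; `θ = th a L`, `s_i = A^(i+1) N^(i(2t+5-i))`, `N_i = N^(t+2-i)`, `k_i = A s_i N_i^2 = s_(i+1)`, `e = D - 2t - 2`. CLAIM(i), `i ≤ t`: there are `ξ, y` with `Tr ξ (t-i)`, `PP ξ (t-i) s_i`, `Spc ξ y`, `‖y U - θ U‖ ≤ exp(-N_i^(D+1))`. `i = 0`: `ξ = y = θ`,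
`s_0 = A`. Step `i < t`: Stg (1) with `N_i ≥ N ≥ A`, `ρ = t-i-1`: `ξ', y'` with `PP ξ' (t-i-1) k_i`, `k_i = s_(i+1)`. With `b = ‖y' U - y U‖/4`, `κ = k_i ≥ 1`, `M = N_(i+1)^(D+1)` (a real `≥ 1`): `b^κ ≤ 2 exp(-N_i^e) 2^(κ^2)` and `N_i^e ≥ 4κ^2 + 4 κ M`. If `b > exp(-M)/8` then `b^κ > exp(-κ M - κ log 8)`, but
`2 exp(-N_i^e) 2^(κ^2) ≤ exp(1 + κ^2 - 4κ^2 - 4κM) ≤ exp(-κ M - 3κ)` (as `1 + 3κ ≤ 3κ^2 + 3κM`), and `log 8 ≤ 3`: contradiction. So `‖y' U - y U‖ ≤ exp(-M)/2`, and `exp(-N_i^(D+1)) ≤ exp(-M)/2` (`N_i ≥ 2 N_(i+1)`, so `N_i^(D+1) ≥ M + 1`). Triangle inequality: CLAIM(i+1). For `i = t`: Stg (2): `1 ≤ 2 exp(-N_t^e) 2^(k_t)`, but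
`k_t^2 + 2 ≤ N_t^e`, so the right side is `≤ exp(1 + k_t - k_t^2 - 2) < 1` (`k_t ≥ 1`), contradiction. -/
def S_LTDhelp : Prop := True

end Pool.Agent.SMQ
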