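import Pool.Agent.Lib.MP_452a87_nt.Defs

/-!
# Part R: Milliken-Taylor and the block theorem

Every `S_X` is a statement; its complete proof is in the docstring. The task `X` is to write `R/X.lean` with
`theorem pX (h1 : S_..) ... : S_X`; statements used are hypotheses, so all modules are independent.
-/

set_option autoImplicit false

namespace Pool.Agent.SMQ

open MvPolynomial

/-- A block sequence: nonempty finite sets `B 0 < B 1 < …`. -/
def Blk {κ : Type} [LinearOrder κ] {n : ℕ} (B : Fin n → Finset κ) : Prop :=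
  (∀ i, (B i).Nonempty) ∧ ∀ i i', i < i' → ∀ x ∈ B i, ∀ y ∈ B i', x < y

/-- (MTid, 80 lines) An idempotent ultrafilter on the finite sets of natural numbers, with union, concentrated on
nonempty sets far out.
PROOF. Let `FU` be a copy of `Finset ℕ` (a `def FU := Finset ℕ`) with `Mul FU := ⟨fun x y => x ∪ y⟩`, a semigroup. Mathlib
(`Mathlib/Combinatorics/Hindman.lean`) has the semigroup structure on `Ultrafilter FU` (`Ultrafilter.semigroup`), the rule
`Ultrafilter.eventually_mul : (∀ᶠ m in ↑(U * V), p m) ↔ ∀ᶠ m in U, ∀ᶠ m' in V, p (m * m')`, continuity of `(· * V)`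
(`Ultrafilter.continuous_mul_left`), and `exists_idempotent_in_compact_subsemigroup`. Let
`S = {U | ∀ n, ∀ᶠ x in U, x.Nonempty ∧ ∀ i ∈ x, n < i}`. It is closed (an intersection of the clopen sets
`{U | A_n ∈ U}`, `ultrafilter_isClosed_basic`), hence compact; nonempty: the filter generated by the sets
`A_n = {x | x.Nonempty ∧ ∀ i ∈ x, n < i}` (decreasing, nonempty: `{n+1} ∈ A_n`) is proper, take `Ultrafilter.of` of
it (e.g. of `Filter.map (fun n => {n+1}) Filter.atTop`); closed under products: `x, y ∈ A_n → x ∪ y ∈ A_n`. So there is `U ∈ S` with `U * U = U`;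
the last property is `eventually_mul` for `U * U = U`. -/
def S_MTid : Prop :=
  ∃ U : Ultrafilter (Finset ℕ), (∀ n : ℕ, ∀ᶠ x in (U : Filter (Finset ℕ)), x.Nonempty ∧ ∀ i ∈ x, n < i) ∧
    ∀ A : Set (Finset ℕ), A ∈ U →
      ∀ᶠ x in (U : Filter (Finset ℕ)), ∀ᶠ y in (U : Filter (Finset ℕ)), x ∪ y ∈ A

/-- (MTinf, 250 lines, uses MTid) The Milliken-Taylor theorem.
PROOF. Let `U` be the ultrafilter. `K` finite and nonempty (it is the range of a function; take `K` nonempty from `χ` applied to anything).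
Colours `c i : (Fin i → Finset ℕ) → K`, `i ≤ j`: `c j = χ` and, going down, `c i B` is the (unique) `κ` with
`∀ᶠ x in U, c (i+1) (Fin.snoc B x) = κ` (`U` is an ultrafilter and `K` is finite: `Ultrafilter.eventually_exists..`/
`Filter.Eventually`, e.g. by `Ultrafilter.finite_biUnion_mem_iff` or by induction on `K`). (Best: prove by induction on `j` (for
all `χ`) or define `c` on lists of length `i`: `c : List (Finset ℕ) → K` by recursion on `j - length`.) Let `κ0` be the colour of the empty
sequence. For `B` of length `i < j` with `c i B = κ0` let `A_B = {x | c (i+1) (snoc B x) = κ0}`, a member of `U`. For `A ∈ U`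
let `A* = {x ∈ A | ∀ᶠ y in U, x ∪ y ∈ A}`. Then `A* ∈ U` (property of `U`), `A* ⊆ A` and (1): for `x ∈ A*`,
`∀ᶠ y in U, x ∪ y ∈ A*`: indeed `A' = {z | x ∪ z ∈ A} ∈ U`, so `∀ᶠ y, y ∈ A'` and
`∀ᶠ y, ∀ᶠ z, y ∪ z ∈ A'`, i.e. `x ∪ y ∪ z ∈ A`.
For a finite sequence `C 0, …, C (n-1)` of finite sets let `I(n)` be: they are nonempty, increasing (every element of an earlier one is
smaller), and (a) for every `i ≤ j` and every block sequence `B : Fin i → Finset ℕ` with all `B l ⊆ range n`,
`c i (fun l => (B l).biUnion C) = κ0`, (b) for every `i < j`, every such `B` and every nonempty `D ⊆ range n` with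
all elements larger than those of all `B l`: `D.biUnion C ∈ (A_(B∘C))*`. `I(0)` holds (`i = 0` only; in (b) no `D`). Given `I(n)` choose
`C n` in the intersection of the following finitely many members of `U`: the sets `(A_(B∘C))*` for all `i < j` and block sequences
`B` of length `i` in `range n`; the sets `{y | D.biUnion C ∪ y ∈ (A_(B∘C))*}` for all `(B, D)` as in (b) (members of `U` by (1)); the nonempty sets
with all elements larger than all elements of `C 0, …, C (n-1)`. Then `I(n+1)`: let `(B, D)` be in `range (n+1)`. If `n ∉ D`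
(and then `n` is in no `B l`, as `D` is nonempty and after them) use `I(n)`. If `D = {n}`: `C n ∈ (A_(B∘C))*`. If
`D = D' ∪ {n}`, `D'` nonempty, `D' ⊆ range n`: `D'.biUnion C ∪ C n ∈ (A_(B∘C))*`. This gives (b); (a) for a sequence of length `i + 1`: it is `snoc B D`, and
`D.biUnion C ∈ A_(B∘C)` by (b). The infinite sequence: a property `I` of finite lists with `I []` and `I l → ∃ x, I (l ++ [x])` gives a
sequence all of whose prefixes satisfy `I` (recursion with choice on the subtype of lists satisfying `I`). Every block sequence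
`B : Fin j → Finset ℕ` lies in `range n` for some `n`; use (a) with `i = j`. -/
def S_MTinf : Prop :=
  ∀ (j : ℕ) (K : Type) [Finite K] (χ : (Fin j → Finset ℕ) → K),
    ∃ C : ℕ → Finset ℕ, (∀ i, (C i).Nonempty) ∧ (∀ i i', i < i' → ∀ x ∈ C i, ∀ y ∈ C i', x < y) ∧
      ∃ κ0 : K, ∀ B : Fin j → Finset ℕ, Blk B → χ (fun i => (B i).biUnion C) = κ0

/-- (MTfin, 120 lines, uses MTinf) The finite version.
PROOF. Suppose there is no `M`: for every `M` choose a bad `χ M`. Let `H = Filter.hyperfilter ℕ`. For a finite set `x` of natural numbers let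
`x|M : Finset (Fin M)` be the set of `i : Fin M` with `(i : ℕ) ∈ x`. For `B : Fin j → Finset ℕ` let `χ' B` be the `κ` with
`∀ᶠ M in H, χ M (fun i => (B i)|M) = κ` (`K` finite, `H` ultrafilter). Apply MTinf to `χ'`: `C`, `κ0`. For
each of the finitely many block sequences `B : Fin j → Finset (Fin n)` (regarded in `ℕ` by `Fin.val`),
`∀ᶠ M in H, χ M (fun i => ((B i).biUnion C)|M) = κ0`; take an `M` in all of these sets and larger than all elements of
`C 0, …, C (n-1)` (cofinite set). Then `C' i = (C i)|M`, `i : Fin n`, is a block sequence and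
`((B i).biUnion C)|M = (B i).biUnion C'`. So `χ M` is not bad, contradiction. -/
def S_MTfin : Prop :=
  ∀ (j n : ℕ) (K : Type) [Finite K], ∃ M : ℕ, ∀ χ : (Fin j → Finset (Fin M)) → K,
    ∃ C : Fin n → Finset (Fin M), Blk C ∧
      ∃ κ0 : K, ∀ B : Fin j → Finset (Fin n), Blk B → χ (fun i => (B i).biUnion C) = κ0

/-- (Cir, 80 lines) Colours: a dependent family indexed by the nonempty subsets of `Fin j`.
PROOF. Some finite subfamily is dependent; take a set `Γ0` of nonempty subsets of `Fin j` of minimal cardinality such that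
`fun A : Γ0 => v A` is not algebraically independent (the whole set of nonempty subsets is a candidate). `Γ0` is nonempty. Let `A0 ∈ Γ0` be of maximal
cardinality, `Γ = Γ0.erase A0`. If `A ∈ Γ` and `A0 ⊆ A` then `A = A0` by maximality of the cardinality, impossible. By minimality `fun A : Γ => v A` is
algebraically independent, and the family with `A0` added is not, so `v A0` is algebraic over `ℚ(v '' Γ)`
(`AlgebraicIndependent.option_iff`/`AlgebraicIndependent.insert`-type lemma: adding a transcendental element keeps independence). If `v` is not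
injective on `Γ0` this is covered too: work with families, not with sets. -/
def S_Cir : Prop :=
  ∀ (j : ℕ) (v : Finset (Fin j) → ℂ),
    ¬ AlgebraicIndependent ℚ (fun A : {A : Finset (Fin j) // A.Nonempty} => v A.1) →
    ∃ (A0 : Finset (Fin j)) (Γ : Finset (Finset (Fin j))), A0.Nonempty ∧
      (∀ A ∈ Γ, A.Nonempty ∧ ¬ A0 ⊆ A) ∧
      IsAlgebraic (IntermediateField.adjoin ℚ (v '' (Γ : Set (Finset (Fin j))))) (v A0)

/-! ### The recursion

Positions are natural numbers `y < (p + 1) w`, `w = z + p j`. Write `y = l w + x`, `l = y / w`, `x = y % w`. If `x < z` then `y` is in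
ZONE `l` (zone `0` is not used), otherwise `y` is in RESERVOIR `l`, which has `p` slots of `j` positions. Depth `i` uses the slot
`[z + i j, z + (i+1) j)` of the reservoirs `l ≥ 1` and the slot `[z + (p-1-i) j, z + (p-i) j)` of the reservoir `0`. -/

/-- `Y` uses only the slots of depth `< i`, and not zone `0`. -/
def Ok (j p z i : ℕ) (Y : Finset ℕ) : Prop :=
  ∀ y ∈ Y, y < (p + 1) * (z + p * j) ∧
    (y % (z + p * j) < z → y / (z + p * j) ≠ 0) ∧
    (z ≤ y % (z + p * j) → y / (z + p * j) ≠ 0 → y % (z + p * j) < z + i * j) ∧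
    (z ≤ y % (z + p * j) → y / (z + p * j) = 0 → z + (p - i) * j ≤ y % (z + p * j))

/-- The zones met by `Y`. -/
def zn (j p z : ℕ) (Y : Finset ℕ) : Finset ℕ :=
  (Y.filter (fun y => y % (z + p * j) < z)).image (fun y => y / (z + p * j))

/-- (RcA, 200 lines) One step of the recursion. Write `w = z + p j`, `n = (p+1) w`.
PROOF. Let `A0 = {a_1 < … < a_q}` (`Finset.orderEmbOfFin`), and let `l_1 < … < l_q` be the `q` smallest zones of `zn Y`
(`1 ≤ l_κ ≤ p`). Cuts: for `1 ≤ κ < q` the interval `I_κ = [l_κ w + z + i j, l_κ w + z + (i+1) j)` (slot `i` of reservoir `l_κ`). Moreover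
`I_0 = [z + (p-1-i) j, z + (p-i) j)` (in reservoir `0`) and `I_q = [p w + z + i j, p w + z + (i+1) j)` (reservoir `p`).
These intervals have length `j`, they are increasing, inside `[0, n)`, and contain no element of `Y` (`Ok j p z i Y`; zones are disjoint from them). All elements of `Y` are larger than
`I_0` (elements of reservoir `0` by `Ok`, the others are `≥ w`) and smaller than `I_q` (elements in reservoir `p` have `x < z + i j`; the others are
`< p w + z`). Define `B c` for `c : Fin j`: if `c = a_κ`: `B c` = the elements of `Y` between `I_(κ-1)` and `I_κ` (larger than all elements of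
`I_(κ-1)` and smaller than all elements of `I_κ`). If `c ∉ A0`, let `κ` = the number of elements of `A0` that are `< c` (`0 ≤ κ ≤ q`):
`B c = {start of I_κ + c}`. `B (a_κ)` is nonempty: it contains the elements of `Y` in zone `l_κ` (for `κ < q`: zone `l_κ` is before `I_κ` and after
`I_(κ-1)`, which is in reservoir `l_(κ-1)`; for `κ = q`: after `I_(q-1)` and before `I_q`). `Blk B`: let `c < c'`. If both are in `A0` the pieces are separated by a cut; if
`c ∉ A0`, `c' = a_κ'`: `κ(c) ≤ κ' - 1`, so `B c ⊆ I_(κ(c))` is before the piece; if `c = a_κ`, `c' ∉ A0`: `κ(c') ≥ κ`; if both are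
outside: `κ(c) ≤ κ(c')`, and in the same interval `c < c'` decides. `A0.biUnion B = Y`: every element of `Y` is in exactly one piece, since it is in no cut.
Let `A0 ⊄ A`, say `a_κ ∉ A`. `Y' = A.biUnion B` consists of elements of `Y` and elements of the slots of depth `i`, so `Ok j p z (i+1) Y'`. It has no
element in zone `l_κ` (all elements of `Y` in zone `l_κ` are in the piece `B (a_κ)`; new elements are in reservoirs), and `zn Y' ⊆ zn Y`, so
`(zn Y').card < (zn Y).card`. (Suggestion: describe the pieces with the function `g : ℕ → ℕ`, `g y` = the number of `κ ∈ {1, …, q-1}` with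
`l_κ w + z + i j ≤ y`, and `B (a_(κ+1)) = {y ∈ Y | g y = κ}` for `κ < q`.) If `j = 0` there is no `A0`. -/
def S_RcA : Prop :=
  ∀ (j p z i : ℕ) (A0 : Finset (Fin j)) (Y : Finset ℕ), A0.Nonempty → i < p → Ok j p z i Y →
    A0.card ≤ (zn j p z Y).card →
    ∃ B : Fin j → Finset ℕ, Blk B ∧ (∀ c, ∀ y ∈ B c, y < (p + 1) * (z + p * j)) ∧ A0.biUnion B = Y ∧
      ∀ A : Finset (Fin j), ¬ A0 ⊆ A →
        Ok j p z (i + 1) (A.biUnion B) ∧ (zn j p z (A.biUnion B)).card < (zn j p z Y).card

/-- (RcB, 150 lines, uses RcA) The conclusion of the recursion. Here `cl` is any closure operator on sets of finite sets.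
PROOF. `w = z + p j`, `n = (p+1) w`, `q = A0.card`, `1 ≤ q ≤ j`. Let `S` be the set of all `Y` with `Ok j p z p Y` and
`(zn Y).card < q`. COUNT: `Y ∈ S` is a subset of (the positions of the zones in `Λ`) ∪ (all reservoir positions), where `Λ = zn Y ⊆ {1, …, p}` has at most
`q - 1 ≤ j - 1` elements. For given `Λ` this set has at most `z (j-1) + (p+1) p j` elements, and there are at most `2^p` sets `Λ`. So
`S.card ≤ 2^p * 2^(z(j-1) + (p+1) p j)` (`Finset.card_biUnion_le`).
CLAIM: for all `k ≤ p` and all `Y` with `(zn Y).card ≤ k` and `Ok j p z (p - k) Y`: `Y ∈ cl S`. Induction on `k`. `Ok` is monotone in the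
depth. If `(zn Y).card < q` then `Y ∈ S ⊆ cl S`. Otherwise `1 ≤ q ≤ (zn Y).card ≤ k`, so `p - k < p`; RcA with `i = p - k` gives
`B`, and by hypothesis `Y = A0.biUnion B ∈ cl {A.biUnion B | A ∈ Γ}`. For `A ∈ Γ`: `Ok j p z (p-k+1) (A.biUnion B)` and it
meets at most `k - 1` zones, so by induction `A.biUnion B ∈ cl S`. Hence `Y ∈ cl (cl S) ⊆ cl S`.
For `X : Finset (Fin (p * z))` the set `Y = X.image (fun i => (i / z + 1) * w + i % z)` is in the zones `1, …, p`
only (for `i < p z`: `z > 0`, `i % z < z`, `i / z < p`; `Y`'s elements have quotient `i/z + 1` and remainder `i % z`), so `Ok j p z 0 Y` and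
`(zn Y).card ≤ p`: use the claim with `k = p`. -/
def S_RcB : Prop :=
  ∀ (j p z : ℕ) (cl : Set (Finset ℕ) → Set (Finset ℕ)), (∀ S, S ⊆ cl S) → (∀ S S', S ⊆ S' → cl S ⊆ cl S') →
    (∀ S, cl (cl S) ⊆ cl S) →
    ∀ (A0 : Finset (Fin j)) (Γ : Finset (Finset (Fin j))), A0.Nonempty → (∀ A ∈ Γ, ¬ A0 ⊆ A) →
    (∀ B : Fin j → Finset ℕ, Blk B → (∀ c, ∀ y ∈ B c, y < (p + 1) * (z + p * j)) →
      A0.biUnion B ∈ cl {Y | ∃ A ∈ Γ, Y = A.biUnion B}) →
    ∃ S : Finset (Finset ℕ), (∀ Y ∈ S, ∀ y ∈ Y, y < (p + 1) * (z + p * j)) ∧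
      S.card ≤ 2 ^ (p + (p + 1) * p * j + z * (j - 1)) ∧
      ∀ X : Finset (Fin (p * z)),
        X.image (fun i : Fin (p * z) => ((i : ℕ) / z + 1) * (z + p * j) + (i : ℕ) % z) ∈ cl (S : Set (Finset ℕ))

/-- Large transcendence degree. -/
def S_LTD : Prop :=
  ∀ (m t : ℕ) (a : Fin m → ℕ) (L : ℂ), Ind a → L ≠ 0 → Tr (th a L) t → 2 ^ m < 4 * (t + 2) ^ 2

/-- Basic facts on `Tr` (see `SpecA.lean` for the proof tasks). Existence. -/
def S_TrE : Prop := ∀ (ι Ω : Type) [Finite ι] [Field Ω] [CharZero Ω] (x : ι → Ω), ∃ r, Tr x r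

/-- Comparison with a finite set of generators. -/
def S_TrU : Prop :=
  ∀ (ι κ Ω : Type) [Finite κ] [Field Ω] [CharZero Ω] (x : ι → Ω) (z : κ → Ω) (r : ℕ), Tr x r →
    (∀ i, IsAlgebraic (IntermediateField.adjoin ℚ (Set.range z)) (x i)) → r ≤ Nat.card κ

/-- (BlkT, 250 lines, uses LTD, TrE, TrU, MTfin, Cir, RcB) THE BLOCK THEOREM.
PROOF. `j = 0`: `M = 0`, the family is empty. Let `j ≥ 1`, `p = 4 j`, `z = 6 + 2 p + 2 (p+1) p j`, `n = (p+1)(z + p j)`. Colours
`K = Option (Finset (Fin j) × Finset (Finset (Fin j)))`, `M` from MTfin for `(j, n, K)`. Suppose `a, L` have no `B`. For a block sequence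
`B : Fin j → Finset (Fin M)` the family `fun A => th a L (A.biUnion B)` is dependent; let `χ B = some (A0, Γ)` from Cir
(choice), and `χ B = none` if `B` is not a block sequence. MTfin gives `C : Fin n → Finset (Fin M)` and `κ0`. There is a block sequence
`B : Fin j → Finset (Fin n)` (`j ≤ n`, singletons) and then `fun i => (B i).biUnion C` is a block sequence, so `κ0 = some (A0, Γ)`.
For `Y : Finset ℕ` let `CY Y = (Finset.univ.filter (fun i : Fin n => (i : ℕ) ∈ Y)).biUnion C` and `v Y = th a L (CY Y)`;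
`cl S = {Y | IsAlgebraic (IntermediateField.adjoin ℚ (v '' S)) (v Y)}`, a closure operator (transitivity of algebraicity). For `B : Fin j → Finset ℕ`, `Blk B`, in `[0, n)`,
the sequence `B' c = CY (B c)` is of the form `(..).biUnion C` with a block sequence in `Fin n`, so `χ B' = some (A0, Γ)`, and
`CY (A.biUnion B) = A.biUnion B'`. Hence `A0.biUnion B ∈ cl {A.biUnion B | A ∈ Γ}`. RcB gives `S` and
`X.image Z ∈ cl S` for all `X : Finset (Fin (p z))`, `Z i = (i/z+1) w + i % z < n` (injective). Let `a' i = ∏ l ∈ C (Z i), a l` for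
`i : Fin (p z)`. The sets `C (Z i)` are disjoint and nonempty, so `∏ i ∈ X, a' i = ∏ l ∈ CY (X.image Z), a l`, `Ind a'`, and
`mu a' X = mu a (CY (X.image Z))` (`Real.sqrt` of a product of naturals), `th a' L X = v (X.image Z)`. So all `th a' L X` are algebraic over
`ℚ(v '' S)`, hence `Tr (th a' L) t` with `t ≤ S.card` (TrE, TrU with `κ = S`). LTD with `m = p z`: `2^(p z) < 4 (t+2)^2`. But with
`e = p + (p+1) p j + z (j-1)`: `t + 2 ≤ 2^e + 2 ≤ 2^(e+2)`, `4 (t+2)^2 ≤ 2^(2e+6)`, and `2 e + 6 = z + 2 z (j-1) ≤ 4 j z = p z`, a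
contradiction. -/
def S_BlkT : Prop :=
  ∀ j : ℕ, ∃ M : ℕ, ∀ a : Fin M → ℕ, Ind a → ∀ L : ℂ, L ≠ 0 →
    ∃ B : Fin j → Finset (Fin M), Blk B ∧
      AlgebraicIndependent ℚ (fun A : {A : Finset (Fin j) // A.Nonempty} => th a L (A.1.biUnion B))

end Pool.Agent.SMQ
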