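import Pool.Agent.Lib.MP_452a87_nt.SpecR

/-!
# Part X: analysis

Notation: `D = 2 ^ m` = the number of subsets of `Fin m`; `th a L U = exp (m_U L)`, `m_U = mu a U = ∏ l ∈ U, √(a l)`.
For `lam, s : Finset (Fin m) → ℕ`: `w_lam = ∑ U, lam U m_U`, `z_s = (∑ V, s V m_V) L`. The task `X` is to write `X/X.lean` with
`theorem pX (h1 : S_..) ... : S_X`; statements used are hypotheses.
-/

set_option autoImplicit false

namespace Pool.Agent.SMQ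

open MvPolynomial

/-- (LIC, 150 lines) Linear independence of the products of square roots.
PROOF. Induction on a finite set `s` of indices: the family `(rho r U)_(U ⊆ s)` is linearly independent over `ℚ` (`LinearIndepOn`). `s = ∅`: `rho r ∅ = 1 ≠ 0`. All `r l ≠ 0` (`0` is a square).
Step: let `i ∉ s`, `ζ = r i`, and let `V_s` be the `ℚ`-span of `rho r U`, `U ⊆ s`; it is a ring since
`rho r U * rho r V = (∏ l ∈ U ∩ V, a l) * rho r (symmDiff U V)`. First `ζ ∉ V_s`: suppose `ζ = ∑_(U ⊆ s) c_U rho r U` with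
rational `c_U`. Not all `c_U` are zero. If exactly one is nonzero, `ζ = c rho r U`, so `rho r (insert i U) = ζ rho r U = c (rho r U)^2` is rational, and its square is the integer
`∏ l ∈ insert i U, a l`, which is therefore a square in `ℤ` (a rational number whose square is an integer is an integer), contradiction. If
`c_U, c_V ≠ 0` with `U ≠ V`, choose `l` in one of them but not in the other. Then `ζ = x + y (r l)` with `x` = the sum over `U ∌ l` and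
`y (r l)` = the sum over `U ∋ l`; `x, y ∈ V_(s \ {l})`, and `x ≠ 0 ≠ y` by the linear independence for `s`. Squaring:
`2 x y (r l) = a i - x^2 - y^2 a l` is both a combination of the `rho r W` with `l ∉ W` and (since `x y ∈ V_(s\{l})`) of those with `l ∈ W`; by linear
independence for `s` both are zero, so `x y (r l) = 0`, contradiction.
Now let `X + ζ Y = 0` with `X, Y ∈ V_s` (a relation for `insert i s`). If `Y = 0` then `X = 0` and all coefficients vanish by induction. If `Y ≠ 0`: `V_s` is a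
finite dimensional `ℚ`-algebra without zero divisors, so a field (`1/Y ∈ V_s`; multiplication by `Y` on `V_s` is injective, hence surjective), and
`ζ = -X/Y ∈ V_s`, contradiction. -/
def S_LIC : Prop :=
  ∀ (m : ℕ) (r : Fin m → ℂ) (a : Fin m → ℤ), Rts r a → LinearIndependent ℚ (fun U : Finset (Fin m) => rho r U)

/-- (LI, 40 lines, uses LIC) PROOF. LIC for `r l = (√(a l) : ℂ)` and the integers `a l` (a natural number which is a square in `ℤ` is a square in `ℕ`): `(mu a U : ℂ) = rho r U`, and linear independence over `ℚ` of the images in `ℂ` implies that of the real numbers. -/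
def S_LI : Prop :=
  ∀ (m : ℕ) (a : Fin m → ℕ), Ind a → LinearIndependent ℚ (fun U : Finset (Fin m) => mu a U)

/-- (Spa, 150 lines, uses LI) Liouville inequality for the linear forms.
PROOF. Let `A = ∏ l, a l ≥ 1`, so `0 < mu a U ≤ A`. Let `x = ∑ U, lam U mu a U`; `x ≠ 0` by LI (`lam ≠ 0`, integers). `x` is an algebraic integer. Let
`F = ℚ(√(a l) : l)` (an intermediate field of `ℂ` or `ℝ`); `[F : ℚ] ≤ 2^m` (it is spanned by the `mu a U`). Let `g` be the minimal polynomial of `x` over `ℤ` (or `ℚ`, with integer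
coefficients), of degree `e ≤ 2^m`, `e ≥ 1`. Its complex roots are `φ x` for embeddings `φ : F → ℂ` (or `ℚ(x) → ℂ` extended to `F`), and `(φ (mu a U))^2 = (mu a U)^2`
(a natural number), so `|φ (mu a U)| = mu a U ≤ A` and `|φ x| ≤ 2^m A N`. The product of the roots is `± g(0)`, a nonzero integer, and one of the
roots is `x`. So `1 ≤ |x| (2^m A N)^(e-1) ≤ |x| (C N)^(2^m)` with `C = 2^m A ≥ 1`. (Alternative by induction on `m`: `x = x_0 + x_1 √(a_m)`,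
`x (x_0 - x_1 √(a_m)) = x_0^2 - a_m x_1^2`, coefficients at most `C N^2`; also fine.) -/
def S_Spa : Prop :=
  ∀ (m : ℕ) (a : Fin m → ℕ), Ind a → ∃ C : ℝ, 1 ≤ C ∧ ∀ N : ℕ, 1 ≤ N → ∀ lam : Finset (Fin m) → ℤ, lam ≠ 0 →
    (∀ U, |lam U| ≤ (N : ℤ)) → 1 ≤ |∑ U, (lam U : ℝ) * mu a U| * (C * N) ^ (2 ^ m)

/-- (Cvi, 40 lines) `(∑ lam U m_U)(∑ s V m_V) = ∑ cv m_W`.
PROOF. `mu a U * mu a V = (∏ l ∈ U ∩ V, a l) * mu a (symmDiff U V)` (`√(a l)^2 = a l` for `l ∈ U ∩ V`); expand the product, and group the pairs `(U, V)`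
according to `W = symmDiff U V` (`Finset.sum_comm`, `Finset.sum_ite_eq`). -/
def S_Cvi : Prop :=
  ∀ (m : ℕ) (a : Fin m → ℕ) (lam s : Finset (Fin m) → ℕ),
    (∑ U, (lam U : ℝ) * mu a U) * (∑ V, (s V : ℝ) * mu a V) = ∑ W, (cv a lam s W : ℝ) * mu a W

/-- (Cvb, 30 lines) PROOF. `C = 4^m * ∏ l, max 1 (a l)`: each of the `4^m` terms is at most `(∏ l, max 1 (a l)) n1 n2`. -/
def S_Cvb : Prop :=
  ∀ (m : ℕ) (a : Fin m → ℕ), ∃ C : ℕ, ∀ (n1 n2 : ℕ) (lam s : Finset (Fin m) → ℕ),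
    (∀ U, lam U ≤ n1) → (∀ V, s V ≤ n2) → ∀ W, cv a lam s W ≤ C * (n1 * n2)

/-- (Ev, 40 lines, uses Cvi) The value of the auxiliary polynomial at `th a L`.
PROOF. `∏ W, (exp (m_W L))^(cv W) = exp ((∑ cv W m_W) L)` (`Complex.exp_nat_mul`, `Complex.exp_sum`) and Cvi (cast to `ℂ`). -/
def S_Ev : Prop :=
  ∀ (m : ℕ) (a : Fin m → ℕ) (L : ℂ) (N : ℕ) (p : (Finset (Fin m) → Fin N) → ℤ) (s : Finset (Fin m) → ℕ),
    aeval (th a L) (fs a N p s) = ∑ lam : Finset (Fin m) → Fin N,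
      (p lam : ℂ) * Complex.exp (((∑ U, ((lam U : ℕ) : ℝ) * mu a U : ℝ) : ℂ) *
        (((∑ V, (s V : ℝ) * mu a V : ℝ) : ℂ) * L))

/-- (Fsz, 80 lines, uses Cvb) The size of the auxiliary polynomials.
PROOF. Total degree: at most `∑ W, cv W ≤ 2^m C N (2 N)`. Each coefficient is at most `∑ |p lam| ≤ N^D 2^(N^2) ≤ 2^((D+1) N^2)` in absolute value, `D = 2^m`
(there are `N^D` functions `lam`, `N ≤ 2^N ≤ 2^(N^2)`; the coefficient of a monomial `∏ X W^e W` is `0` or `1`). The constant is the larger of the two, at least `1`. -/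
def S_Fsz : Prop :=
  ∀ (m : ℕ) (a : Fin m → ℕ), ∃ C : ℕ, 1 ≤ C ∧ ∀ N : ℕ, 1 ≤ N → ∀ p : (Finset (Fin m) → Fin N) → ℤ,
    (∀ lam, |p lam| ≤ 2 ^ (N ^ 2)) → ∀ s : Finset (Fin m) → ℕ, (∀ V, s V ≤ 2 * N) → Sz (fs a N p s) (C * N ^ 2)

/-- (Fl1, 40 lines) PROOF. `l1` is subadditive; `l1 (C c * monomial) ≤ |c|`. (`l1 f = ∑ |coeff|`; the product of powers of variables is a monomial with
coefficient `1`.) The number of `lam` is `N^(2^m)`. -/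
def S_Fl1 : Prop :=
  ∀ (m : ℕ) (a : Fin m → ℕ) (N P : ℕ) (p : (Finset (Fin m) → Fin N) → ℤ), (∀ lam, |p lam| ≤ (P : ℤ)) →
    ∀ s : Finset (Fin m) → ℕ, l1 (fs a N p s) ≤ N ^ (2 ^ m) * P

/-- (Swz, 120 lines) Schwarz lemma with factor 17.
PROOF. Induction on `Z` or directly: there is an entire `G` with `F z = (∏ x ∈ Z, (z - x)) * G z` (iterate `dslope`: if `F` is entire and `F x = 0` then
`F z = (z - x) * dslope F x z`, and `dslope F x` is entire, and it vanishes at the other zeros). On the circle `‖z‖ = 17 R`: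
`‖z - x‖ ≥ 16 R`, so `‖G z‖ ≤ M / (16 R)^T`, `T = Z.card`. By the maximum principle (`Complex.norm_le_of_forall_mem_frontier_norm_le` on the ball)
this holds for `‖z‖ ≤ 17 R`. For `‖z‖ ≤ R`: `‖z - x‖ ≤ 2 R`, so `‖F z‖ ≤ (2R)^T M / (16 R)^T = M / 8^T`. -/
def S_Swz : Prop :=
  ∀ (F : ℂ → ℂ) (Z : Finset ℂ) (R M : ℝ), Differentiable ℂ F → 0 < R → (∀ x ∈ Z, ‖x‖ ≤ R ∧ F x = 0) →
    (∀ z, ‖z‖ ≤ 17 * R → ‖F z‖ ≤ M) → ∀ z, ‖z‖ ≤ R → ‖F z‖ * 8 ^ Z.card ≤ M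

/-- (GrA, 120 lines) An algebraic inequality. `c l = ∑ μ, p μ w_μ^l`, `N j = ∑ μ, p μ ∏_(i < j) (w_μ - w_i)`.
PROOF. Induction on `n` for all `p, w`. `n = 0`: `c l = 0`. Step `n + 1`: let `c' l = c (l+1) - w_0 c l = ∑_(μ ≥ 1) p_μ (w_μ - w_0) w_μ^l` (the term `μ = 0` vanishes);
this is the sequence for the `n` numbers `w_1, …, w_n` and `p'_μ = p_μ (w_μ - w_0)`, with `N' j = N (j+1)` for `j < n` (the term `μ = 0` of `N (j+1)` vanishes). By induction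
`‖c' l‖ ≤ ∑_(j<n) ‖N (j+1)‖ (l choose j) Ω^(l-j)`. And `c l = w_0^l c 0 + ∑_(i<l) w_0^(l-1-i) c' i` (induction on `l`), `c 0 = N 0`. So
`‖c l‖ ≤ Ω^l ‖N 0‖ + ∑_(i<l) Ω^(l-1-i) ∑_j ‖N (j+1)‖ (i choose j) Ω^(i-j)`; the terms with `i < j` are zero, for `i ≥ j` the powers give `Ω^(l-1-j)`, and
`∑_(i<l) (i choose j) = (l choose (j+1))` (hockey stick, `Nat.sum_range_choose..`/`Finset.sum_range_choose`-type or induction; `Nat.succ_sub` care: if `l - 1 < j` both sides are zero). -/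
def S_GrA : Prop :=
  ∀ (n : ℕ) (p w : Fin n → ℂ) (Ω : ℝ), (∀ i, ‖w i‖ ≤ Ω) → ∀ l : ℕ,
    ‖∑ μ, p μ * w μ ^ l‖ ≤ ∑ j : Fin n, ‖∑ μ, p μ * ∏ i ∈ Finset.univ.filter (fun i => i < j), (w μ - w i)‖ *
      ((l.choose j : ℕ) : ℝ) * Ω ^ (l - (j : ℕ))

/-- (GrB, 100 lines) The numbers `N j` are bounded by the values near zero.
PROOF. `F z = ∑ p_μ e^(w_μ z)` is entire with `iteratedDeriv l F 0 = c l = ∑ p_μ w_μ^l`, so by Cauchy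
(`Complex.norm_iteratedDeriv_le_of_forall_mem_sphere_norm_le`) `‖c l‖ ≤ l! M R^(-l)`. Expand the product over the `j` factors `i < j`
(`Finset.prod_sub`/`Finset.prod_add`: sum over subsets `t` of `{i < j}`: `∏_(i∈t) w_μ ∏_(i∉t) (-w_i)`): `‖N j‖ ≤ ∑_(l ≤ j) (j choose l) Ω^(j-l) ‖c l‖ ≤
∑_(l≤j) (j choose l) Ω^(j-l) l! R^(-l) M = j! R^(-j) M ∑_(l≤j) (Ω R)^(j-l)/(j-l)! ≤ j! R^(-j) M e^(Ω R)` (`(j choose l) l! = j!/(j-l)!`;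
`Real.sum_le_exp_of_nonneg`). -/
def S_GrB : Prop :=
  ∀ (n : ℕ) (p w : Fin n → ℂ) (Ω R M : ℝ), (∀ i, ‖w i‖ ≤ Ω) → 0 < R →
    (∀ z : ℂ, ‖z‖ ≤ R → ‖∑ μ, p μ * Complex.exp (w μ * z)‖ ≤ M) → ∀ j : Fin n,
    ‖∑ μ, p μ * ∏ i ∈ Finset.univ.filter (fun i => i < j), (w μ - w i)‖ * R ^ (j : ℕ) ≤
      (Nat.factorial j : ℝ) * M * Real.exp (Ω * R)

/-- (Gro, 120 lines, uses GrA, GrB) Growth of exponential sums.
PROOF. Let `b j = ‖N j‖`. For all `z`: `F z = ∑_l c l z^l / l!` (sum of exponential series), so by GrA `‖F z‖ ≤ ∑_l ∑_(j<n) b j (l choose j) Ω^(l-j) |z|^l / l!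
= ∑_(j<n) b j |z|^j / j! ∑_(l ≥ j) (Ω |z|)^(l-j)/(l-j)! = ∑_(j<n) b j |z|^j/j! e^(Ω|z|)`. By GrB `b j ≤ j! M e^(ΩR) R^(-j)`. With `|z| ≤ 17 R`:
`‖F z‖ ≤ ∑_(j<n) 17^j M e^(ΩR) e^(17 ΩR) ≤ n 17^n e^(18 Ω R) M` (`0 ≤ M`, `0 ≤ Ω` if `n ≥ 1`). (`n = 0`: `F = 0`.) -/
def S_Gro : Prop :=
  ∀ (n : ℕ) (p w : Fin n → ℂ) (Ω R M : ℝ), (∀ i, ‖w i‖ ≤ Ω) → 0 < R →
    (∀ z : ℂ, ‖z‖ ≤ R → ‖∑ μ, p μ * Complex.exp (w μ * z)‖ ≤ M) →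
    ∀ z : ℂ, ‖z‖ ≤ 17 * R → ‖∑ μ, p μ * Complex.exp (w μ * z)‖ ≤ n * 17 ^ n * Real.exp (18 * Ω * R) * M

/-- (Cof, 120 lines) Recovery of the coefficients.
PROOF. Fix `k : Fin n`. `A(x) = ∏_(μ ≠ k) (x - w_μ)/(w_k - w_μ) = ∑_(j<n) a_j x^j` (`Lagrange.basis`), `A(w_k) = 1`, `A(w_μ) = 0` for `μ ≠ k`, and
`∑ |a_j| ≤ ∏_(μ≠k) (1 + Ω)/δ ≤ ((1+Ω)/δ)^n` (the sum of the absolute values of the coefficients is submultiplicative; `(1+Ω)/δ ≥ 1`). With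
`c j = ∑ p_μ w_μ^j = iteratedDeriv j F 0`, `‖c j‖ ≤ j! M ≤ n! M` (Cauchy on the circle of radius `R ≥ 1`), `p_k = ∑_j a_j c_j`. -/
def S_Cof : Prop :=
  ∀ (n : ℕ) (p w : Fin n → ℂ) (Ω δ R M : ℝ), (∀ i, ‖w i‖ ≤ Ω) → 0 < δ → δ ≤ 1 → 1 ≤ R → 0 ≤ Ω →
    (∀ i k, i ≠ k → δ ≤ ‖w i - w k‖) →
    (∀ z : ℂ, ‖z‖ ≤ R → ‖∑ μ, p μ * Complex.exp (w μ * z)‖ ≤ M) →
    ∀ k, ‖p k‖ ≤ ((1 + Ω) / δ) ^ n * (Nat.factorial n : ℝ) * M

/-- (Lag, 60 lines) Interpolation polynomial with bounds.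
PROOF. `Q = ∑_(x∈Z) g x ∏_(y∈Z, y≠x) (z - y)/(x - y)` (`Lagrange.interpolate Z id g`). For `‖z‖ ≤ 17 R`: `‖z - y‖ ≤ 18 R`, `‖x - y‖ ≥ δ`, so each term is at most
`ε (18R/δ)^(T-1) ≤ ε (18 R/δ)^T` as `18R/δ ≥ 1`. -/
def S_Lag : Prop :=
  ∀ (Z : Finset ℂ) (g : ℂ → ℂ) (R δ ε : ℝ), 1 ≤ R → 0 < δ → δ ≤ 1 → 0 ≤ ε → (∀ x ∈ Z, ‖x‖ ≤ R) →
    (∀ x ∈ Z, ∀ y ∈ Z, x ≠ y → δ ≤ ‖x - y‖) → (∀ x ∈ Z, ‖g x‖ ≤ ε) →
    ∃ Q : Polynomial ℂ, (∀ x ∈ Z, Q.eval x = g x) ∧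
      ∀ z : ℂ, ‖z‖ ≤ 17 * R → ‖Q.eval z‖ ≤ Z.card * ε * (18 * R / δ) ^ Z.card

/-- (Sml, 100 lines, uses Swz, Gro, Lag) Small at many points implies small on the disc.
PROOF. Let `F z = ∑ p_μ e^(w_μ z)`, `M1 = max_(‖z‖≤R) ‖F z‖` (attained: `IsCompact.exists_isMaxOn`). `G = n 17^n e^(18ΩR)`, `q = T ε (18R/δ)^T`, `T = Z.card`. Lag with `g = F`: `Q`. `F - Q` is entire and vanishes on `Z`; on
`‖z‖ ≤ 17R` it is at most `G M1 + q` (Gro). Swz: for `‖z‖ ≤ R`: `‖F z - Q z‖ ≤ (G M1 + q) / 8^T`. Since `T ≥ 2n`, `8^T ≥ 64^n ≥ 4 G`, `‖F z - Q z‖ ≤ M1/4 + q`, so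
`M1 ≤ M1/4 + 2q`, `M1 ≤ 3 q`. -/
def S_Sml : Prop :=
  ∀ (n : ℕ) (p w : Fin n → ℂ) (Ω R δ ε : ℝ) (Z : Finset ℂ), (∀ i, ‖w i‖ ≤ Ω) → 1 ≤ R → 0 < δ → δ ≤ 1 → 0 ≤ ε →
    (∀ x ∈ Z, ‖x‖ ≤ R) → (∀ x ∈ Z, ∀ y ∈ Z, x ≠ y → δ ≤ ‖x - y‖) →
    (∀ x ∈ Z, ‖∑ μ, p μ * Complex.exp (w μ * x)‖ ≤ ε) → 2 * n ≤ Z.card →
    4 * (n * 17 ^ n * Real.exp (18 * Ω * R)) ≤ 64 ^ n →
    ∀ z : ℂ, ‖z‖ ≤ R → ‖∑ μ, p μ * Complex.exp (w μ * z)‖ ≤ 3 * (Z.card * ε * (18 * R / δ) ^ Z.card)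

/-- (Lip, 80 lines) Lipschitz bound for polynomials.
PROOF. `f y - f y' = ∑_m coeff m f (∏ y_j^(m_j) - ∏ y'_j^(m_j))`. A product of `e ≤ d` factors of absolute value `≤ Y` (`Y ≥ 1`), each changed by at most `η`, changes by
at most `e Y^(e-1) η ≤ d Y^d η` (induction on the number of factors). -/
def S_Lip : Prop :=
  ∀ (ι : Type) [Fintype ι] (f : MvPolynomial ι ℤ) (d : ℕ) (y y' : ι → ℂ) (Y η : ℝ), 1 ≤ Y → 0 ≤ η → f.totalDegree ≤ d →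
    (∀ j, ‖y j‖ ≤ Y) → (∀ j, ‖y' j‖ ≤ Y) → (∀ j, ‖y j - y' j‖ ≤ η) →
    ‖aeval y f - aeval y' f‖ ≤ l1 f * (d * Y ^ d * η)

/-- (Pts, 100 lines, uses LI, Spa) The points `z_s` and the frequencies.
PROOF. `w_lam = ∑ lam U m_U`, `z_s = (∑ s V m_V) L`. `|w_lam| ≤ 2^m A N` with `A = ∏ max 1 (a l)` (as `0 ≤ mu a U ≤ A`), `‖z_s‖ ≤ 2^m A (2N) ‖L‖`. For `lam ≠ lam'` the difference is a nonzero integer vector
with entries at most `N` in absolute value: Spa gives `|w_lam - w_lam'| ≥ (C' N)^(-D)`. For `s ≠ s'` in `[0, 2N)^D`: entries at most `2N`: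
`‖z_s - z_s'‖ ≥ ‖L‖ (2 C' N)^(-D)`; as `N ≥ 1`, `min(1, ‖L‖) (2C'N)^(-D) ≥ (C N)^(-D)` for a suitable `C ≥ 1` (increase `C`: `(CN)^(-D) ≤ (2C'N)^(-D) (2C'/C)^D` and `D ≥ 1`).
All constants at most `C`. -/
def S_Pts : Prop :=
  ∀ (m : ℕ) (a : Fin m → ℕ) (L : ℂ), Ind a → L ≠ 0 → ∃ C : ℝ, 1 ≤ C ∧ ∀ N : ℕ, 1 ≤ N →
    (∀ lam : Finset (Fin m) → Fin N, |∑ U, ((lam U : ℕ) : ℝ) * mu a U| ≤ C * N) ∧
    (∀ lam lam' : Finset (Fin m) → Fin N, lam ≠ lam' →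
      1 ≤ |(∑ U, ((lam U : ℕ) : ℝ) * mu a U) - ∑ U, ((lam' U : ℕ) : ℝ) * mu a U| * (C * N) ^ (2 ^ m)) ∧
    (∀ s : Finset (Fin m) → Fin (2 * N), ‖((∑ V, ((s V : ℕ) : ℝ) * mu a V : ℝ) : ℂ) * L‖ ≤ C * N) ∧
    (∀ s s' : Finset (Fin m) → Fin (2 * N), s ≠ s' →
      1 ≤ ‖((∑ V, ((s V : ℕ) : ℝ) * mu a V : ℝ) : ℂ) * L - ((∑ V, ((s' V : ℕ) : ℝ) * mu a V : ℝ) : ℂ) * L‖ *
        (C * N) ^ (2 ^ m))

/-- (NumX, 120 lines) The numerical inequalities for X2 (`D ≥ 4` natural, `C ≥ 1`), for all large `N`. With `n = N^D`, `T = (2N)^D`.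
PROOF. Take logarithms. (1) `log 4 + D log N + N^D log 17 + 18 C^2 N^2 ≤ N^D log 64` for large `N`: `log (64/17) > 1`, and
`log 4 + D log N + 18 C^2 N^2 ≤ N^D` for large `N` (`D ≥ 4`). (2) The logarithm of the left side is at most
`N^D log(2 C N (C N)^D) + N^D log (N^D) + log 3 + D log (2N) + D log N + log (C N^2) + C N^2 log C + (2N)^D log (18 C N (C N)^D) - N^(D+1)`
(`n! ≤ n^n`), and all terms but the last are at most `K N^D log (2 C N)` with a constant `K`, which is smaller than `N^(D+1)` for large `N` (`log x / x → 0`). -/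
def S_NumX : Prop :=
  ∀ (D : ℕ) (C : ℝ), 4 ≤ D → 1 ≤ C → ∃ N0 : ℕ, ∀ N : ℕ, N0 ≤ N → 1 ≤ N ∧
    4 * (((N ^ D : ℕ) : ℝ) * 17 ^ (N ^ D) * Real.exp (18 * (C * N) * (C * N))) ≤ 64 ^ (N ^ D) ∧
    ((1 + C * N) * (C * N) ^ D) ^ (N ^ D) * (Nat.factorial (N ^ D) : ℝ) *
      (3 * ((((2 * N) ^ D : ℕ) : ℝ) * ((N : ℝ) ^ D * (C * N ^ 2 * C ^ (⌈C * (N : ℝ) ^ 2⌉₊) *
        Real.exp (-(N : ℝ) ^ (D + 1)))) * (18 * (C * N) * (C * N) ^ D) ^ ((2 * N) ^ D))) < 1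

/-- (X2, 200 lines, uses Pts, Ev, Cvb, Fl1, Lip, Sml, Cof, NumX) THE SMALL VALUE LEMMA.
PROOF. Let `D = 2^m ≥ 4` and let `C` be a large constant (Pts; total degree of `fs a N p s` at most `C N^2` for `s ≤ 2N` by Cvb; `C ≥ ‖th a L U‖ + 1` for all `U`). Let `N ≥ N0` from
NumX. Suppose `aeval y (fs a N p s) = 0` for all `s : Finset (Fin m) → Fin (2N)`. Let `P = max |p lam| ≥ 1` (`p ≠ 0`), attained at `k`. Index `Finset (Fin m) → Fin N` by `Fin n`, `n = N^D` (`Fintype.equivFin`,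
`Fintype.card_pi`). `F z = ∑ p lam e^(w_lam z)`. By Ev, Fl1, Lip (`η = exp(-N^(D+1)) ≤ 1`, `Y = C`), `‖F z_s‖ = ‖aeval (th a L) f_s - aeval y f_s‖ ≤ N^D P (d C^d η)`, where `d = ⌊C N^2⌋` or the natural bound for the degree,
`≤ ε := P · N^D (C N^2 C^(⌈C N^2⌉) η)`. `Z` = the set of the `z_s`, `Z.card = (2N)^D ≥ 2n` (distinct by Pts), `δ = (C N)^(-D) ≤ 1`, `R = C N ≥ 1`, `Ω = C N`. Sml: `‖F z‖ ≤ 3 T ε (18R/δ)^T` for `‖z‖ ≤ R`.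
Cof: `P = |p k| ≤ ((1+Ω)/δ)^n n! 3 T ε (18R/δ)^T`. Dividing by `P` contradicts NumX. -/
def S_X2 : Prop :=
  ∀ (m : ℕ) (a : Fin m → ℕ) (L : ℂ), 2 ≤ m → Ind a → L ≠ 0 → ∃ N0 : ℕ, ∀ N : ℕ, N0 ≤ N →
    ∀ p : (Finset (Fin m) → Fin N) → ℤ, p ≠ 0 → ∀ y : Finset (Fin m) → ℂ,
    (∀ U, ‖y U - th a L U‖ ≤ Real.exp (-(N : ℝ) ^ (2 ^ m + 1))) →
    ∃ s : Finset (Fin m) → ℕ, (∀ V, s V < 2 * N) ∧ aeval y (fs a N p s) ≠ 0

/-- Pigeonhole in `ℤ[ξ]` (task in `SpecK.lean`). -/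
def S_PG : Prop :=
  ∀ (ι Ω I G : Type) [Fintype ι] [Field Ω] [Fintype I] [Fintype G] (ξ : ι → Ω)
    (g : I → G → MvPolynomial ι ℤ) (d B h : ℕ),
    (∀ i γ, (g i γ).totalDegree ≤ d) → (∀ γ m, ∑ i, |(g i γ).coeff m| ≤ 2 ^ h) →
    Kc ξ d (B + h + 1) ^ Fintype.card G < 2 ^ (B * Fintype.card I) →
    ∃ w : I → ℤ, w ≠ 0 ∧ (∀ i, |w i| < 2 ^ B) ∧ ∀ γ, ∑ i, (w i : Ω) * aeval ξ (g i γ) = 0

/-- (X1a, 150 lines, uses PG, Cvb) The auxiliary functions: exact vanishing.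
PROOF. `D = 2^m`. Let `c` be the constant of `PP (th a L) t c`. Let `S0` be the largest natural number with `S0^D ≤ N^(D-2t-1)` (so `S0^D ≤ N^(D-2t-1) < (S0+1)^D`, `S0 ≤ N`; `S0 ≥ 1`).
PG with `ξ = th a L`, `I = Finset (Fin m) → Fin N`, `G = Finset (Fin m) → Fin S0`, `g lam s = ∏ W, X W^(cv a lam s W)`, `d = C N^2` (Cvb: the total degree is at most `2^m C' N S0 ≤ C N^2`, `C ≥ 1`), `B = N^2`, `h = 2^m N`
(`∑_lam |coeff| ≤ N^D ≤ 2^(D N)`). `Kc ≤ 2^(c ((C N^2)^t (N^2 + 2^m N + 1) + (C N^2)^(t+1))) ≤ 2^(C1 N^(2t+2))`. The condition is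
`S0^D C1 N^(2t+2) < N^2 N^D`, and `S0^D ≤ N^(D-2t-1)`, so it holds for `N > C1`. `w = p`. -/
def S_X1a : Prop :=
  ∀ (m : ℕ) (a : Fin m → ℕ) (L : ℂ) (t c : ℕ), PP (th a L) t c → 2 * t + 5 ≤ 2 ^ m → ∃ N0 : ℕ, ∀ N : ℕ, N0 ≤ N →
    ∃ (S0 : ℕ) (p : (Finset (Fin m) → Fin N) → ℤ), 1 ≤ S0 ∧ S0 ≤ N ∧ N ^ (2 ^ m - 2 * t - 1) < (S0 + 1) ^ (2 ^ m) ∧
      p ≠ 0 ∧ (∀ lam, |p lam| ≤ 2 ^ (N ^ 2)) ∧
      ∀ s : Finset (Fin m) → ℕ, (∀ V, s V < S0) → aeval (th a L) (fs a N p s) = 0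

/-- (X1, 200 lines, uses X1a, Ev, Pts, Swz) The auxiliary polynomials are small at `th a L`.
PROOF. `D = 2^m`, `e = D - 2t - 1 ≥ 4`. `F z = ∑ p lam e^(w_lam z)`, `F z_s = aeval (th a L) (fs a N p s)` (Ev). The points `z_s` with `s V < S0 ≤ N` are `S0^D` distinct zeros of `F`
(Pts), in the disc of radius `R = C N`. For `‖z‖ ≤ 17 R`: `‖F z‖ ≤ N^D 2^(N^2) exp(C N · 17 C N) ≤ exp(C2 N^2)` for `N ≥ 1`. Swz: for `‖z‖ ≤ R` (in particular `z = z_s`, `s V < 2N`):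
`‖F z‖ ≤ exp(C2 N^2) 8^(-S0^D)`, and `S0^D ≥ ((S0+1)/2)^D > N^e / 2^D`. So `‖F z‖ ≤ exp(C2 N^2 - 2^(-D) N^e log 8) ≤ exp(-N^(e-1))` for large `N`
(`e ≥ 4`: `2^(-D) N^e log 8 ≥ N^(e-1) + C2 N^2` for `N ≥ 2^D (1 + C2)`). -/
def S_X1 : Prop :=
  ∀ (m : ℕ) (a : Fin m → ℕ) (L : ℂ) (t c : ℕ), Ind a → L ≠ 0 → PP (th a L) t c → 2 * t + 5 ≤ 2 ^ m →
    ∃ N0 : ℕ, ∀ N : ℕ, N0 ≤ N → ∃ p : (Finset (Fin m) → Fin N) → ℤ, p ≠ 0 ∧ (∀ lam, |p lam| ≤ 2 ^ (N ^ 2)) ∧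
      ∀ s : Finset (Fin m) → ℕ, (∀ V, s V < 2 * N) →
        ‖aeval (th a L) (fs a N p s)‖ ≤ Real.exp (-(N : ℝ) ^ (2 ^ m - 2 * t - 2))

end Pool.Agent.SMQ
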